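import Pool.Agent.KB3.St

/-!
# Letters of the short sector moved to the long sector
-/

set_option autoImplicit false

namespace Pool.Agent.KB3

open Matrix

/-- multiplication from the right -/
private noncomputable def absR (A : ℂ) (a : Bool) (v : Fin 5 → ℂ) : Fin 5 → ℂ :=
  if a then ![0, 0, v 0 + dd A * v 2 + v 4, v 1 + dd A * v 3, 0]
  else ![0, v 0 + dd A * v 1 + v 3, 0, 0, v 2 + dd A * v 4]

private theorem abs_LL (A : ℂ) (a : Bool) (v : Fin 5 → ℂ) (b : Fin 5) :
    Lm A a (Lm A a v) b = dd A * Lm A a v b := by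
  fin_cases b <;> cases a <;> simp [Lm]

private theorem abs_RR (A : ℂ) (a : Bool) (v : Fin 5 → ℂ) (b : Fin 5) :
    absR A a (absR A a v) b = dd A * absR A a v b := by
  fin_cases b <;> cases a <;> simp [absR]

private theorem abs_LR (A : ℂ) (a a' : Bool) (v : Fin 5 → ℂ) (b : Fin 5) :
    absR A a (Lm A a' v) b = Lm A a' (absR A a v) b := by
  fin_cases b <;> cases a <;> cases a' <;> simp [absR, Lm] <;> ring

private theorem abs_Ladd (A : ℂ) (a : Bool) (c d : ℂ) (v w : Fin 5 → ℂ) (b : Fin 5) :
    Lm A a (fun b => c * v b + d * w b) b = c * Lm A a v b + d * Lm A a w b := by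
  fin_cases b <;> cases a <;> simp [Lm] <;> ring

private theorem abs_Radd (A : ℂ) (a : Bool) (c d : ℂ) (v w : Fin 5 → ℂ) (b : Fin 5) :
    absR A a (fun b => c * v b + d * w b) b = c * absR A a v b + d * absR A a w b := by
  fin_cases b <;> cases a <;> simp [absR] <;> ring

private theorem abs_ex1 (ε : Bool) (w : List Bool) : ex1 (ε :: w) = sg ε + ex1 w := by
  simp [ex1]

private theorem abs_left (A : ℂ) (hA : A ≠ 0) (a : Bool) (u : W) (w : List Bool) :
    vec A (up a w ++ u) = fun b => A ^ ex1 w * vec A u b + cc A w * Lm A a (vec A u) b := by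
  induction w with
  | nil =>
    funext b
    simp [up, ex1, cc]
  | cons ε w ih =>
    have h : up a (ε :: w) ++ u = (a, ε) :: (up a w ++ u) := rfl
    rw [h]
    show (fun b => A ^ sg ε * vec A (up a w ++ u) b +
      A ^ (-sg ε) * Lm A a (vec A (up a w ++ u)) b) = _
    rw [ih, abs_ex1, zpow_add₀ hA]
    funext b
    rw [abs_Ladd, abs_LL]
    simp only [cc]
    ring

private theorem abs_snoc (A : ℂ) (a ε : Bool) (u : W) :
    vec A (u ++ [(a, ε)]) =
      fun b => A ^ sg ε * vec A u b + A ^ (-sg ε) * absR A a (vec A u) b := by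
  induction u with
  | nil =>
    funext b
    cases a <;> fin_cases b <;> simp [vec, Lm, absR]
  | cons l u ih =>
    obtain ⟨a', ε'⟩ := l
    show (fun b => A ^ sg ε' * vec A (u ++ [(a, ε)]) b +
      A ^ (-sg ε') * Lm A a' (vec A (u ++ [(a, ε)])) b) = _
    rw [ih]
    funext b
    rw [abs_Ladd]
    show _ = A ^ sg ε * (A ^ sg ε' * vec A u b + A ^ (-sg ε') * Lm A a' (vec A u) b) +
      A ^ (-sg ε) * absR A a (fun b => A ^ sg ε' * vec A u b + A ^ (-sg ε') *
        Lm A a' (vec A u) b) b
    rw [abs_Radd, abs_LR]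
    ring

private theorem abs_right (A : ℂ) (hA : A ≠ 0) (a : Bool) (w : List Bool) : ∀ u : W,
    vec A (u ++ up a w) = fun b => A ^ ex1 w * vec A u b + cc A w * absR A a (vec A u) b := by
  induction w with
  | nil =>
    intro u
    funext b
    simp [up, ex1, cc]
  | cons ε w ih =>
    intro u
    have h : u ++ up a (ε :: w) = (u ++ [(a, ε)]) ++ up a w := by simp [up]
    rw [h, ih, abs_snoc, abs_ex1, zpow_add₀ hA]
    funext b
    rw [abs_Radd, abs_RR]
    simp only [cc]
    ring

theorem thm_Abs : St_Abs := by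
  intro A hA u w
  refine ⟨?_, ?_, ?_, ?_⟩
  · intro j hj
    rw [abs_left A hA]
    interval_cases j <;> simp [F0, F1, e0, e1, Fin.sum_univ_succ, Lm] <;> ring
  · intro j hj
    rw [abs_left A hA]
    interval_cases j <;> simp [F0, F1, e0, e1, Fin.sum_univ_succ, Lm] <;> ring
  · intro j hj
    rw [abs_right A hA]
    interval_cases j <;> simp [F0, F1, e0, e1, Fin.sum_univ_succ, absR] <;> ring
  · intro j hj
    rw [abs_right A hA]
    interval_cases j <;> simp [F0, F1, e0, e1, Fin.sum_univ_succ, absR] <;> ring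

end Pool.Agent.KB3
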