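import Pool.Agent.KB3.Defs

/-!
# Closures of braidoids on three strands: words, matrices, the braid group
-/

set_option autoImplicit false

namespace Pool.Agent.KB3

open Matrix

/-- Words on three strands: `(false, ε)` is a crossing at the positions `0, 1`, and `(true, ε)` a
crossing at the positions `1, 2`; `ε = true` means positive. -/
abbrev W : Type := List (Bool × Bool)

/-- the letters of a word -/
def nat (u : W) : List Letter := u.map fun l => (if l.1 then 1 else 0, l.2)

/-- the letters of a word on two strands -/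
def sh (w : List Bool) : List Letter := w.map fun ε => (0, ε)

/-- a diagram on three strands -/
def dia (i : ℕ) (u : W) (j : ℕ) (w : List Bool) : Braidoid := ⟨2, i, nat u, j, sh w⟩

/-- a diagram on two strands -/
def dia1 (i : ℕ) (w : List Bool) (j : ℕ) : Braidoid := ⟨1, i, sh w, j, []⟩

/-- exponent sum of a word on three strands -/
def ex (u : W) : ℤ := (u.map fun l => sg l.2).sum

/-- exponent sum of a word on two strands -/
def ex1 (w : List Bool) : ℤ := (w.map sg).sum

/-- a word of the short sector as a word of the long sector, at the positions `0, 1` (`false`) or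
`1, 2` (`true`) -/
def up (a : Bool) (w : List Bool) : W := w.map fun ε => (a, ε)

/-- exchange of the positions `0` and `2` -/
def flp (u : W) : W := u.map fun l => (!l.1, l.2)

/-! ### the Temperley-Lieb algebra -/

/-- the value of a circle -/
noncomputable def dd (A : ℂ) : ℂ := -A ^ 2 - (A ^ 2)⁻¹

/-- Multiplication from the left by `U₀` (`a = false`) or `U₁` (`a = true`) in the coordinates
with respect to the basis `1, U₀, U₁, U₀U₁, U₁U₀`. -/
noncomputable def Lm (A : ℂ) (a : Bool) (v : Fin 5 → ℂ) : Fin 5 → ℂ :=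
  if a then ![0, 0, v 0 + dd A * v 2 + v 3, 0, v 1 + dd A * v 4]
  else ![0, v 0 + dd A * v 1 + v 4, 0, v 2 + dd A * v 3, 0]

/-- The coordinates of `∏ (A ^ ε + A ^ (-ε) U_a)` (from the bottom to the top, left to right). -/
noncomputable def vec (A : ℂ) : W → Fin 5 → ℂ
  | [] => ![1, 0, 0, 0, 0]
  | (a, ε) :: u => fun b => A ^ sg ε * vec A u b + A ^ (-sg ε) * Lm A a (vec A u) b

/-- The coefficient of `U` of the word `w` on two strands (that of `1` is `A ^ ex1 w`). -/
noncomputable def cc (A : ℂ) : List Bool → ℂ
  | [] => 0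
  | ε :: w => A ^ sg ε * cc A w + A ^ (-sg ε) * (A ^ ex1 w + dd A * cc A w)

/-- `cc A w = A ^ (ex1 w - 2) * kap t w` for `t = A ^ (-4)` -/
noncomputable def kap (t : ℂ) : List Bool → ℂ
  | [] => 0
  | true :: w => 1 - t * kap t w
  | false :: w => (1 - kap t w) / t

/-- The number of components minus one of the closure with tail `i` and head `j` of the elements
of the basis, with two vertical strands in the short sector. -/
def e0 : ℕ → ℕ → Fin 5 → ℕ
  | 0, 1 => ![1, 1, 0, 0, 0]
  | 1, 0 => ![1, 1, 0, 0, 0]
  | 1, 2 => ![1, 0, 1, 0, 0]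
  | 2, 1 => ![1, 0, 1, 0, 0]
  | 0, 2 => ![0, 0, 0, 0, 1]
  | 2, 0 => ![0, 0, 0, 1, 0]
  | _, _ => ![2, 1, 1, 0, 0]

/-- The same with a turnback in the short sector. -/
def e1 : ℕ → ℕ → Fin 5 → ℕ
  | 0, 1 => ![0, 0, 1, 0, 1]
  | 1, 0 => ![0, 0, 1, 1, 0]
  | 1, 2 => ![0, 1, 0, 0, 1]
  | 2, 1 => ![0, 1, 0, 1, 0]
  | 0, 2 => ![0, 1, 1, 0, 2]
  | 2, 0 => ![0, 1, 1, 2, 0]
  | 0, 0 => ![1, 0, 2, 1, 1]
  | 2, 2 => ![1, 2, 0, 1, 1]
  | _, _ => ![1, 0, 0, 0, 0]

/-- evaluation of a Laurent polynomial -/
noncomputable def evl (A : ℂˣ) (p : LaurentPolynomial ℤ) : ℂ :=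
  LaurentPolynomial.eval₂ (Int.castRingHom ℂ) A p

/-! ### the Burau representation -/

/-- the matrices of the letters -/
noncomputable def gen (t : ℂ) : Bool × Bool → Matrix (Fin 2) (Fin 2) ℂ
  | (false, true) => !![-t, 1; 0, 1]
  | (false, false) => !![-t⁻¹, t⁻¹; 0, 1]
  | (true, true) => !![1, 0; t, -t]
  | (true, false) => !![1, 0; 1, -t⁻¹]

/-- the reduced Burau representation -/
noncomputable def Psi (t : ℂ) (u : W) : Matrix (Fin 2) (Fin 2) ℂ := (u.map (gen t)).prod

/-- the matrices of the letters for `t = -1` -/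
def gen1 : Bool × Bool → Matrix (Fin 2) (Fin 2) ℤ
  | (false, true) => !![1, 1; 0, 1]
  | (false, false) => !![1, -1; 0, 1]
  | (true, true) => !![1, 0; -1, 1]
  | (true, false) => !![1, 0; 1, 1]

/-- the representation for `t = -1` -/
def psi (u : W) : Matrix (Fin 2) (Fin 2) ℤ := (u.map gen1).prod

/-! ### the braid group -/

/-- the relations of the braid group on three strands -/
inductive Rl : FreeMonoid (Bool × Bool) → FreeMonoid (Bool × Bool) → Prop
  | inv (a ε : Bool) : Rl (FreeMonoid.of (a, ε) * FreeMonoid.of (a, !ε)) 1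
  | braid : Rl
      (FreeMonoid.of (false, true) * FreeMonoid.of (true, true) * FreeMonoid.of (false, true))
      (FreeMonoid.of (true, true) * FreeMonoid.of (false, true) * FreeMonoid.of (true, true))

/-- the braid group on three strands -/
abbrev B3 : Type := PresentedMonoid Rl

/-- the braid of a word -/
def cl (u : W) : B3 := PresentedMonoid.mk Rl (FreeMonoid.ofList u)

theorem cl_append (u v : W) : cl (u ++ v) = cl u * cl v := by
  unfold cl
  rw [FreeMonoid.ofList_append, map_mul]

theorem cl_nil : cl [] = 1 := rfl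

theorem cl_surj (g : B3) : ∃ u : W, cl u = g := by
  induction g using Quotient.inductionOn with
  | h u => exact ⟨FreeMonoid.toList u, rfl⟩

theorem cl_rel {x y : FreeMonoid (Bool × Bool)} (h : Rl x y) :
    cl (FreeMonoid.toList x) = cl (FreeMonoid.toList y) :=
  Quotient.sound (ConGen.Rel.of _ _ h)

theorem cl_inv (a ε : Bool) : cl [(a, ε)] * cl [(a, !ε)] = 1 := by
  rw [← cl_append]
  exact cl_rel (Rl.inv a ε)

theorem cl_braid : cl [(false, true)] * cl [(true, true)] * cl [(false, true)] =
    cl [(true, true)] * cl [(false, true)] * cl [(true, true)] := by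
  rw [← cl_append, ← cl_append, ← cl_append, ← cl_append]
  exact cl_rel Rl.braid

theorem isUnit_cl (u : W) : IsUnit (cl u) := by
  induction u with
  | nil => exact isUnit_one
  | cons l u ih =>
    have h : cl (l :: u) = cl [l] * cl u := cl_append [l] u
    rw [h]
    refine IsUnit.mul ?_ ih
    obtain ⟨a, ε⟩ := l
    have h1 := cl_inv a ε
    have h2 := cl_inv a (!ε)
    rw [Bool.not_not] at h2
    exact ⟨⟨_, _, h1, h2⟩, rfl⟩

noncomputable instance : Group B3 := groupOfIsUnit fun g => by
  obtain ⟨u, rfl⟩ := cl_surj g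
  exact isUnit_cl u

/-- the generators -/
def xx : B3 := cl [(false, true)]

/-- the generators -/
def yy : B3 := cl [(true, true)]

theorem cl_x' : cl [(false, false)] = xx⁻¹ := by
  rw [eq_comm, inv_eq_iff_mul_eq_one]
  exact cl_inv false true

theorem cl_y' : cl [(true, false)] = yy⁻¹ := by
  rw [eq_comm, inv_eq_iff_mul_eq_one]
  exact cl_inv true true

theorem braid_xy : xx * yy * xx = yy * xx * yy := cl_braid

/-- the square of the half twist, a central element -/
noncomputable def zz : B3 := (xx * yy * xx) ^ 2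

/-- A function on the letters which respects the relations gives a homomorphism. -/
theorem exists_hom {M : Type} [Monoid M] (f : Bool × Bool → M)
    (h1 : ∀ a ε, f (a, ε) * f (a, !ε) = 1)
    (h2 : f (false, true) * f (true, true) * f (false, true) =
      f (true, true) * f (false, true) * f (true, true)) :
    ∃ F : B3 →* M, ∀ u : W, F (cl u) = (u.map f).prod := by
  refine ⟨PresentedMonoid.lift f ?_, ?_⟩
  · intro a b hab
    cases hab with
    | inv a ε => simpa using h1 a ε
    | braid => simpa using h2
  · intro u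
    induction u with
    | nil => simp [cl_nil]
    | cons l u ih =>
      have h : cl (l :: u) = cl [l] * cl u := cl_append [l] u
      rw [h, map_mul, ih, List.map_cons, List.prod_cons]
      congr 1

end Pool.Agent.KB3
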