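import Pool.Agent.KB3.St

/-!
# Closures of braidoids on at most three strands: assembly
-/

set_option autoImplicit false

namespace Pool.Agent.KB3

private theorem asm_nat (L : List Letter) (h : ∀ l ∈ L, l.1 < 2) : ∃ u : W, nat u = L := by
  induction L with
  | nil => exact ⟨[], rfl⟩
  | cons l L ih =>
    obtain ⟨u, hu⟩ := ih fun l hl => h l (List.mem_cons_of_mem _ hl)
    have h1 := h l (List.mem_cons_self ..)
    obtain ⟨a, ε⟩ := l
    have h2 : a = 0 ∨ a = 1 := by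
      simp only at h1
      omega
    rcases h2 with rfl | rfl
    · exact ⟨(false, ε) :: u, by rw [← hu]; rfl⟩
    · exact ⟨(true, ε) :: u, by rw [← hu]; rfl⟩

private theorem asm_sh (L : List Letter) (h : ∀ l ∈ L, l.1 < 1) : ∃ w : List Bool, sh w = L := by
  induction L with
  | nil => exact ⟨[], rfl⟩
  | cons l L ih =>
    obtain ⟨w, hw⟩ := ih fun l hl => h l (List.mem_cons_of_mem _ hl)
    have h1 := h l (List.mem_cons_self ..)
    obtain ⟨a, ε⟩ := l
    have h2 : a = 0 := by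
      simp only at h1
      omega
    subst h2
    exact ⟨ε :: w, by rw [← hw]; rfl⟩

private theorem asm_nil (L : List Letter) (h : ∀ l ∈ L, l.1 < 0) : L = [] := by
  rcases L with _ | ⟨l, L⟩
  · rfl
  · exact absurd (h l (List.mem_cons_self ..)) (Nat.not_lt_zero _)

private theorem asm_writhe (i : ℕ) (u : W) (j : ℕ) (w : List Bool) :
    writhe (dia i u j w) = ex u + ex1 w := by
  unfold writhe dia ex ex1 nat sh
  simp only [List.map_map]
  rfl

private theorem asm_writhe1 (i : ℕ) (w : List Bool) (j : ℕ) :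
    writhe (dia1 i w j) = ex1 w := by
  unfold writhe dia1 ex1 sh
  simp only [List.map_map, List.map_nil, List.sum_nil, add_zero]
  rfl

private theorem asm_ex_up (a : Bool) (w : List Bool) (u : W) :
    ex (up a w ++ u) = ex u + ex1 w := by
  unfold ex ex1 up
  rw [List.map_append, List.sum_append, List.map_map, add_comm]
  rfl

private theorem asm_ex_up' (a : Bool) (w : List Bool) (u : W) :
    ex (u ++ up a w) = ex u + ex1 w := by
  unfold ex ex1 up
  rw [List.map_append, List.sum_append, List.map_map]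
  rfl

/-- The assembly for three strands. -/
private theorem asm_three (hNor : St_Nor) (hSum : St_Sum) (hAbs : St_Abs) (hFlp : St_Flp)
    (hKap : St_Kap) (hTA : St_TA) (hTB : St_TB) (hTC : St_TC) (hTD : St_TD)
    (hSho : St_Sho) (hRed : St_Red) (i j : ℕ) (hi : i ≤ 2) (hj : j ≤ 2) (u : W) (w : List Bool)
    (hf : normalized (dia i u j w) = 1) :
    Isotopic (dia i u j w) ⟨0, 0, [], 0, []⟩ ∨ Isotopic (dia i u j w) ⟨1, 0, [], 1, []⟩ ∨
    Isotopic (dia i u j w) ⟨1, 1, [], 0, []⟩ ∨ Isotopic (dia i u j w) ⟨2, 0, [], 2, []⟩ ∨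
    Isotopic (dia i u j w) ⟨2, 2, [], 0, []⟩ := by
  have key : ∀ A : ℂ, A ≠ 0 → A ^ ex1 w * F0 i j A (vec A u) + cc A w * F1 i j A (vec A u) =
      (-A ^ 3) ^ (ex u + ex1 w) := by
    intro A hA
    have h1 := hNor _ hf (Units.mk0 A hA)
    rw [hSum i j hi hj, asm_writhe] at h1
    exact h1
  obtain ⟨hR1, hR2, hR3, hR4, hR5, hR6, -, -⟩ := hRed
  obtain ⟨hS1, -, hS3, hS4⟩ := hSho
  obtain ⟨hF1, hF2, hF3, F, hF4, hFx, hFy⟩ := hFlp
  have htr : ∀ {a b c : Braidoid}, Isotopic a b → Isotopic b c → Isotopic a c :=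
    fun h h' => Relation.EqvGen.trans _ _ _ h h'
  -- flips of the functionals
  have f20 : ∀ A v, F0 2 0 A (vec A v) = F0 0 2 A (vec A (flp v)) := by
    intro A v
    rw [hF1]
    simp [F0, Fin.sum_univ_five, e0]
    ring
  have f10 : ∀ A v, F0 1 0 A v = F0 0 1 A v := fun A v => rfl
  have f12 : ∀ A v, F0 1 2 A (vec A v) = F0 0 1 A (vec A (flp v)) := by
    intro A v
    rw [hF1]
    simp [F0, Fin.sum_univ_five, e0]
    ring
  have f21 : ∀ A v, F0 2 1 A v = F0 1 2 A v := fun A v => rfl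
  have f11 : ∀ A v, F0 1 1 A v = F0 0 0 A v := fun A v => rfl
  have f22 : ∀ A v, F0 2 2 A v = F0 0 0 A v := fun A v => rfl
  have hi' : i = 0 ∨ i = 1 ∨ i = 2 := by omega
  have hj' : j = 0 ∨ j = 1 ∨ j = 2 := by omega
  rcases hi' with rfl | rfl | rfl <;> rcases hj' with rfl | rfl | rfl
  · -- 0 0
    have h1 : ∀ A : ℂ, A ≠ 0 → F0 0 0 A (vec A (up true w ++ u)) =
        (-A ^ 3) ^ ex (up true w ++ u) := by
      intro A hA
      rw [← (hAbs A hA u w).1 0 (by omega), key A hA, asm_ex_up]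
    obtain ⟨g, h, hh, hg⟩ := hTD _ h1
    exact Or.inl (htr (hS3 0 u w (by omega)).1 (hR6 0 _ g h (by omega) hh hg))
  · -- 0 1
    have h1 : ∀ A : ℂ, A ≠ 0 → F0 0 1 A (vec A (up true w ++ u)) =
        (-A ^ 3) ^ ex (up true w ++ u) := by
      intro A hA
      rw [← (hAbs A hA u w).1 1 (by omega), key A hA, asm_ex_up]
    obtain ⟨c, η, hη, hg⟩ := hTB _ h1
    exact Or.inr (Or.inl (htr (hS3 1 u w (by omega)).1 (hR3 _ c η hη hg).1))
  · -- 0 2
    have h1 : ∀ A : ℂ, A ≠ 0 → F0 0 2 A (vec A (up true w ++ u)) =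
        (-A ^ 3) ^ ex (up true w ++ u) := by
      intro A hA
      rw [← (hAbs A hA u w).1 2 (by omega), key A hA, asm_ex_up]
    obtain ⟨m, hm⟩ := hTA _ h1
    exact Or.inr (Or.inr (Or.inr (Or.inl (htr (hS3 2 u w (by omega)).1 (hR1 _ m hm)))))
  · -- 1 0
    have h1 : ∀ A : ℂ, A ≠ 0 → F0 0 1 A (vec A (u ++ up true w)) =
        (-A ^ 3) ^ ex (u ++ up true w) := by
      intro A hA
      rw [← f10, ← (hAbs A hA u w).2.2.1 1 (by omega), key A hA, asm_ex_up']
    obtain ⟨c, η, hη, hg⟩ := hTB _ h1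
    exact Or.inr (Or.inr (Or.inl (htr (hS4 1 u w (by omega)).1 (hR3 _ c η hη hg).2)))
  · -- 1 1
    by_cases hw : ex1 w = 0
    · have h1 : ∀ A : ℂ, A ≠ 0 → F0 0 0 A (vec A u) = (-A ^ 3) ^ ex u := by
        intro A hA
        have h2 := key A hA
        have h3 : cc A w = 0 := by
          have ht : (A ^ 4)⁻¹ ≠ 0 := inv_ne_zero (pow_ne_zero 4 hA)
          have h4 := hKap.1 A (A ^ 4)⁻¹ hA (inv_mul_cancel₀ (pow_ne_zero 4 hA)) w
          rw [hKap.2.2.2 _ ht w hw, mul_zero] at h4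
          exact h4
        rw [h3, hw, zero_mul, add_zero, add_zero, zpow_zero, one_mul] at h2
        exact h2
      obtain ⟨g, h, hh, hg⟩ := hTD _ h1
      exact Or.inl (htr (hS1 1 1 u w [] (by omega) (by omega) (by rw [hw]; rfl))
        (hR6 1 _ g h (by omega) hh hg))
    · obtain ⟨hw1, η, hη, hg⟩ := hTC u w hw key
      exact Or.inl (hR5 u w η hw1 hη hg)
  · -- 1 2
    have h1 : ∀ A : ℂ, A ≠ 0 → F0 0 1 A (vec A (flp (u ++ up false w))) =
        (-A ^ 3) ^ ex (flp (u ++ up false w)) := by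
      intro A hA
      rw [← f12, ← (hAbs A hA u w).2.2.2 1 (by omega), key A hA, hF2, asm_ex_up']
    obtain ⟨c, η, hη, hg⟩ := hTB _ h1
    have h2 := congrArg F hg
    rw [hF4, hF3, map_mul, map_mul, map_zpow, map_zpow, map_zpow, hFx, hFy] at h2
    exact Or.inr (Or.inl (htr (hS4 1 u w (by omega)).2 (hR4 _ c η hη h2).1))
  · -- 2 0
    have h1 : ∀ A : ℂ, A ≠ 0 → F0 0 2 A (vec A (flp (up false w ++ u))) =
        (-A ^ 3) ^ ex (flp (up false w ++ u)) := by
      intro A hA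
      rw [← f20, ← (hAbs A hA u w).2.1 0 (by omega), key A hA, hF2, asm_ex_up]
    obtain ⟨m, hm⟩ := hTA _ h1
    have h2 := congrArg F hm
    rw [hF4, hF3, map_mul, map_zpow, map_zpow, hFx, hFy] at h2
    exact Or.inr (Or.inr (Or.inr (Or.inr (htr (hS3 0 u w (by omega)).2 (hR2 _ m h2)))))
  · -- 2 1
    have h1 : ∀ A : ℂ, A ≠ 0 → F0 0 1 A (vec A (flp (up false w ++ u))) =
        (-A ^ 3) ^ ex (flp (up false w ++ u)) := by
      intro A hA
      rw [← f12, ← f21, ← (hAbs A hA u w).2.1 1 (by omega), key A hA, hF2, asm_ex_up]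
    obtain ⟨c, η, hη, hg⟩ := hTB _ h1
    have h2 := congrArg F hg
    rw [hF4, hF3, map_mul, map_mul, map_zpow, map_zpow, map_zpow, hFx, hFy] at h2
    exact Or.inr (Or.inr (Or.inl (htr (hS3 1 u w (by omega)).2 (hR4 _ c η hη h2).2)))
  · -- 2 2
    have h1 : ∀ A : ℂ, A ≠ 0 → F0 0 0 A (vec A (up false w ++ u)) =
        (-A ^ 3) ^ ex (up false w ++ u) := by
      intro A hA
      rw [← f22, ← (hAbs A hA u w).2.1 2 (by omega), key A hA, asm_ex_up]
    obtain ⟨g, h, hh, hg⟩ := hTD _ h1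
    exact Or.inl (htr (hS3 2 u w (by omega)).2 (hR6 2 _ g h (by omega) hh hg))

theorem thm_Asm (hNor : St_Nor) (hSum : St_Sum) (hSum1 : St_Sum1) (hAbs : St_Abs) (hFlp : St_Flp)
    (hKap : St_Kap) (hTA : St_TA) (hTB : St_TB) (hTC : St_TC) (hTD : St_TD) (hT1 : St_T1)
    (hSho : St_Sho) (hRed : St_Red) (hPth : St_Pth) : St_Main := by
  intro D hD hn hP hf
  obtain ⟨p00, p01, p10, p02, p20⟩ := hPth
  have v00 : Valid ⟨0, 0, [], 0, []⟩ := ⟨by simp, by simp, by simp, by simp⟩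
  have v01 : Valid ⟨1, 0, [], 1, []⟩ := ⟨by simp, by simp, by simp, by simp⟩
  have v10 : Valid ⟨1, 1, [], 0, []⟩ := ⟨by simp, by simp, by simp, by simp⟩
  have v02 : Valid ⟨2, 0, [], 2, []⟩ := ⟨by simp, by simp, by simp, by simp⟩
  have v20 : Valid ⟨2, 2, [], 0, []⟩ := ⟨by simp, by simp, by simp, by simp⟩
  obtain ⟨n, i, L, j, L'⟩ := D
  obtain ⟨hi, hj, hL, hL'⟩ := hD
  simp only at hn hi hj hL hL'
  have hn' : n = 0 ∨ n = 1 ∨ n = 2 := by omega
  rcases hn' with rfl | rfl | rfl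
  · have h1 := asm_nil L hL
    have h2 := asm_nil L' fun l hl => absurd (hL' l hl) (Nat.not_lt_zero _)
    have h3 : i = 0 := by omega
    have h4 : j = 0 := by omega
    subst h1 h2 h3 h4
    exact ⟨_, v00, rfl, rfl, p00, Relation.EqvGen.refl _⟩
  · obtain ⟨w, rfl⟩ := asm_sh L hL
    have h2 := asm_nil L' fun l hl => by
      have := hL' l hl
      omega
    subst h2
    have key : ∀ A : ℂ, A ≠ 0 → A ^ ex1 w * (if i = j then dd A else 1) + cc A w =
        (-A ^ 3) ^ ex1 w := by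
      intro A hA
      have h1 := hNor (dia1 i w j) hf (Units.mk0 A hA)
      rw [hSum1 i j hi hj, asm_writhe1] at h1
      exact h1
    obtain ⟨-, -, -, -, -, -, hR7, hR8⟩ := hRed
    by_cases hij : i = j
    · subst hij
      simp only [if_true] at key
      exact ⟨_, v00, rfl, rfl, p00, hR7 i w hi ((hT1 w).1 key)⟩
    · simp only [if_neg hij] at key
      have h3 := hR8 i j w hi hj ((hT1 w).2 key)
      have h4 : (i = 0 ∧ j = 1) ∨ (i = 1 ∧ j = 0) := by omega
      rcases h4 with ⟨rfl, rfl⟩ | ⟨rfl, rfl⟩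
      · exact ⟨_, v01, rfl, rfl, p01, h3⟩
      · exact ⟨_, v10, rfl, rfl, p10, h3⟩
  · obtain ⟨u, rfl⟩ := asm_nat L hL
    obtain ⟨w, rfl⟩ := asm_sh L' fun l hl => by
      have := hL' l hl
      omega
    rcases asm_three hNor hSum hAbs hFlp hKap hTA hTB hTC hTD hSho hRed i j hi hj u w hf with
      h | h | h | h | h
    · exact ⟨_, v00, rfl, rfl, p00, h⟩
    · exact ⟨_, v01, rfl, rfl, p01, h⟩
    · exact ⟨_, v10, rfl, rfl, p10, h⟩
    · exact ⟨_, v02, rfl, rfl, p02, h⟩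
    · exact ⟨_, v20, rfl, rfl, p20, h⟩

end Pool.Agent.KB3
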