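import Pool.Agent.KB3.St

/-!
# The Temperley-Lieb vector in terms of the Burau matrix
-/

set_option autoImplicit false

namespace Pool.Agent.KB3

open Matrix

private theorem bur_ex (a ε : Bool) (u : W) : ex ((a, ε) :: u) = sg ε + ex u := by
  simp [ex]

private theorem bur_psi (t : ℂ) (a ε : Bool) (u : W) :
    Psi t ((a, ε) :: u) = gen t (a, ε) * Psi t u := by
  simp [Psi]

private theorem bur_step (A : ℂ) (hA : A ≠ 0) (a ε : Bool) (v : Fin 5 → ℂ)
    (M : Matrix (Fin 2) (Fin 2) ℂ) (E t : ℂ) (ht : t = (A ^ 4)⁻¹)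
    (h0 : v 0 = E)
    (h1 : (1 + t + t ^ 2) * v 1 = -E * A ^ 2 * t * ((1 + t) * (M 0 0 - 1) + t * M 0 1))
    (h2 : (1 + t + t ^ 2) * v 2 = -E * A ^ 2 * t * ((1 + t) * (M 1 1 - 1) + M 1 0))
    (h3 : (1 + t + t ^ 2) * v 3 = -E * t * ((1 + t) * M 0 1 + M 0 0 - 1))
    (h4 : (1 + t + t ^ 2) * v 4 = -E * ((1 + t) * M 1 0 + t * (M 1 1 - 1)))
    (v' : Fin 5 → ℂ) (hv : v' = fun b => A ^ sg ε * v b + A ^ (-sg ε) * Lm A a v b) :
    v' 0 = A ^ sg ε * E ∧
    (1 + t + t ^ 2) * v' 1 = -(A ^ sg ε * E) * A ^ 2 * t *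
      ((1 + t) * ((gen t (a, ε) * M) 0 0 - 1) + t * (gen t (a, ε) * M) 0 1) ∧
    (1 + t + t ^ 2) * v' 2 = -(A ^ sg ε * E) * A ^ 2 * t *
      ((1 + t) * ((gen t (a, ε) * M) 1 1 - 1) + (gen t (a, ε) * M) 1 0) ∧
    (1 + t + t ^ 2) * v' 3 = -(A ^ sg ε * E) * t *
      ((1 + t) * (gen t (a, ε) * M) 0 1 + (gen t (a, ε) * M) 0 0 - 1) ∧
    (1 + t + t ^ 2) * v' 4 = -(A ^ sg ε * E) *
      ((1 + t) * (gen t (a, ε) * M) 1 0 + t * ((gen t (a, ε) * M) 1 1 - 1)) := by
  have ht4 : t * A ^ 4 = 1 := by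
    rw [ht]
    field_simp
  have hv0 := congrFun hv 0
  have hv1 := congrFun hv 1
  have hv2 := congrFun hv 2
  have hv3 := congrFun hv 3
  have hv4 := congrFun hv 4
  clear hv
  generalize v' 0 = w0 at *
  generalize v' 1 = w1 at *
  generalize v' 2 = w2 at *
  generalize v' 3 = w3 at *
  generalize v' 4 = w4 at *
  cases a <;> cases ε <;>
    simp [gen, Lm, sg, dd, Matrix.mul_apply, Fin.sum_univ_two] at hv0 hv1 hv2 hv3 hv4 ⊢
  all_goals
    generalize v 0 = v0 at *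
    generalize v 1 = v1 at *
    generalize v 2 = v2 at *
    generalize v 3 = v3 at *
    generalize v 4 = v4 at *
    generalize M 0 0 = P at *
    generalize M 0 1 = Q at *
    generalize M 1 0 = R at *
    generalize M 1 1 = S at *
    subst hv0 hv1 hv2 hv3 hv4 h0
    clear v M v'
  · refine ⟨rfl, ?_, ?_, ?_, ?_⟩
    · linear_combination (norm := (subst ht; field_simp; ring))
        A⁻¹ * h1 + A * ((-A ^ 2 - (A ^ 2)⁻¹) * h1 + h4)
    · linear_combination (norm := (subst ht; field_simp; ring)) A⁻¹ * h2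
    · linear_combination (norm := (subst ht; field_simp; ring))
        A⁻¹ * h3 + A * (h2 + (-A ^ 2 - (A ^ 2)⁻¹) * h3)
    · linear_combination (norm := (subst ht; field_simp; ring)) A⁻¹ * h4
  · refine ⟨rfl, ?_, ?_, ?_, ?_⟩
    · linear_combination (norm := (subst ht; field_simp; ring))
        A * h1 + A⁻¹ * ((-A ^ 2 - (A ^ 2)⁻¹) * h1 + h4)
    · linear_combination (norm := (subst ht; field_simp; ring)) A * h2
    · linear_combination (norm := (subst ht; field_simp; ring))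
        A * h3 + A⁻¹ * (h2 + (-A ^ 2 - (A ^ 2)⁻¹) * h3)
    · linear_combination (norm := (subst ht; field_simp; ring)) A * h4
  · refine ⟨rfl, ?_, ?_, ?_, ?_⟩
    · linear_combination (norm := (subst ht; field_simp; ring)) A⁻¹ * h1
    · linear_combination (norm := (subst ht; field_simp; ring))
        A⁻¹ * h2 + A * ((-A ^ 2 - (A ^ 2)⁻¹) * h2 + h3)
    · linear_combination (norm := (subst ht; field_simp; ring)) A⁻¹ * h3
    · linear_combination (norm := (subst ht; field_simp; ring))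
        A⁻¹ * h4 + A * (h1 + (-A ^ 2 - (A ^ 2)⁻¹) * h4)
  · refine ⟨rfl, ?_, ?_, ?_, ?_⟩
    · linear_combination (norm := (subst ht; field_simp; ring)) A * h1
    · linear_combination (norm := (subst ht; field_simp; ring))
        A * h2 + A⁻¹ * ((-A ^ 2 - (A ^ 2)⁻¹) * h2 + h3)
    · linear_combination (norm := (subst ht; field_simp; ring)) A * h3
    · linear_combination (norm := (subst ht; field_simp; ring))
        A * h4 + A⁻¹ * (h1 + (-A ^ 2 - (A ^ 2)⁻¹) * h4)

theorem thm_Bur : St_Bur := by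
  intro A t hA ht u
  have ht0 : t ≠ 0 := by
    rintro rfl
    simp at ht
  have ht' : t = (A ^ 4)⁻¹ := by
    field_simp
    linear_combination ht
  induction u with
  | nil => simp [vec, ex, Psi]
  | cons l u ih =>
    obtain ⟨a, ε⟩ := l
    obtain ⟨h0, h1, h2, h3, h4⟩ := ih
    have hE : A ^ (sg ε + ex u) = A ^ sg ε * A ^ ex u := zpow_add₀ hA _ _
    rw [bur_ex, bur_psi, hE]
    exact bur_step A hA a ε (vec A u) (Psi t u) (A ^ ex u) t ht' h0 h1 h2 h3 h4
      (vec A ((a, ε) :: u)) rfl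

end Pool.Agent.KB3
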