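import Pool.Agent.KB3.St

set_option autoImplicit false

namespace Pool.Agent.KB3

theorem thm_Col : St_Col := by
  intro X _ r
  have e : {f : X → Bool // ∀ x y, r x y → f x = f y} ≃ (Quot r → Bool) :=
    { toFun := fun f => Quot.lift f.1 f.2
      invFun := fun g => ⟨fun x => g (Quot.mk r x), fun x y h => congrArg g (Quot.sound h)⟩
      left_inv := fun f => Subtype.ext rfl
      right_inv := fun g => by
        funext q
        induction q using Quot.ind with
        | mk x => rfl }
  have : Finite (Quot r) := Finite.of_surjective (Quot.mk r) (Quot.mk_surjective)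
  rw [Nat.card_congr e, Nat.card_fun, Nat.card_eq_fintype_card (α := Bool), Fintype.card_bool]

end Pool.Agent.KB3
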