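import Mathlib

/-!
# Closures of braidoids

A diagram of a knotoid in the sphere, going around an axis.  Angles are measured upwards.  At the
tail the number of strands increases from `n` to `n + 1`, at the head it decreases from `n + 1` to
`n`; between the tail and the head there is the long sector, with `n + 1` strands, and between the
head and the tail the short sector, with `n` strands.  In each sector the strands go up and cross as
in a braid.  The strands are numbered from the axis outwards, beginning with `0`.
-/

set_option autoImplicit false

namespace Pool.Agent.KB3

open LaurentPolynomial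

/-- The letter `(a, true)` is a positive crossing of the strands at the positions `a` and `a + 1`
(both going up), the letter `(a, false)` a negative one. -/
abbrev Letter : Type := ℕ × Bool

/-- The closure of a braidoid: the long sector, read upwards from the tail to the head, has the
letters `long`; the short sector, read upwards from the head to the tail, has the letters
`short`.  The tail is at the position `tail` at the bottom of the long sector, the head is at the
position `head` at the top of the long sector. -/
structure Braidoid where
  n : ℕ
  tail : ℕ
  long : List Letter
  head : ℕ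
  short : List Letter

/-- All positions are in the ranges allowed by the numbers of strands. -/
structure Valid (D : Braidoid) : Prop where
  tail : D.tail ≤ D.n
  head : D.head ≤ D.n
  long : ∀ l ∈ D.long, l.1 < D.n
  short : ∀ l ∈ D.short, l.1 + 1 < D.n

/-- The position in the long sector of the strand at the position `p` of the short sector, if the
end (head or tail) is at the position `h`. -/
def skip (h p : ℕ) : ℕ := if p < h then p else p + 1

/-- The three ways to join the four ends at a crossing: keep the crossing, smooth it vertically, or
smooth it horizontally. -/
inductive Join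
  | cross
  | vertical
  | horizontal

/-- Arcs in the slab of a letter at the positions `a`, `a + 1`: `(false, p)` is the lower end at the
position `p` and `(true, p)` the upper one. -/
inductive Arc (a : ℕ) : Join → Bool × ℕ → Bool × ℕ → Prop
  | other (c : Join) (p : ℕ) (h : p ≠ a) (h' : p ≠ a + 1) : Arc a c (false, p) (true, p)
  | up : Arc a .cross (false, a) (true, a + 1)
  | down : Arc a .cross (false, a + 1) (true, a)
  | left : Arc a .vertical (false, a) (true, a)
  | right : Arc a .vertical (false, a + 1) (true, a + 1)
  | turn (b : Bool) : Arc a .horizontal (b, a) (b, a + 1)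

/-- The points of the diagram on the levels between the letters: `(t, p)` is the point at the
position `p` of the level `t` of the long (left summand) or of the short (right summand) sector. -/
abbrev Pt (D : Braidoid) : Type :=
  (Fin (D.long.length + 1) × Fin (D.n + 1)) ⊕ (Fin (D.short.length + 1) × Fin D.n)

/-- A choice of joins at all crossings. -/
abbrev Joins (D : Braidoid) : Type :=
  (Fin D.long.length → Join) × (Fin D.short.length → Join)

/-- the level below (`false`) or above (`true`) the slab `t` -/
def lev {k : ℕ} (t : Fin k) (b : Bool) : Fin (k + 1) := if b then t.succ else t.castSucc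

/-- Two points are joined by an arc of the diagram with the joins `c`. -/
inductive Joined (D : Braidoid) (c : Joins D) : Pt D → Pt D → Prop
  | long (t : Fin D.long.length) (b b' : Bool) (p p' : Fin (D.n + 1))
      (h : Arc (D.long.get t).1 (c.1 t) (b, p) (b', p')) :
      Joined D c (.inl (lev t b, p)) (.inl (lev t b', p'))
  | short (t : Fin D.short.length) (b b' : Bool) (p p' : Fin D.n)
      (h : Arc (D.short.get t).1 (c.2 t) (b, p) (b', p')) :
      Joined D c (.inr (lev t b, p)) (.inr (lev t b', p'))
  | head (p : Fin D.n) (p' : Fin (D.n + 1)) (h : (p' : ℕ) = skip D.head p) :
      Joined D c (.inl (Fin.last _, p')) (.inr (0, p))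
  | tail (p : Fin D.n) (p' : Fin (D.n + 1)) (h : (p' : ℕ) = skip D.tail p) :
      Joined D c (.inr (Fin.last _, p)) (.inl (0, p'))

/-- The number of components (the interval and the circles) of the diagram with the joins `c`. -/
noncomputable def comps (D : Braidoid) (c : Joins D) : ℕ := Nat.card (Quot (Joined D c))

/-- The diagram consists of one path from the tail to the head. -/
def IsPath (D : Braidoid) : Prop := comps D (fun _ => .cross, fun _ => .cross) = 1

/-- The smoothing of a crossing of the given sign (`true` for positive): the `A`-smoothing
(`A = true`) of a positive crossing and the `B`-smoothing of a negative one are vertical. -/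
def smooth (sign A : Bool) : Join := if sign = A then .vertical else .horizontal

/-- A state: a choice of the `A`-smoothing (`true`) or the `B`-smoothing (`false`) at each
crossing. -/
abbrev State (D : Braidoid) : Type :=
  (Fin D.long.length → Bool) × (Fin D.short.length → Bool)

/-- the joins of a state -/
def State.joins {D : Braidoid} (s : State D) : Joins D :=
  (fun t => smooth (D.long.get t).2 (s.1 t), fun t => smooth (D.short.get t).2 (s.2 t))

/-- `1` for `true`, `-1` for `false` -/
def sg (b : Bool) : ℤ := if b then 1 else -1

/-- The bracket polynomial `∑ A ^ (#A - #B) (-A ^ 2 - A ^ (-2)) ^ (|s| - 1)`; here `A` is `T 1`. -/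
noncomputable def bracket (D : Braidoid) : ℤ[T;T⁻¹] :=
  ∑ s : State D, T (∑ t, sg (s.1 t) + ∑ t, sg (s.2 t)) *
    (-T 2 - T (-2)) ^ (comps D s.joins - 1)

/-- The writhe; all strands go up. -/
def writhe (D : Braidoid) : ℤ :=
  (D.long.map fun l => sg l.2).sum + (D.short.map fun l => sg l.2).sum

/-- The normalized bracket polynomial `(-A ^ 3) ^ (-w) ⟨D⟩`. -/
noncomputable def normalized (D : Braidoid) : ℤ[T;T⁻¹] :=
  C (((-1 : ℤˣ) ^ writhe D : ℤˣ) : ℤ) * T (-3 * writhe D) * bracket D

/-- all letters moved outwards by one position -/
def shift (w : List Letter) : List Letter := w.map fun l => (l.1 + 1, l.2)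

/-- The moves.  Each of them is an isotopy of knotoids in the sphere (the first Reidemeister moves
remove a loop around the axis or around infinity), if both diagrams are valid. -/
inductive Move : Braidoid → Braidoid → Prop
  /-- second Reidemeister move in the long sector -/
  | cancelLong (n i j : ℕ) (u v w : List Letter) (a : ℕ) (ε : Bool) :
      Move ⟨n, i, u ++ (a, ε) :: (a, !ε) :: v, j, w⟩ ⟨n, i, u ++ v, j, w⟩
  /-- second Reidemeister move in the short sector -/
  | cancelShort (n i j : ℕ) (u v w : List Letter) (a : ℕ) (ε : Bool) :
      Move ⟨n, i, w, j, u ++ (a, ε) :: (a, !ε) :: v⟩ ⟨n, i, w, j, u ++ v⟩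
  /-- third Reidemeister move -/
  | braid (n i j : ℕ) (u v w : List Letter) (a : ℕ) :
      Move ⟨n, i, u ++ (a, true) :: (a + 1, true) :: (a, true) :: v, j, w⟩
        ⟨n, i, u ++ (a + 1, true) :: (a, true) :: (a + 1, true) :: v, j, w⟩
  /-- a crossing slides past the tail, at other positions -/
  | tailPass (n i j : ℕ) (u w : List Letter) (a b : ℕ) (ε : Bool) (h : skip i a = b)
      (h' : skip i (a + 1) = b + 1) :
      Move ⟨n, i, (b, ε) :: u, j, w⟩ ⟨n, i, u, j, w ++ [(a, ε)]⟩
  /-- a crossing slides past the head, at other positions -/
  | headPass (n i j : ℕ) (u w : List Letter) (a b : ℕ) (ε : Bool) (h : skip j a = b)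
      (h' : skip j (a + 1) = b + 1) :
      Move ⟨n, i, u ++ [(b, ε)], j, w⟩ ⟨n, i, u, j, (a, ε) :: w⟩
  /-- first Reidemeister move: removing the outermost strand, with its only crossing, in the long
  sector -/
  | outerLong (n i j : ℕ) (u v w : List Letter) (ε : Bool) :
      Move ⟨n + 1, i, u ++ (n, ε) :: v, j, w⟩ ⟨n, i, u ++ v, j, w⟩
  /-- first Reidemeister move: removing the outermost strand, with its only crossing, in the short
  sector -/
  | outerShort (n i j : ℕ) (u v w : List Letter) (ε : Bool) :
      Move ⟨n + 2, i, w, j, u ++ (n, ε) :: v⟩ ⟨n + 1, i, w, j, u ++ v⟩
  /-- first Reidemeister move: removing the innermost strand, with its only crossing, in the long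
  sector -/
  | innerLong (n i j : ℕ) (u v w : List Letter) (ε : Bool) :
      Move ⟨n + 1, i + 1, shift u ++ (0, ε) :: shift v, j + 1, shift w⟩ ⟨n, i, u ++ v, j, w⟩
  /-- first Reidemeister move: removing the innermost strand, with its only crossing, in the short
  sector -/
  | innerShort (n i j : ℕ) (u v w : List Letter) (ε : Bool) :
      Move ⟨n + 2, i + 1, shift w, j + 1, shift u ++ (0, ε) :: shift v⟩ ⟨n + 1, i, w, j, u ++ v⟩
  /-- If the head faces the tail across the short sector, without crossings there, then the diagram
  is that of a closed braid (a classical knot) from which a small arc has been removed, and the arc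
  may be removed anywhere else (Turaev).  This holds for diagrams which consist of one path; the
  moves do not change the number of components, so a chain of moves starting with such a diagram
  consists of such diagrams. -/
  | cut (n i j : ℕ) (u v : List Letter) :
      Move ⟨n, i, u ++ v, i, []⟩ ⟨n, j, v ++ u, j, []⟩

/-- The equivalence relation generated by the moves between (valid) diagrams. -/
def Isotopic : Braidoid → Braidoid → Prop :=
  Relation.EqvGen fun D D' => Valid D ∧ Valid D' ∧ Move D D'

end Pool.Agent.KB3
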