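import Pool.Agent.KB3.St

/-!
# Closures of braidoids on three strands: module Flp, exchange of the positions `0` and `2`
-/

set_option autoImplicit false

namespace Pool.Agent.KB3

theorem thm_Flp : St_Flp := by
  refine ⟨?_, ?_, ?_, ?_⟩
  · intro A u
    induction u with
    | nil =>
      funext b
      fin_cases b <;> rfl
    | cons l u ih =>
      obtain ⟨a, ε⟩ := l
      show vec A ((!a, ε) :: flp u) = _
      funext b
      simp only [vec]
      rw [ih]
      cases a <;> fin_cases b <;> simp [Lm]
  · intro u
    simp [ex, flp, Function.comp_def]
  · intro u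
    simp [flp, Function.comp_def]
  · obtain ⟨F, hF⟩ := exists_hom (M := B3) (fun l => cl [(!l.1, l.2)])
      (fun a ε => cl_inv (!a) ε) cl_braid.symm
    have h1 : ∀ u, F (cl u) = cl (flp u) := by
      intro u
      rw [hF]
      induction u with
      | nil => rfl
      | cons l u ih =>
        rw [List.map_cons, List.prod_cons, ih, ← cl_append]
        rfl
    exact ⟨F, h1, h1 _, h1 _⟩

end Pool.Agent.KB3
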