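import Pool.Agent.KB3.St

/-!
# Closures of braidoids on three strands: module Hom
-/

set_option autoImplicit false

namespace Pool.Agent.KB3

open Matrix

private theorem hom_zz_word : zz = cl ([(false, true), (true, true), (false, true)] ++
    [(false, true), (true, true), (false, true)]) := by
  have h : cl [(false, true), (true, true), (false, true)] = xx * yy * xx := by
    unfold xx yy
    rw [← cl_append, ← cl_append]
    rfl
  rw [cl_append, h, zz, pow_two]

private theorem hom_zpow {M : Type} [Monoid M] (F : B3 →* M) (c : Mˣ) (h : F zz = c) (l : ℤ) :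
    F (zz ^ l) = ((c ^ l : Mˣ) : M) := by
  have h1 : ∀ n : ℕ, F (zz ^ n) = ((c ^ n : Mˣ) : M) := by
    intro n
    rw [map_pow, h, Units.val_pow_eq_pow_val]
  obtain ⟨n, rfl | rfl⟩ := l.eq_nat_or_neg
  · rw [zpow_natCast, zpow_natCast]
    exact h1 n
  · rw [_root_.zpow_neg, _root_.zpow_neg, zpow_natCast, zpow_natCast]
    have h2 : F (zz ^ n)⁻¹ * F (zz ^ n) = 1 := by
      rw [← map_mul, inv_mul_cancel, map_one]
    rw [h1] at h2
    exact Units.eq_inv_of_mul_eq_one_right h2

theorem thm_Hom : St_Hom := by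
  refine ⟨fun t ht => ?_, ?_, ?_⟩
  · obtain ⟨F, hF⟩ := exists_hom (gen t) (by
      intro a ε
      cases a <;> cases ε <;> ext i j <;> fin_cases i <;> fin_cases j <;>
        simp [gen, Matrix.mul_apply, Fin.sum_univ_two, ht]) (by
      ext i j
      fin_cases i <;> fin_cases j <;>
        simp [gen, Matrix.mul_apply, Fin.sum_univ_two])
    refine ⟨F, hF, fun l => ?_⟩
    have ht3 : t ^ 3 ≠ 0 := pow_ne_zero 3 ht
    let c : (Matrix (Fin 2) (Fin 2) ℂ)ˣ :=
      Units.map (algebraMap ℂ (Matrix (Fin 2) (Fin 2) ℂ)).toMonoidHom (Units.mk0 (t ^ 3) ht3)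
    have hc : F zz = c := by
      rw [hom_zz_word, hF]
      ext i j
      fin_cases i <;> fin_cases j <;>
        simp [gen, Matrix.mul_apply, Fin.sum_univ_two, c, Matrix.algebraMap_matrix_apply] <;> ring
    rw [hom_zpow F c hc l]
    have h2 : ((c ^ l : (Matrix (Fin 2) (Fin 2) ℂ)ˣ) : Matrix (Fin 2) (Fin 2) ℂ) =
        algebraMap ℂ (Matrix (Fin 2) (Fin 2) ℂ) ((t ^ 3) ^ l) := by
      rw [← map_zpow, Units.coe_map, Units.val_zpow_eq_zpow_val]
      rfl
    rw [h2, Algebra.algebraMap_eq_smul_one]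
  · obtain ⟨F, hF⟩ := exists_hom gen1 (by
      intro a ε
      cases a <;> cases ε <;> ext i j <;> fin_cases i <;> fin_cases j <;>
        simp [gen1, Matrix.mul_apply, Fin.sum_univ_two]) (by
      ext i j
      fin_cases i <;> fin_cases j <;>
        simp [gen1, Matrix.mul_apply, Fin.sum_univ_two])
    refine ⟨F, hF, fun l => ?_⟩
    have hc : F zz = ((-1 : (Matrix (Fin 2) (Fin 2) ℤ)ˣ) : Matrix (Fin 2) (Fin 2) ℤ) := by
      rw [hom_zz_word, hF]
      ext i j
      fin_cases i <;> fin_cases j <;>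
        simp [gen1, Matrix.mul_apply, Fin.sum_univ_two]
    rw [hom_zpow F _ hc l]
    rcases Int.even_or_odd l with h | h
    · rw [h.neg_one_zpow, h.neg_one_zpow]
      simp
    · rw [h.neg_one_zpow, h.neg_one_zpow]
      simp
  · obtain ⟨E, hE⟩ := exists_hom (M := Multiplicative ℤ)
      (fun l => Multiplicative.ofAdd (sg l.2)) (by
      intro a ε
      cases ε <;> simp [sg]) (by
      rfl)
    have hE' : ∀ u, (E (cl u)).toAdd = ex u := by
      intro u
      rw [hE]
      induction u with
      | nil => simp [ex]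
      | cons l u ih =>
        rw [List.map_cons, List.prod_cons, toAdd_mul, ih]
        simp [ex]
    refine ⟨E, hE', fun l => ?_⟩
    rw [map_zpow, toAdd_zpow, hom_zz_word, hE']
    simp [ex, sg]
    ring

end Pool.Agent.KB3
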