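import Pool.Agent.KB3.St

/-!
# Closures of braidoids on three strands: module Int
-/

set_option autoImplicit false

namespace Pool.Agent.KB3

open Matrix

theorem thm_Int : St_Int := by
  refine ⟨fun u => ?_, fun u => ?_, fun t ht u => ?_⟩
  · induction u with
    | nil =>
      simp only [Psi, psi, List.map_nil, List.prod_nil]
      ext i j
      simp [Matrix.map_apply, Matrix.one_apply]
    | cons l u ih =>
      have h1 : Psi (-1) (l :: u) = gen (-1) l * Psi (-1) u := by
        simp [Psi]
      have h2 : psi (l :: u) = gen1 l * psi u := by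
        simp [psi]
      have h3 : gen (-1) l = (gen1 l).map (Int.cast : ℤ → ℂ) := by
        obtain ⟨a, ε⟩ := l
        ext i j
        cases a <;> cases ε <;> fin_cases i <;> fin_cases j <;> simp [gen, gen1]
      rw [h1, h2, ih, h3]
      exact (Matrix.map_mul (f := Int.castRingHom ℂ)).symm
  · induction u with
    | nil => simp [psi]
    | cons l u ih =>
      have h2 : psi (l :: u) = gen1 l * psi u := by
        simp [psi]
      rw [h2, Matrix.det_mul, ih, mul_one]
      obtain ⟨a, ε⟩ := l
      cases a <;> cases ε <;> simp [gen1, Matrix.det_fin_two]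
  · induction u with
    | nil => simp [Psi, ex]
    | cons l u ih =>
      have h1 : Psi t (l :: u) = gen t l * Psi t u := by
        simp [Psi]
      have h2 : ex (l :: u) = sg l.2 + ex u := by
        simp [ex]
      have h3 : (gen t l).det = (-t) ^ sg l.2 := by
        obtain ⟨a, ε⟩ := l
        cases a <;> cases ε <;> simp [gen, Matrix.det_fin_two, sg, inv_neg]
      rw [h1, h2, Matrix.det_mul, ih, h3, zpow_add₀ (neg_ne_zero.mpr ht)]

end Pool.Agent.KB3
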