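import Pool.Agent.KB3.St

/-!
# Closures of braidoids on three strands: module Kap
-/

set_option autoImplicit false

namespace Pool.Agent.KB3

private theorem kap_ex_true (w : List Bool) : ex1 (true :: w) = ex1 w + 1 := by
  simp [ex1, sg, add_comm]

private theorem kap_ex_false (w : List Bool) : ex1 (false :: w) = ex1 w - 1 := by
  simp [ex1, sg]
  ring

private theorem kap_part2 (t : ℂ) (ht : t ≠ 0) (w : List Bool) :
    (1 + t) * kap t w = 1 - (-t) ^ ex1 w := by
  have ht' : -t ≠ 0 := neg_ne_zero.2 ht
  induction w with
  | nil => simp [kap, ex1]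
  | cons ε w ih =>
    cases ε with
    | true =>
      rw [kap_ex_true, zpow_add_one₀ ht']
      show (1 + t) * (1 - t * kap t w) = _
      linear_combination -t * ih
    | false =>
      rw [kap_ex_false, zpow_sub_one₀ ht']
      show (1 + t) * ((1 - kap t w) / t) = _
      have e1 : (1 + t) * ((1 - kap t w) / t) = (1 + t - (1 + t) * kap t w) / t := by ring
      rw [e1, ih]
      field_simp
      ring

private theorem kap_part3 (w : List Bool) : kap (-1) w = ex1 w := by
  induction w with
  | nil => simp [kap, ex1]
  | cons ε w ih =>
    cases ε with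
    | true =>
      rw [kap_ex_true]
      show 1 - (-1) * kap (-1) w = _
      rw [ih]
      push_cast
      ring
    | false =>
      rw [kap_ex_false]
      show (1 - kap (-1) w) / (-1) = _
      rw [ih]
      push_cast
      ring

theorem thm_Kap : St_Kap := by
  refine ⟨?_, kap_part2, kap_part3, ?_⟩
  · intro A t hA ht w
    have ht0 : t ≠ 0 := by
      rintro rfl
      rw [zero_mul] at ht
      exact zero_ne_one ht
    induction w with
    | nil => simp [kap, cc]
    | cons ε w ih =>
      cases ε with
      | true =>
        rw [kap_ex_true, zpow_add_one₀ hA]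
        show A ^ (1 : ℤ) * cc A w + A ^ (-(1 : ℤ)) * (A ^ ex1 w + dd A * cc A w) =
          A ^ ex1 w * A * A ^ 2 * t * (1 - t * kap t w)
        rw [ih, dd, zpow_neg, zpow_one]
        field_simp
        linear_combination (t * kap t w - 1) * ht
      | false =>
        rw [kap_ex_false, zpow_sub_one₀ hA]
        show A ^ (-(1 : ℤ)) * cc A w + A ^ (-(-(1 : ℤ))) * (A ^ ex1 w + dd A * cc A w) =
          A ^ ex1 w * A⁻¹ * A ^ 2 * t * ((1 - kap t w) / t)
        rw [ih, dd, neg_neg, zpow_neg, zpow_one]
        field_simp
        linear_combination (-(kap t w)) * ht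
  · intro t ht w hw
    by_cases h : t = -1
    · subst h
      rw [kap_part3, hw, Int.cast_zero]
    · have h1 := kap_part2 t ht w
      rw [hw, zpow_zero, sub_self] at h1
      rcases mul_eq_zero.1 h1 with h2 | h2
      · exact absurd (by linear_combination h2) h
      · exact h2

end Pool.Agent.KB3
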