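import Pool.Agent.KB3.St

/-!
# The kernel of the map from the braid group to `PSL₂(ℤ)`
-/

set_option autoImplicit false

namespace Pool.Agent.KB3

open scoped Matrix

/-- the half twist -/
private noncomputable def kerS : B3 := xx * yy * xx

private theorem ker_Sx : kerS * xx = yy * kerS := by
  unfold kerS
  calc xx * yy * xx * xx = yy * xx * yy * xx := by rw [braid_xy]
    _ = yy * (xx * yy * xx) := by simp only [mul_assoc]

private theorem ker_Sy : kerS * yy = xx * kerS := by
  unfold kerS
  calc xx * yy * xx * yy = xx * (yy * xx * yy) := by simp only [mul_assoc]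
    _ = xx * (xx * yy * xx) := by rw [braid_xy]

private theorem ker_zz : zz = kerS * kerS := by
  unfold zz kerS
  rw [pow_two]

private theorem ker_zx : Commute zz xx := by
  show zz * xx = xx * zz
  rw [ker_zz, mul_assoc, ker_Sx, ← mul_assoc, ker_Sy, mul_assoc]

private theorem ker_zy : Commute zz yy := by
  show zz * yy = yy * zz
  rw [ker_zz, mul_assoc, ker_Sy, ← mul_assoc, ker_Sx, mul_assoc]

private theorem ker_zS : Commute zz kerS := by
  unfold kerS
  exact (ker_zx.mul_right ker_zy).mul_right ker_zx

/-- `S y⁻¹ = x⁻¹ S` -/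
private theorem ker_Sy' : kerS * yy⁻¹ = xx⁻¹ * kerS := by
  rw [mul_inv_eq_iff_eq_mul, mul_assoc, ker_Sy, inv_mul_cancel_left]

/-- `S x⁻¹ = y⁻¹ S` -/
private theorem ker_Sx' : kerS * xx⁻¹ = yy⁻¹ * kerS := by
  rw [mul_inv_eq_iff_eq_mul, mul_assoc, ker_Sx, inv_mul_cancel_left]

private theorem ker_RSL : xx * kerS * yy⁻¹ = kerS := by
  rw [← ker_Sy, mul_inv_cancel_right]

private theorem ker_LSR : yy⁻¹ * kerS * xx = kerS := by
  rw [mul_assoc, ker_Sx, inv_mul_cancel_left]

private theorem ker_xy : xx * yy = kerS * xx⁻¹ := by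
  unfold kerS
  rw [mul_inv_cancel_right]

private theorem ker_RSR : xx * kerS * xx = zz * yy⁻¹ := by
  rw [mul_assoc, ker_Sx, ← mul_assoc, ker_xy, mul_assoc, ← ker_Sy', ← mul_assoc, ← ker_zz]

private theorem ker_LSL : yy⁻¹ * kerS * yy⁻¹ = xx := by
  rw [mul_assoc, ker_Sy', ← mul_assoc, ← mul_inv_rev, ker_xy, mul_inv_rev, inv_inv,
    inv_mul_cancel_right]

/-- the letters -/
private noncomputable def kerL (b : Bool) : B3 := if b then xx else yy⁻¹

private noncomputable def kerP : List Bool → B3
  | [] => 1
  | b :: P => kerP P * kerL b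

private theorem ker_zL (b : Bool) : Commute zz (kerL b) := by
  unfold kerL
  split_ifs
  · exact ker_zx
  · exact ker_zy.inv_right

private theorem ker_zP (P : List Bool) : Commute zz (kerP P) := by
  induction P with
  | nil => exact Commute.one_right _
  | cons b P ih => exact ih.mul_right (ker_zL b)

private noncomputable def kerE (i : Bool) : B3 := if i then kerS else 1

private theorem ker_zE (i : Bool) : Commute zz (kerE i) := by
  unfold kerE
  split_ifs
  · exact ker_zS
  · exact Commute.one_right _

/-- elements in normal form -/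
private def KerT (g : B3) : Prop :=
  ∃ (l : ℤ) (i j : Bool) (P : List Bool), g = zz ^ l * kerE i * kerP P * kerE j

private theorem kerT_one : KerT 1 :=
  ⟨0, false, false, [], by simp [kerE, kerP]⟩

private theorem kerT_z {g : B3} (k : ℤ) (h : KerT g) : KerT (g * zz ^ k) := by
  obtain ⟨l, i, j, P, rfl⟩ := h
  refine ⟨l + k, i, j, P, ?_⟩
  have h1 : Commute (zz ^ k) (kerE i * kerP P * kerE j) :=
    (((ker_zE i).mul_right (ker_zP P)).mul_right (ker_zE j)).zpow_left k
  calc zz ^ l * kerE i * kerP P * kerE j * zz ^ k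
      = zz ^ l * ((kerE i * kerP P * kerE j) * zz ^ k) := by simp only [mul_assoc]
    _ = zz ^ l * (zz ^ k * (kerE i * kerP P * kerE j)) := by rw [h1.eq]
    _ = _ := by rw [zpow_add]; simp only [mul_assoc]

private theorem kerT_S {g : B3} (h : KerT g) : KerT (g * kerS) := by
  obtain ⟨l, i, j, P, rfl⟩ := h
  cases j with
  | false => exact ⟨l, i, true, P, by simp [kerE]⟩
  | true =>
    have h1 : KerT (zz ^ l * kerE i * kerP P * kerE false * zz ^ (1 : ℤ)) :=
      kerT_z 1 ⟨l, i, false, P, rfl⟩
    have e : zz ^ l * kerE i * kerP P * kerE false * zz ^ (1 : ℤ) =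
        zz ^ l * kerE i * kerP P * kerE true * kerS := by
      have e1 : kerE false = 1 := rfl
      have e2 : kerE true = kerS := rfl
      rw [e1, e2, zpow_one, mul_one, mul_assoc (zz ^ l * kerE i * kerP P) kerS kerS, ← ker_zz]
    rw [← e]
    exact h1

/-- `S` times a letter -/
private theorem ker_SL (b : Bool) (P : List Bool) :
    ∃ (k : ℤ) (j : Bool) (P' : List Bool), kerP P ≠ kerP P ∨
      (P ≠ [] → kerP P * kerS * kerL b = zz ^ k * kerP P' * kerE j) := by
  cases P with
  | nil => exact ⟨0, false, [], Or.inr fun h => absurd rfl h⟩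
  | cons c P =>
    have e1 : kerP (c :: P) = kerP P * kerL c := rfl
    cases c with
    | false =>
      cases b with
      | false =>
        refine ⟨0, false, true :: P, Or.inr fun _ => ?_⟩
        have e2 : kerP (true :: P) = kerP P * xx := rfl
        have e3 : kerL false = yy⁻¹ := rfl
        have e4 : kerE false = 1 := rfl
        rw [e1, e2, e3, e4, zpow_zero, one_mul, mul_one, mul_assoc, mul_assoc, ← mul_assoc yy⁻¹,
          ker_LSL]
      | true =>
        refine ⟨0, true, P, Or.inr fun _ => ?_⟩
        have e3 : kerL false = yy⁻¹ := rfl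
        have e4 : kerE true = kerS := rfl
        have e5 : kerL true = xx := rfl
        rw [e1, e3, e4, e5, zpow_zero, one_mul, mul_assoc, mul_assoc, ← mul_assoc yy⁻¹, ker_LSR]
    | true =>
      cases b with
      | false =>
        refine ⟨0, true, P, Or.inr fun _ => ?_⟩
        have e3 : kerL false = yy⁻¹ := rfl
        have e4 : kerE true = kerS := rfl
        have e5 : kerL true = xx := rfl
        rw [e1, e3, e4, e5, zpow_zero, one_mul, mul_assoc, mul_assoc, ← mul_assoc xx, ker_RSL]
      | true =>
        refine ⟨1, false, false :: P, Or.inr fun _ => ?_⟩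
        have e2 : kerP (false :: P) = kerP P * yy⁻¹ := rfl
        have e4 : kerE false = 1 := rfl
        have e5 : kerL true = xx := rfl
        rw [e1, e2, e4, e5, zpow_one, mul_one, mul_assoc, mul_assoc, ← mul_assoc xx, ker_RSR,
          ← mul_assoc, ← mul_assoc, (ker_zP P).eq]

private theorem kerT_L {g : B3} (b : Bool) (h : KerT g) : KerT (g * kerL b) := by
  obtain ⟨l, i, j, P, rfl⟩ := h
  have e1 : kerE false = 1 := rfl
  have e2 : kerE true = kerS := rfl
  cases j with
  | false =>
    refine ⟨l, i, false, b :: P, ?_⟩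
    have e3 : kerP (b :: P) = kerP P * kerL b := rfl
    rw [e3, e1, mul_one, mul_one]
    simp only [mul_assoc]
  | true =>
    by_cases hP : P = []
    · subst hP
      have e3 : kerP [] = 1 := rfl
      have e4 : kerP [b] = 1 * kerL b := rfl
      cases i with
      | false =>
        refine ⟨l, true, false, [b], ?_⟩
        rw [e3, e4, e1, e2, mul_one, mul_one, mul_one, one_mul]
      | true =>
        refine ⟨l + 1, false, false, [b], ?_⟩
        rw [e3, e4, e1, e2, mul_one, mul_one, mul_one, one_mul, mul_assoc (zz ^ l), ← ker_zz,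
          zpow_add, zpow_one]
    · obtain ⟨k, j, P', h | h⟩ := ker_SL b P
      · exact absurd rfl h
      · refine ⟨l + k, i, j, P', ?_⟩
        have h1 := h hP
        have h2 : Commute (zz ^ k) (kerE i) := (ker_zE i).zpow_left k
        calc zz ^ l * kerE i * kerP P * kerE true * kerL b
            = zz ^ l * kerE i * (kerP P * kerS * kerL b) := by rw [e2]; simp only [mul_assoc]
          _ = zz ^ l * (kerE i * zz ^ k) * (kerP P' * kerE j) := by
              rw [h1]; simp only [mul_assoc]
          _ = zz ^ l * (zz ^ k * kerE i) * (kerP P' * kerE j) := by rw [h2.eq]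
          _ = _ := by rw [zpow_add]; simp only [mul_assoc]

private theorem ker_x' : xx⁻¹ = kerS * kerL false * kerS * zz ^ (-1 : ℤ) := by
  have e : kerL false = yy⁻¹ := rfl
  rw [e, ker_Sy', mul_assoc xx⁻¹, ← ker_zz, zpow_neg_one, mul_inv_cancel_right]

private theorem ker_y : yy = kerS * kerL true * kerS * zz ^ (-1 : ℤ) := by
  have e : kerL true = xx := rfl
  rw [e, ker_Sx, mul_assoc yy, ← ker_zz, zpow_neg_one, mul_inv_cancel_right]

private theorem kerT_all (u : W) : KerT (cl u) := by
  induction u using List.reverseRecOn with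
  | nil => exact kerT_one
  | append_singleton u l ih =>
    rw [cl_append]
    obtain ⟨a, ε⟩ := l
    cases a with
    | false =>
      cases ε with
      | false =>
        rw [cl_x', ker_x', ← mul_assoc, ← mul_assoc, ← mul_assoc]
        exact kerT_z _ (kerT_S (kerT_L false (kerT_S ih)))
      | true => exact kerT_L true ih
    | true =>
      cases ε with
      | false =>
        rw [cl_y']
        exact kerT_L false ih
      | true =>
        have e : cl [(true, true)] = yy := rfl
        rw [e, ker_y, ← mul_assoc, ← mul_assoc, ← mul_assoc]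
        exact kerT_z _ (kerT_S (kerT_L true (kerT_S ih)))

/-- the entries of the product of a list of letters -/
private theorem ker_pos (F : B3 →* Matrix (Fin 2) (Fin 2) ℤ) (hR : F xx = !![1, 1; 0, 1])
    (hL : F yy⁻¹ = !![1, 0; 1, 1]) (P : List Bool) :
    1 ≤ F (kerP P) 0 0 ∧ 0 ≤ F (kerP P) 0 1 ∧ 0 ≤ F (kerP P) 1 0 ∧ 1 ≤ F (kerP P) 1 1 ∧
      (P ≠ [] → 1 ≤ F (kerP P) 0 1 + F (kerP P) 1 0) := by
  induction P with
  | nil =>
    have e : kerP [] = 1 := rfl
    rw [e, map_one]
    simp
  | cons b P ih =>
    obtain ⟨h1, h2, h3, h4, -⟩ := ih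
    have e : kerP (b :: P) = kerP P * kerL b := rfl
    rw [e, map_mul]
    cases b with
    | false =>
      have e2 : kerL false = yy⁻¹ := rfl
      rw [e2, hL]
      simp [Matrix.mul_apply, Fin.sum_univ_two]
      omega
    | true =>
      have e2 : kerL true = xx := rfl
      rw [e2, hR]
      simp [Matrix.mul_apply, Fin.sum_univ_two]
      omega

theorem thm_Ker : St_Ker := by
  intro u v huv
  obtain ⟨F, hF⟩ := exists_hom (M := Matrix (Fin 2) (Fin 2) ℤ) gen1
    (by
      intro a ε
      cases a <;> cases ε <;> (ext i j; fin_cases i <;> fin_cases j <;>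
        simp [gen1, Matrix.mul_apply, Fin.sum_univ_two]))
    (by
      ext i j
      fin_cases i <;> fin_cases j <;> simp [gen1, Matrix.mul_apply, Fin.sum_univ_two])
  have hFx : F xx = !![1, 1; 0, 1] := by
    have h := hF [(false, true)]
    rw [List.map_singleton, List.prod_singleton] at h
    exact h
  have hFy : F yy = !![1, 0; -1, 1] := by
    have h := hF [(true, true)]
    rw [List.map_singleton, List.prod_singleton] at h
    exact h
  have hFL : F yy⁻¹ = !![1, 0; 1, 1] := by
    rw [← cl_y']
    have h := hF [(true, false)]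
    simpa [gen1] using h
  have hFS : F kerS = !![0, 1; -1, 0] := by
    unfold kerS
    rw [map_mul, map_mul, hFx, hFy]
    ext i j
    fin_cases i <;> fin_cases j <;> simp [Matrix.mul_apply, Fin.sum_univ_two]
  have hFz : F zz = -1 := by
    rw [ker_zz, map_mul, hFS]
    ext i j
    fin_cases i <;> fin_cases j <;> simp [Matrix.mul_apply, Fin.sum_univ_two]
  have hFzi : F zz⁻¹ = -1 := by
    have h1 : F zz⁻¹ * F zz = 1 := by rw [← map_mul, inv_mul_cancel, map_one]
    rw [hFz] at h1
    have h2 : F zz⁻¹ = -(F zz⁻¹ * -1) := by simp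
    rw [h2, h1]
  have hFzl : ∀ l : ℤ, F (zz ^ l) = 1 ∨ F (zz ^ l) = -1 := by
    intro l
    induction l using Int.induction_on with
    | zero => left; rw [zpow_zero, map_one]
    | succ n ih =>
      rw [zpow_add_one, map_mul, hFz]
      rcases ih with h | h
      · right; rw [h, one_mul]
      · left; rw [h]; simp
    | pred n ih =>
      rw [zpow_sub_one, map_mul, hFzi]
      rcases ih with h | h
      · right; rw [h, one_mul]
      · left; rw [h]; simp
  -- the element
  obtain ⟨g, hg⟩ : ∃ g : B3, g = (cl v)⁻¹ * cl u := ⟨_, rfl⟩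
  have hFg : F g = 1 ∨ F g = -1 := by
    have h1 : F (cl v)⁻¹ * F (cl v) = 1 := by rw [← map_mul, inv_mul_cancel, map_one]
    have e1 : F (cl u) = psi u := hF u
    have e2 : F (cl v) = psi v := hF v
    rw [hg, map_mul, e1]
    rw [e2] at h1
    rcases huv with h | h
    · left; rw [h, h1]
    · right; rw [h, mul_neg, h1]
  have hT : KerT g := by
    obtain ⟨w, hw⟩ := cl_surj g
    rw [← hw]
    exact kerT_all w
  obtain ⟨l, i, j, P, hP⟩ := hT
  have hpos := ker_pos F hFx hFL P
  obtain ⟨hp1, hp2, hp3, hp4, hp5⟩ := hpos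
  have hFg2 : F (kerE i) * F (kerP P) * F (kerE j) = 1 ∨
      F (kerE i) * F (kerP P) * F (kerE j) = -1 := by
    have e1 : F g = F (zz ^ l) * (F (kerE i) * F (kerP P) * F (kerE j)) := by
      rw [hP, map_mul, map_mul, map_mul]
      simp only [mul_assoc]
    rw [e1] at hFg
    rcases hFzl l with h | h <;> rw [h] at hFg
    · rw [one_mul] at hFg
      exact hFg
    · rcases hFg with h2 | h2
      · right
        have h3 : F (kerE i) * F (kerP P) * F (kerE j) =
            -(-1 * (F (kerE i) * F (kerP P) * F (kerE j))) := by simp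
        rw [h3, h2]
      · left
        have h3 : F (kerE i) * F (kerP P) * F (kerE j) =
            -(-1 * (F (kerE i) * F (kerP P) * F (kerE j))) := by simp
        rw [h3, h2, neg_neg]
  have hEt : F (kerE true) = !![0, 1; -1, 0] := hFS
  have hEf : F (kerE false) = 1 := map_one F
  have hent : ∀ (p q : Fin 2), (F (kerE i) * F (kerP P) * F (kerE j)) p q = (1 : Matrix (Fin 2) (Fin 2) ℤ) p q ∨
      (F (kerE i) * F (kerP P) * F (kerE j)) p q = -(1 : Matrix (Fin 2) (Fin 2) ℤ) p q := by
    intro p q
    rcases hFg2 with h | h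
    · left; rw [h]
    · right; rw [h]; rfl
  have hnil : P = [] ∧ i = j := by
    have h00 := hent 0 0
    have h01 := hent 0 1
    have h10 := hent 1 0
    have h11 := hent 1 1
    cases i <;> cases j
    · rw [hEf] at h00 h01 h10 h11
      simp [Matrix.mul_apply, Fin.sum_univ_two] at h00 h01 h10 h11
      refine ⟨?_, rfl⟩
      by_contra hne
      have := hp5 hne
      omega
    · exfalso
      rw [hEf, hEt] at h01
      simp [Matrix.mul_apply, Fin.sum_univ_two] at h01
      omega
    · exfalso
      rw [hEf, hEt] at h10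
      simp [Matrix.mul_apply, Fin.sum_univ_two, Matrix.vecMul, dotProduct] at h10
      omega
    · rw [hEt] at h00 h01 h10 h11
      simp [Matrix.mul_apply, Fin.sum_univ_two, Matrix.vecMul, dotProduct] at h00 h01 h10 h11
      refine ⟨?_, rfl⟩
      by_contra hne
      have := hp5 hne
      omega
  obtain ⟨rfl, rfl⟩ := hnil
  have e3 : kerP [] = 1 := rfl
  have hfin : ∃ k : ℤ, g = zz ^ k := by
    cases i with
    | false => exact ⟨l, by rw [hP, e3]; simp [kerE]⟩
    | true =>
      refine ⟨l + 1, ?_⟩
      have e2 : kerE true = kerS := rfl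
      rw [hP, e3, e2, mul_one, mul_assoc, ← ker_zz, zpow_add, zpow_one]
  obtain ⟨k, hk⟩ := hfin
  refine ⟨k, ?_⟩
  rw [← hk, hg, mul_inv_cancel_left]

end Pool.Agent.KB3
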