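import Pool.Agent.KB3.St

/-!
# Closures of braidoids: equal braids give isotopic diagrams
-/

set_option autoImplicit false

namespace Pool.Agent.KB3

theorem mov_nat_append (u v : W) : nat (u ++ v) = nat u ++ nat v := by
  unfold nat
  rw [List.map_append]

theorem mov_nat_lt (u : W) : ∀ l ∈ nat u, l.1 < 2 := by
  intro l hl
  unfold nat at hl
  obtain ⟨l', -, rfl⟩ := List.mem_map.1 hl
  dsimp only
  split_ifs <;> omega

theorem mov_sh_lt (w : List Bool) : ∀ l ∈ sh w, l.1 < 1 := by
  intro l hl
  unfold sh at hl
  obtain ⟨l', -, rfl⟩ := List.mem_map.1 hl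
  dsimp only
  omega

theorem mov_valid {i j : ℕ} (hi : i ≤ 2) (hj : j ≤ 2) (u : W) (w : List Bool) :
    Valid (dia i u j w) :=
  ⟨hi, hj, fun l hl => mov_nat_lt u l hl, fun l hl => by
    have := mov_sh_lt w l hl
    show l.1 + 1 < 2
    omega⟩

theorem mov_valid1 {i j : ℕ} (hi : i ≤ 1) (hj : j ≤ 1) (w : List Bool) :
    Valid (dia1 i w j) :=
  ⟨hi, hj, fun l hl => mov_sh_lt w l hl, fun l hl => absurd hl (List.not_mem_nil)⟩

theorem mov_step {D D' : Braidoid} (h : Valid D) (h' : Valid D') (hm : Move D D') :
    Isotopic D D' := Relation.EqvGen.rel _ _ ⟨h, h', hm⟩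

theorem mov_refl (D : Braidoid) : Isotopic D D := Relation.EqvGen.refl _

theorem mov_symm {D D' : Braidoid} (h : Isotopic D D') : Isotopic D' D :=
  Relation.EqvGen.symm _ _ h

theorem mov_trans {D D' D'' : Braidoid} (h : Isotopic D D') (h' : Isotopic D' D'') :
    Isotopic D D'' := Relation.EqvGen.trans _ _ _ h h'

private theorem mov_rel {i j : ℕ} (hi : i ≤ 2) (hj : j ≤ 2) (w : List Bool)
    {x y : FreeMonoid (Bool × Bool)} (h : ConGen.Rel Rl x y) :
    ∀ p q : W, Isotopic (dia i (p ++ FreeMonoid.toList x ++ q) j w)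
      (dia i (p ++ FreeMonoid.toList y ++ q) j w) := by
  induction h with
  | of x y hxy =>
    intro p q
    cases hxy with
    | inv a ε =>
      refine mov_step (mov_valid hi hj _ _) (mov_valid hi hj _ _) ?_
      have h1 := Move.cancelLong 2 i j (nat p) (nat q) (sh w) (if a then 1 else 0) ε
      have e1 : dia i (p ++ FreeMonoid.toList
          (FreeMonoid.of (a, ε) * FreeMonoid.of (a, !ε)) ++ q) j w =
          ⟨2, i, nat p ++ ((if a then 1 else 0), ε) :: ((if a then 1 else 0), !ε) :: nat q, j,
            sh w⟩ := by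
        unfold dia
        rw [mov_nat_append, mov_nat_append, List.append_assoc]
        rfl
      have e2 : dia i (p ++ FreeMonoid.toList 1 ++ q) j w =
          ⟨2, i, nat p ++ nat q, j, sh w⟩ := by
        unfold dia
        rw [mov_nat_append, mov_nat_append, List.append_assoc]
        rfl
      rw [e1, e2]
      exact h1
    | braid =>
      refine mov_step (mov_valid hi hj _ _) (mov_valid hi hj _ _) ?_
      have h1 := Move.braid 2 i j (nat p) (nat q) (sh w) 0
      have e1 : dia i (p ++ FreeMonoid.toList
          (FreeMonoid.of (false, true) * FreeMonoid.of (true, true) *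
            FreeMonoid.of (false, true)) ++ q) j w =
          ⟨2, i, nat p ++ (0, true) :: (0 + 1, true) :: (0, true) :: nat q, j, sh w⟩ := by
        unfold dia
        rw [mov_nat_append, mov_nat_append, List.append_assoc]
        rfl
      have e2 : dia i (p ++ FreeMonoid.toList
          (FreeMonoid.of (true, true) * FreeMonoid.of (false, true) *
            FreeMonoid.of (true, true)) ++ q) j w =
          ⟨2, i, nat p ++ (0 + 1, true) :: (0, true) :: (0 + 1, true) :: nat q, j, sh w⟩ := by
        unfold dia
        rw [mov_nat_append, mov_nat_append, List.append_assoc]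
        rfl
      rw [e1, e2]
      exact h1
  | refl x => intro p q; exact mov_refl _
  | symm _ ih => intro p q; exact mov_symm (ih p q)
  | trans _ _ ih1 ih2 => intro p q; exact mov_trans (ih1 p q) (ih2 p q)
  | mul _ _ ih1 ih2 =>
    rename_i x1 y1 x2 y2 _ _
    intro p q
    have h1 := ih1 p (FreeMonoid.toList x2 ++ q)
    have h2 := ih2 (p ++ FreeMonoid.toList y1) q
    simp only [FreeMonoid.toList_mul, List.append_assoc] at h1 h2 ⊢
    exact mov_trans h1 h2

theorem thm_Mov : St_Mov := by
  intro i j w u u' hi hj h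
  have h1 : ConGen.Rel Rl (FreeMonoid.ofList u) (FreeMonoid.ofList u') := Quotient.exact h
  have h2 := mov_rel hi hj w h1 [] []
  simpa using h2

end Pool.Agent.KB3
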