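import Pool.Agent.KB3.St

set_option autoImplicit false

namespace Pool.Agent.KB3

private theorem nor_aux (a : ℂ) (ha : a ≠ 0) (w : ℤ) (x : ℂ)
    (h : ((((-1 : ℤˣ) ^ w : ℤˣ) : ℤ) : ℂ) * a ^ (-3 * w) * x = 1) : x = (-a ^ 3) ^ w := by
  have h1 : ((((-1 : ℤˣ) ^ w : ℤˣ) : ℤ) : ℂ) * (((-1 : ℤˣ) ^ w : ℤˣ) : ℤ) = 1 := by
    rw [← Int.cast_mul, ← Units.val_mul, Int.units_mul_self]
    simp
  have h2 : ((((-1 : ℤˣ) ^ w : ℤˣ) : ℤ) : ℂ) = (-1 : ℂ) ^ w := by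
    rcases Int.even_or_odd w with hw | hw
    · rw [hw.neg_one_zpow, hw.neg_one_zpow]
      simp
    · rw [hw.neg_one_zpow, hw.neg_one_zpow]
      simp
  have h3 : a ^ (3 * w) * a ^ (-3 * w) = 1 := by
    rw [← zpow_add₀ ha]
    have : 3 * w + -3 * w = 0 := by ring
    rw [this, zpow_zero]
  have h4 : (-a ^ 3) ^ w = (-1 : ℂ) ^ w * a ^ (3 * w) := by
    rw [neg_eq_neg_one_mul, mul_zpow, zpow_mul]
    norm_cast
  rw [h4, ← h2]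
  calc x = ((((-1 : ℤˣ) ^ w : ℤˣ) : ℤ) : ℂ) * (((-1 : ℤˣ) ^ w : ℤˣ) : ℤ) *
        (a ^ (3 * w) * a ^ (-3 * w)) * x := by rw [h1, h3]; ring
    _ = ((((-1 : ℤˣ) ^ w : ℤˣ) : ℤ) : ℂ) * a ^ (3 * w) *
        (((((-1 : ℤˣ) ^ w : ℤˣ) : ℤ) : ℂ) * a ^ (-3 * w) * x) := by ring
    _ = ((((-1 : ℤˣ) ^ w : ℤˣ) : ℤ) : ℂ) * a ^ (3 * w) := by rw [h, mul_one]

theorem thm_Nor : St_Nor := by
  intro D hD A
  have h := congrArg (evl A) hD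
  unfold normalized evl at h
  rw [map_mul, map_mul, map_one, LaurentPolynomial.eval₂_C, LaurentPolynomial.eval₂_T] at h
  refine nor_aux (A : ℂ) A.ne_zero (writhe D) _ ?_
  rw [← h]
  congr 2
  rw [Units.val_zpow_eq_zpow_val]

end Pool.Agent.KB3
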