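import Pool.Agent.KB3.St

/-!
# Closures of braidoids on three strands: module Pth, the final diagrams are paths
-/

set_option autoImplicit false

namespace Pool.Agent.KB3

private theorem pth_card (D : Braidoid) (b : Pt D)
    (h : ∀ x, Quot.mk (Joined D (fun _ => .cross, fun _ => .cross)) x = Quot.mk _ b) :
    IsPath D := by
  have h1 : ∀ z : Quot (Joined D (fun _ => .cross, fun _ => .cross)), z = Quot.mk _ b := by
    intro z
    induction z using Quot.inductionOn with
    | h x => exact h x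
  have : Unique (Quot (Joined D (fun _ => .cross, fun _ => .cross))) := ⟨⟨Quot.mk _ b⟩, h1⟩
  exact Nat.card_unique

theorem thm_Pth : St_Pth := by
  refine ⟨?_, ?_, ?_, ?_, ?_⟩
  · refine pth_card _ (.inl (0, 0)) ?_
    rintro (⟨i, p⟩ | ⟨i, p⟩)
    · fin_cases i
      fin_cases p
      rfl
    · exact p.elim0
  · have h1 := Quot.sound (Joined.head (D := ⟨1, 0, [], 1, []⟩) (c := (fun _ => .cross, fun _ => .cross))
      (0 : Fin 1) (0 : Fin 2) rfl)
    have h2 := Quot.sound (Joined.tail (D := ⟨1, 0, [], 1, []⟩) (c := (fun _ => .cross, fun _ => .cross))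
      (0 : Fin 1) (1 : Fin 2) rfl)
    refine pth_card _ (.inr (0, 0)) ?_
    rintro (⟨i, p⟩ | ⟨i, p⟩)
    · fin_cases i
      fin_cases p
      · exact h1
      · exact h2.symm
    · fin_cases i
      fin_cases p
      rfl
  · have h1 := Quot.sound (Joined.head (D := ⟨1, 1, [], 0, []⟩) (c := (fun _ => .cross, fun _ => .cross))
      (0 : Fin 1) (1 : Fin 2) rfl)
    have h2 := Quot.sound (Joined.tail (D := ⟨1, 1, [], 0, []⟩) (c := (fun _ => .cross, fun _ => .cross))
      (0 : Fin 1) (0 : Fin 2) rfl)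
    refine pth_card _ (.inr (0, 0)) ?_
    rintro (⟨i, p⟩ | ⟨i, p⟩)
    · fin_cases i
      fin_cases p
      · exact h2.symm
      · exact h1
    · fin_cases i
      fin_cases p
      rfl
  · have h1 := Quot.sound (Joined.head (D := ⟨2, 0, [], 2, []⟩) (c := (fun _ => .cross, fun _ => .cross))
      (0 : Fin 2) (0 : Fin 3) rfl)
    have h2 := Quot.sound (Joined.head (D := ⟨2, 0, [], 2, []⟩) (c := (fun _ => .cross, fun _ => .cross))
      (1 : Fin 2) (1 : Fin 3) rfl)
    have h3 := Quot.sound (Joined.tail (D := ⟨2, 0, [], 2, []⟩) (c := (fun _ => .cross, fun _ => .cross))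
      (0 : Fin 2) (1 : Fin 3) rfl)
    have h4 := Quot.sound (Joined.tail (D := ⟨2, 0, [], 2, []⟩) (c := (fun _ => .cross, fun _ => .cross))
      (1 : Fin 2) (2 : Fin 3) rfl)
    refine pth_card _ (.inr (0, 0)) ?_
    rintro (⟨i, p⟩ | ⟨i, p⟩)
    · fin_cases i
      fin_cases p
      · exact h1
      · exact h3.symm
      · exact h4.symm.trans (h2.symm.trans h3.symm)
    · fin_cases i
      fin_cases p
      · rfl
      · exact h2.symm.trans h3.symm
  · have h1 := Quot.sound (Joined.head (D := ⟨2, 2, [], 0, []⟩) (c := (fun _ => .cross, fun _ => .cross))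
      (0 : Fin 2) (1 : Fin 3) rfl)
    have h2 := Quot.sound (Joined.head (D := ⟨2, 2, [], 0, []⟩) (c := (fun _ => .cross, fun _ => .cross))
      (1 : Fin 2) (2 : Fin 3) rfl)
    have h3 := Quot.sound (Joined.tail (D := ⟨2, 2, [], 0, []⟩) (c := (fun _ => .cross, fun _ => .cross))
      (0 : Fin 2) (0 : Fin 3) rfl)
    have h4 := Quot.sound (Joined.tail (D := ⟨2, 2, [], 0, []⟩) (c := (fun _ => .cross, fun _ => .cross))
      (1 : Fin 2) (1 : Fin 3) rfl)
    refine pth_card _ (.inr (0, 0)) ?_
    rintro (⟨i, p⟩ | ⟨i, p⟩)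
    · fin_cases i
      fin_cases p
      · exact h3.symm
      · exact h1
      · exact h2.trans (h4.trans h1)
    · fin_cases i
      fin_cases p
      · rfl
      · exact h4.trans h1

end Pool.Agent.KB3
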