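import Pool.Agent.KB3.Sho

/-!
# Closures of braidoids: the final reductions by moves
-/

set_option autoImplicit false

namespace Pool.Agent.KB3

theorem red_ex_pow (c : ℤ) : ∃ w : List Bool, ex1 w = c := by
  refine ⟨sho_can c, ?_⟩
  unfold sho_can ex1
  rw [List.map_replicate, List.sum_replicate]
  by_cases h : 0 < c
  · simp only [h, decide_true, sg, if_true, nsmul_eq_mul, mul_one]
    omega
  · simp only [h, decide_false, sg]
    simp only [Bool.false_eq_true, if_false, nsmul_eq_mul, mul_neg, mul_one]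
    omega

theorem red_cl_up (a : Bool) (w : List Bool) :
    cl (up a w) = (if a then yy else xx) ^ ex1 w := by
  induction w with
  | nil => simp [up, cl_nil, ex1]
  | cons ε w ih =>
    have h : cl (up a (ε :: w)) = cl [(a, ε)] * cl (up a w) := cl_append [(a, ε)] (up a w)
    rw [h, ih, sho_ex1_cons, zpow_add]
    congr 1
    cases a <;> cases ε
    · simp [sg, cl_x']
    · simp [sg, xx]
    · simp [sg, cl_y']
    · simp [sg, yy]

theorem red_cl_x (w : List Bool) : cl (up false w) = xx ^ ex1 w := by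
  have := red_cl_up false w
  simpa using this

theorem red_cl_y (w : List Bool) : cl (up true w) = yy ^ ex1 w := by
  have := red_cl_up true w
  simpa using this

theorem red_nat_up_false (w : List Bool) : nat (up false w) = sh w := by
  unfold nat up sh
  rw [List.map_map]
  rfl

theorem red_nat_up_true (w : List Bool) : nat (up true w) = shift (sh w) := by
  unfold nat up sh shift
  rw [List.map_map, List.map_map]
  rfl

theorem red_sg {η : ℤ} (h : η = 1 ∨ η = -1) : ∃ ε : Bool, sg ε = η := by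
  rcases h with rfl | rfl
  · exact ⟨true, rfl⟩
  · exact ⟨false, rfl⟩

theorem red_one (a ε : Bool) : cl [(a, ε)] = (if a then yy else xx) ^ sg ε := by
  have h := red_cl_up a [ε]
  have e : ex1 [ε] = sg ε := by simp [ex1]
  rw [e] at h
  exact h

theorem red_ex_one (ε : Bool) : ex1 [ε] = sg ε := by simp [ex1]

/-- ends at `0` and `2` -/
private theorem red_A (h1 : St_Mov) (h2 : St_Sho) (u : W) (m : ℤ)
    (hu : cl u = yy ^ (-m) * xx ^ m) : Isotopic (dia 0 u 2 []) ⟨2, 0, [], 2, []⟩ := by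
  obtain ⟨w, hw⟩ := red_ex_pow m
  obtain ⟨w', hw'⟩ := red_ex_pow (-m)
  have s1 : Isotopic (dia 0 u 2 []) (dia 0 (up true w' ++ up false w) 2 []) := by
    refine h1 0 2 [] _ _ (by norm_num) le_rfl ?_
    rw [cl_append, red_cl_x, red_cl_y, hw, hw', hu]
  have s2 := (h2.2.2.1 2 (up false w) w' le_rfl).1
  have s3 := (h2.2.2.2 0 (up false w) w' (by norm_num)).2
  have s4 := (h2.2.2.2 0 [] (w ++ w') (by norm_num)).2
  rw [List.nil_append, sho_up_append] at s4
  have s5 := h2.1 0 2 [] (w ++ w') [] (by norm_num) le_rfl (by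
    rw [sho_ex1_append, hw, hw']
    simp [ex1])
  exact mov_trans s1 (mov_trans (mov_symm s2) (mov_trans s3 (mov_trans (mov_symm s4) s5)))

/-- ends at `2` and `0` -/
private theorem red_A' (h1 : St_Mov) (h2 : St_Sho) (u : W) (m : ℤ)
    (hu : cl u = xx ^ (-m) * yy ^ m) : Isotopic (dia 2 u 0 []) ⟨2, 2, [], 0, []⟩ := by
  obtain ⟨w, hw⟩ := red_ex_pow m
  obtain ⟨w', hw'⟩ := red_ex_pow (-m)
  have s1 : Isotopic (dia 2 u 0 []) (dia 2 (up false w' ++ up true w) 0 []) := by
    refine h1 2 0 [] _ _ le_rfl (by norm_num) ?_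
    rw [cl_append, red_cl_x, red_cl_y, hw, hw', hu]
  have s2 := (h2.2.2.1 0 (up true w) w' (by norm_num)).2
  have s3 := (h2.2.2.2 2 (up true w) w' le_rfl).1
  have s4 := (h2.2.2.2 2 [] (w ++ w') le_rfl).1
  rw [List.nil_append, sho_up_append] at s4
  have s5 := h2.1 2 0 [] (w ++ w') [] le_rfl (by norm_num) (by
    rw [sho_ex1_append, hw, hw']
    simp [ex1])
  exact mov_trans s1 (mov_trans (mov_symm s2) (mov_trans s3 (mov_trans (mov_symm s4) s5)))

private theorem red_B (h1 : St_Mov) (h2 : St_Sho) {i j : ℕ} (hi : i ≤ 1) (hj : j ≤ 1) (u : W)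
    (c η : ℤ) (hη : η = 1 ∨ η = -1) (hu : cl u = xx ^ c * yy ^ η * xx ^ (-c)) :
    Isotopic (dia i u j []) ⟨1, i, [], j, []⟩ := by
  obtain ⟨w, hw⟩ := red_ex_pow c
  obtain ⟨w', hw'⟩ := red_ex_pow (-c)
  obtain ⟨ε, hε⟩ := red_sg hη
  have s1 : Isotopic (dia i u j []) (dia i (up false w ++ ([(true, ε)] ++ up false w')) j []) := by
    refine h1 i j [] _ _ (by omega) (by omega) ?_
    rw [cl_append, cl_append, red_cl_x, red_cl_x, red_one, hw, hw', hε, hu]
    simp [mul_assoc]
  have s2 : Isotopic (dia i (up false w ++ ([(true, ε)] ++ up false w')) j [])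
      (dia1 i (w ++ w') j) := by
    refine mov_step (mov_valid (by omega) (by omega) _ _) (mov_valid1 hi hj _) ?_
    have h3 := Move.outerLong 1 i j (sh w) (sh w') [] ε
    have e1 : dia i (up false w ++ ([(true, ε)] ++ up false w')) j [] =
        ⟨1 + 1, i, sh w ++ (1, ε) :: sh w', j, []⟩ := by
      unfold dia
      rw [mov_nat_append, mov_nat_append, red_nat_up_false, red_nat_up_false]
      rfl
    have e2 : dia1 i (w ++ w') j = ⟨1, i, sh w ++ sh w', j, []⟩ := by
      unfold dia1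
      rw [sho_sh_append]
    rw [e1, e2]
    exact h3
  have s3 := h2.2.1 i j (w ++ w') [] hi hj (by
    rw [sho_ex1_append, hw, hw']
    simp [ex1])
  exact mov_trans s1 (mov_trans s2 s3)

private theorem red_B' (h1 : St_Mov) (h2 : St_Sho) {i j : ℕ} (hi : i ≤ 1) (hj : j ≤ 1) (u : W)
    (c η : ℤ) (hη : η = 1 ∨ η = -1) (hu : cl u = yy ^ c * xx ^ η * yy ^ (-c)) :
    Isotopic (dia (i + 1) u (j + 1) []) ⟨1, i, [], j, []⟩ := by
  obtain ⟨w, hw⟩ := red_ex_pow c
  obtain ⟨w', hw'⟩ := red_ex_pow (-c)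
  obtain ⟨ε, hε⟩ := red_sg hη
  have s1 : Isotopic (dia (i + 1) u (j + 1) [])
      (dia (i + 1) (up true w ++ ([(false, ε)] ++ up true w')) (j + 1) []) := by
    refine h1 (i + 1) (j + 1) [] _ _ (by omega) (by omega) ?_
    rw [cl_append, cl_append, red_cl_y, red_cl_y, red_one, hw, hw', hε, hu]
    simp [mul_assoc]
  have s2 : Isotopic (dia (i + 1) (up true w ++ ([(false, ε)] ++ up true w')) (j + 1) [])
      (dia1 i (w ++ w') j) := by
    refine mov_step (mov_valid (by omega) (by omega) _ _) (mov_valid1 hi hj _) ?_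
    have h3 := Move.innerLong 1 i j (sh w) (sh w') [] ε
    have e1 : dia (i + 1) (up true w ++ ([(false, ε)] ++ up true w')) (j + 1) [] =
        ⟨1 + 1, i + 1, shift (sh w) ++ (0, ε) :: shift (sh w'), j + 1, shift []⟩ := by
      unfold dia
      rw [mov_nat_append, mov_nat_append, red_nat_up_true, red_nat_up_true]
      rfl
    have e2 : dia1 i (w ++ w') j = ⟨1, i, sh w ++ sh w', j, []⟩ := by
      unfold dia1
      rw [sho_sh_append]
    rw [e1, e2]
    exact h3
  have s3 := h2.2.1 i j (w ++ w') [] hi hj (by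
    rw [sho_ex1_append, hw, hw']
    simp [ex1])
  exact mov_trans s1 (mov_trans s2 s3)

/-- one letter on two strands -/
private theorem red_1 {i : ℕ} (hi : i ≤ 1) (ε : Bool) :
    Isotopic (dia1 i [ε] i) ⟨0, 0, [], 0, []⟩ := by
  have hv : Valid ⟨0, 0, [], 0, []⟩ :=
    ⟨le_rfl, le_rfl, fun l hl => absurd hl List.not_mem_nil,
      fun l hl => absurd hl List.not_mem_nil⟩
  refine mov_step (mov_valid1 hi hi _) hv ?_
  rcases Nat.le_one_iff_eq_zero_or_eq_one.1 hi with rfl | rfl
  · exact Move.outerLong 0 0 0 [] [] [] ε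
  · exact Move.innerLong 0 0 0 [] [] [] ε

private theorem red_C (h1 : St_Mov) (h2 : St_Sho) (u : W) (w : List Bool) (η : ℤ)
    (hw : ex1 w = 1 ∨ ex1 w = -1) (hη : η = 1 ∨ η = -1) (hu : cl u = xx ^ η ∨ cl u = yy ^ η) :
    Isotopic (dia 1 u 1 w) ⟨0, 0, [], 0, []⟩ := by
  obtain ⟨ε, hε⟩ := red_sg hη
  obtain ⟨ε', hε'⟩ := red_sg hw
  have s1 := h2.1 1 1 u w [ε'] (by norm_num) (by norm_num) (by rw [red_ex_one, hε'])
  rcases hu with hu | hu
  · have s2 : Isotopic (dia 1 u 1 [ε']) (dia 1 [(false, ε)] 1 [ε']) := by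
      refine h1 1 1 [ε'] _ _ (by norm_num) (by norm_num) ?_
      rw [red_one, hε, hu]
      simp
    have s3 : Isotopic (dia 1 [(false, ε)] 1 [ε']) (dia1 1 [ε] 1) := by
      refine mov_step (mov_valid (by norm_num) (by norm_num) _ _)
        (mov_valid1 (by norm_num) (by norm_num) _) ?_
      exact Move.outerShort 0 1 1 [] [] [(0, ε)] ε'
    exact mov_trans s1 (mov_trans s2 (mov_trans s3 (red_1 le_rfl ε)))
  · have s2 : Isotopic (dia 1 u 1 [ε']) (dia 1 [(true, ε)] 1 [ε']) := by
      refine h1 1 1 [ε'] _ _ (by norm_num) (by norm_num) ?_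
      rw [red_one, hε, hu]
      simp
    have s3 : Isotopic (dia 1 [(true, ε)] 1 [ε']) (dia1 0 [ε] 0) := by
      refine mov_step (mov_valid (by norm_num) (by norm_num) _ _)
        (mov_valid1 (by norm_num) (by norm_num) _) ?_
      exact Move.innerShort 0 0 0 [] [] [(0, ε)] ε'
    exact mov_trans s1 (mov_trans s2 (mov_trans s3 (red_1 (by norm_num) ε)))

/-- two letters at different places -/
private theorem red_two (a ε ε' : Bool) :
    Isotopic (dia 0 [(a, ε), (!a, ε')] 0 []) ⟨0, 0, [], 0, []⟩ := by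
  cases a
  · have s1 : Isotopic (dia 0 [(false, ε), (true, ε')] 0 []) (dia1 0 [ε] 0) := by
      refine mov_step (mov_valid (by norm_num) (by norm_num) _ _)
        (mov_valid1 (by norm_num) (by norm_num) _) ?_
      exact Move.outerLong 1 0 0 [(0, ε)] [] [] ε'
    exact mov_trans s1 (red_1 (by norm_num) ε)
  · have s1 : Isotopic (dia 0 [(true, ε), (false, ε')] 0 []) (dia1 0 [ε'] 0) := by
      refine mov_step (mov_valid (by norm_num) (by norm_num) _ _)
        (mov_valid1 (by norm_num) (by norm_num) _) ?_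
      exact Move.outerLong 1 0 0 [] [(0, ε')] [] ε
    exact mov_trans s1 (red_1 (by norm_num) ε')

private theorem red_D (h1 : St_Mov) (i : ℕ) (u : W) (g h : B3) (hi : i ≤ 2)
    (hh : h = xx * yy ∨ h = yy⁻¹ * xx⁻¹ ∨ h = yy⁻¹ * xx) (hu : cl u = g * h * g⁻¹) :
    Isotopic (dia i u i []) ⟨0, 0, [], 0, []⟩ := by
  obtain ⟨p, hp⟩ := cl_surj g
  obtain ⟨p', hp'⟩ := cl_surj g⁻¹
  have hq : ∃ a ε ε', cl [(a, ε), (!a, ε')] = h := by
    rcases hh with rfl | rfl | rfl
    · refine ⟨false, true, true, ?_⟩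
      exact cl_append [(false, true)] [(true, true)]
    · refine ⟨true, false, false, ?_⟩
      have h3 : cl [(true, false), (!true, false)] = cl [(true, false)] * cl [(false, false)] :=
        cl_append [(true, false)] [(false, false)]
      rw [h3, cl_y', cl_x']
    · refine ⟨true, false, true, ?_⟩
      have h3 : cl [(true, false), (!true, true)] = cl [(true, false)] * cl [(false, true)] :=
        cl_append [(true, false)] [(false, true)]
      rw [h3, cl_y']
      rfl
  obtain ⟨a, ε, ε', hq⟩ := hq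
  set q : W := [(a, ε), (!a, ε')] with hqdef
  have s1 : Isotopic (dia i u i []) (dia i (p ++ (q ++ p')) i []) := by
    refine h1 i i [] _ _ hi hi ?_
    rw [cl_append, cl_append, hp, hp', hq, hu, mul_assoc]
  have s2 : Isotopic (dia i (p ++ (q ++ p')) i []) (dia 0 (q ++ p' ++ p) 0 []) := by
    refine mov_step (mov_valid hi hi _ _) (mov_valid (by norm_num) (by norm_num) _ _) ?_
    have h3 := Move.cut 2 i 0 (nat p) (nat (q ++ p'))
    have e1 : dia i (p ++ (q ++ p')) i [] = ⟨2, i, nat p ++ nat (q ++ p'), i, []⟩ := by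
      unfold dia
      rw [mov_nat_append]
      rfl
    have e2 : dia 0 (q ++ p' ++ p) 0 [] = ⟨2, 0, nat (q ++ p') ++ nat p, 0, []⟩ := by
      unfold dia
      rw [mov_nat_append]
      rfl
    rw [e1, e2]
    exact h3
  have s3 : Isotopic (dia 0 (q ++ p' ++ p) 0 []) (dia 0 q 0 []) := by
    refine h1 0 0 [] _ _ (by norm_num) (by norm_num) ?_
    rw [cl_append, cl_append, hp, hp', mul_assoc, inv_mul_cancel, mul_one]
  exact mov_trans s1 (mov_trans s2 (mov_trans s3 (red_two a ε ε')))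

theorem thm_Red (h1 : St_Mov) (h2 : St_Sho) : St_Red := by
  refine ⟨red_A h1 h2, red_A' h1 h2, fun u c η hη hu => ⟨?_, ?_⟩,
    fun u c η hη hu => ⟨?_, ?_⟩, red_C h1 h2, red_D h1, fun i w hi hw => ?_,
    fun i j w hi hj hw => ?_⟩
  · exact red_B h1 h2 (by norm_num) le_rfl u c η hη hu
  · exact red_B h1 h2 le_rfl (by norm_num) u c η hη hu
  · exact red_B' h1 h2 (i := 0) (j := 1) (by norm_num) le_rfl u c η hη hu
  · exact red_B' h1 h2 (i := 1) (j := 0) le_rfl (by norm_num) u c η hη hu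
  · obtain ⟨ε, hε⟩ := red_sg hw
    exact mov_trans (h2.2.1 i i w [ε] hi hi (by rw [red_ex_one, hε])) (red_1 hi ε)
  · exact h2.2.1 i j w [] hi hj (by rw [hw]; simp [ex1])

end Pool.Agent.KB3
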