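import Pool.Agent.KB3.St

/-!
# KB3, module SL: conjugacy classes of `SL₂(ℤ)` with trace `1` and `3`
-/

set_option autoImplicit false

namespace Pool.Agent.KB3

open Matrix

private theorem sl_append (u v : W) : psi (u ++ v) = psi u * psi v := by
  unfold psi
  rw [List.map_append, List.prod_append]

private theorem sl_nil : psi [] = 1 := rfl

private theorem sl_T (k : ℤ) : ∃ w : W, psi w = !![1, k; 0, 1] := by
  induction k using Int.induction_on with
  | zero => exact ⟨[], by rw [sl_nil, Matrix.one_fin_two]⟩
  | succ k ih =>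
    obtain ⟨w, hw⟩ := ih
    refine ⟨w ++ [(false, true)], ?_⟩
    rw [sl_append, hw]
    simp [psi, gen1, add_comm]
  | pred k ih =>
    obtain ⟨w, hw⟩ := ih
    refine ⟨w ++ [(false, false)], ?_⟩
    rw [sl_append, hw]
    simp [psi, gen1]
    ring

private theorem sl_S : psi [(false, true), (true, true), (false, true)] = !![0, 1; -1, 0] := by
  simp [psi, gen1]

private theorem sl_trans {M N N' : Matrix (Fin 2) (Fin 2) ℤ} (w : W) (h : M * psi w = psi w * N)
    (h' : ∃ u : W, N * psi u = psi u * N') : ∃ u : W, M * psi u = psi u * N' := by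
  obtain ⟨u, hu⟩ := h'
  refine ⟨w ++ u, ?_⟩
  rw [sl_append, ← mul_assoc, h, mul_assoc, hu, mul_assoc]

/-- conjugation by a translation -/
private theorem sl_conjT (a b c d k : ℤ) (N' : Matrix (Fin 2) (Fin 2) ℤ)
    (h : ∃ u : W, !![a - k * c, a * k + b - k * (c * k + d); c, c * k + d] * psi u =
      psi u * N') : ∃ u : W, !![a, b; c, d] * psi u = psi u * N' := by
  obtain ⟨w, hw⟩ := sl_T k
  refine sl_trans w ?_ h
  rw [hw, Matrix.mul_fin_two, Matrix.mul_fin_two]
  congr 1
  simp only [Matrix.vecCons]
  ring_nf

private theorem sl_conjS (a b c d : ℤ) (N' : Matrix (Fin 2) (Fin 2) ℤ)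
    (h : ∃ u : W, !![d, -c; -b, a] * psi u = psi u * N') :
    ∃ u : W, !![a, b; c, d] * psi u = psi u * N' := by
  refine sl_trans [(false, true), (true, true), (false, true)] ?_ h
  rw [sl_S, Matrix.mul_fin_two, Matrix.mul_fin_two]
  congr 1
  simp

private theorem sl_near (s c : ℤ) (hc : c ≠ 0) : ∃ k : ℤ, |s - 2 * (k * c)| ≤ |c| := by
  have hc0 : 0 < |c| := abs_pos.mpr hc
  have h1 := Int.emod_nonneg (s + |c|) (show 2 * |c| ≠ 0 by omega)
  have h2 := Int.emod_lt_of_pos (s + |c|) (show 0 < 2 * |c| by omega)
  have h3 := Int.emod_add_mul_ediv (s + |c|) (2 * |c|)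
  set r := (s + |c|) % (2 * |c|)
  set t := (s + |c|) / (2 * |c|)
  rcases abs_choice c with h | h
  · have h4 : |c| * t = c * t := by rw [h]
    refine ⟨t, ?_⟩
    rw [abs_le]
    constructor <;> nlinarith
  · have h4 : |c| * t = -c * t := by rw [h]
    refine ⟨-t, ?_⟩
    rw [abs_le]
    constructor <;> nlinarith

theorem thm_SL : St_SL := by
  have key3 : ∀ n : ℕ, ∀ a b c d : ℤ, c.natAbs ≤ n → a * d - b * c = 1 → a + d = 3 →
      ∃ u : W, !![a, b; c, d] * psi u = psi u * psi [(true, false), (false, true)] := by
    have hN : psi [(true, false), (false, true)] = !![1, 1; 1, 2] := by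
      simp [psi, gen1]
    have hbase : ∃ u : W, (!![1, 1; 1, 2] : Matrix (Fin 2) (Fin 2) ℤ) * psi u =
        psi u * psi [(true, false), (false, true)] := ⟨[], by rw [hN, sl_nil, mul_one, one_mul]⟩
    have hbase2 : ∃ u : W, (!![2, -1; -1, 1] : Matrix (Fin 2) (Fin 2) ℤ) * psi u =
        psi u * psi [(true, false), (false, true)] := by
      apply sl_conjS
      simpa using hbase
    intro n
    induction n with
    | zero =>
      intro a b c d hn hdet htr
      exfalso
      have hc : c = 0 := by omega
      subst hc
      have h1 : a * d = 1 := by linarith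
      rcases Int.eq_one_or_neg_one_of_mul_eq_one h1 with h | h <;> subst h <;> omega
    | succ n ih =>
      intro a b c d hn hdet htr
      by_cases hc : c = 0
      · exact ih a b c d (by rw [hc]; simp) hdet htr
      obtain ⟨k, hk⟩ := sl_near (2 * a - 3) c hc
      apply sl_conjT a b c d k
      have hdet' : (a - k * c) * (c * k + d) - (a * k + b - k * (c * k + d)) * c = 1 := by
        linear_combination hdet
      have htr' : (a - k * c) + (c * k + d) = 3 := by linear_combination htr
      have hk' : |2 * (a - k * c) - 3| ≤ |c| := by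
        have : 2 * (a - k * c) - 3 = 2 * a - 3 - 2 * (k * c) := by ring
        rwa [this]
      generalize a - k * c = a' at hdet' htr' hk' ⊢
      generalize a * k + b - k * (c * k + d) = b' at hdet' ⊢
      generalize c * k + d = d' at hdet' htr' ⊢
      clear hk hdet htr
      obtain rfl : d' = 3 - a' := by linarith
      by_cases hbc : b'.natAbs < c.natAbs
      · apply sl_conjS
        apply ih _ _ _ _ (by omega)
        · linear_combination hdet'
        · ring
      have h4 : 4 * (b' * c) = 5 - (2 * a' - 3) ^ 2 := by linear_combination (-4) * hdet'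
      have hs : (2 * a' - 3) ^ 2 ≤ c ^ 2 := by
        rw [← sq_abs, ← sq_abs c]
        exact pow_le_pow_left₀ (abs_nonneg _) hk' 2
      have hcb : c ^ 2 ≤ |b' * c| := by
        rw [abs_mul, ← sq_abs c, sq]
        apply mul_le_mul_of_nonneg_right _ (abs_nonneg c)
        rw [Int.abs_eq_natAbs, Int.abs_eq_natAbs]
        omega
      have hc1 : 1 ≤ c ^ 2 := by
        have := sq_nonneg c
        have h0 : c ^ 2 ≠ 0 := pow_ne_zero 2 hc
        omega
      -- the value of `2 a' - 3`
      have hsv : (2 * a' - 3) ^ 2 = 1 := by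
        by_contra hne
        have h9 : 9 ≤ (2 * a' - 3) ^ 2 := by
          have : a' ≤ 0 ∨ a' = 1 ∨ a' = 2 ∨ 3 ≤ a' := by omega
          rcases this with h | h | h | h
          · nlinarith
          · subst h; norm_num at hne
          · subst h; norm_num at hne
          · nlinarith
        have h5 : 4 * |b' * c| = (2 * a' - 3) ^ 2 - 5 := by
          have h6 : b' * c ≤ 0 := by linarith
          rw [abs_of_nonpos h6]
          linarith
        linarith
      have hbc4 : b' * c = 1 := by rw [hsv] at h4; linarith
      have ha' : a' = 1 ∨ a' = 2 := by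
        have h5 : (2 * a' - 3 - 1) * (2 * a' - 3 + 1) = 0 := by linear_combination hsv
        rcases mul_eq_zero.mp h5 with h | h <;> omega
      rcases Int.eq_one_or_neg_one_of_mul_eq_one' hbc4 with ⟨h5, h6⟩ | ⟨h5, h6⟩
      · subst h5 h6
        rcases ha' with rfl | rfl
        · simpa using hbase
        · apply sl_conjT 2 1 1 (3 - 2) 1
          simpa using hbase
      · subst h5 h6
        rcases ha' with rfl | rfl
        · apply sl_conjT 1 (-1) (-1) (3 - 1) 1
          simpa using hbase2
        · simpa using hbase2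
  have key1 : ∀ n : ℕ, ∀ a b c d : ℤ, c.natAbs ≤ n → a * d - b * c = 1 → a + d = 1 →
      (∃ u : W, !![a, b; c, d] * psi u = psi u * psi [(false, true), (true, true)]) ∨
      ∃ u : W, !![a, b; c, d] * psi u = psi u * psi [(true, false), (false, false)] := by
    have hN : psi [(false, true), (true, true)] = !![0, 1; -1, 1] := by
      simp [psi, gen1]
    have hN' : psi [(true, false), (false, false)] = !![1, -1; 1, 0] := by
      simp [psi, gen1]
    have hbase : ∃ u : W, (!![0, 1; -1, 1] : Matrix (Fin 2) (Fin 2) ℤ) * psi u =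
        psi u * psi [(false, true), (true, true)] := ⟨[], by rw [hN, sl_nil, mul_one, one_mul]⟩
    have hbase' : ∃ u : W, (!![1, -1; 1, 0] : Matrix (Fin 2) (Fin 2) ℤ) * psi u =
        psi u * psi [(true, false), (false, false)] :=
      ⟨[], by rw [hN', sl_nil, mul_one, one_mul]⟩
    intro n
    induction n with
    | zero =>
      intro a b c d hn hdet htr
      exfalso
      have hc : c = 0 := by omega
      subst hc
      have h1 : a * d = 1 := by linarith
      rcases Int.eq_one_or_neg_one_of_mul_eq_one h1 with h | h <;> subst h <;> omega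
    | succ n ih =>
      intro a b c d hn hdet htr
      by_cases hc : c = 0
      · exact ih a b c d (by rw [hc]; simp) hdet htr
      obtain ⟨k, hk⟩ := sl_near (2 * a - 1) c hc
      have hdet' : (a - k * c) * (c * k + d) - (a * k + b - k * (c * k + d)) * c = 1 := by
        linear_combination hdet
      have htr' : (a - k * c) + (c * k + d) = 1 := by linear_combination htr
      have hk' : |2 * (a - k * c) - 1| ≤ |c| := by
        have : 2 * (a - k * c) - 1 = 2 * a - 1 - 2 * (k * c) := by ring
        rwa [this]
      refine Or.imp (sl_conjT a b c d k _) (sl_conjT a b c d k _) ?_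
      generalize a - k * c = a' at hdet' htr' hk' ⊢
      generalize a * k + b - k * (c * k + d) = b' at hdet' ⊢
      generalize c * k + d = d' at hdet' htr' ⊢
      clear hk hdet htr
      obtain rfl : d' = 1 - a' := by linarith
      by_cases hbc : b'.natAbs < c.natAbs
      · refine Or.imp (sl_conjS _ _ _ _ _) (sl_conjS _ _ _ _ _) ?_
        apply ih _ _ _ _ (by omega)
        · linear_combination hdet'
        · ring
      have h4 : 4 * (b' * c) = -3 - (2 * a' - 1) ^ 2 := by linear_combination (-4) * hdet'
      have hs : (2 * a' - 1) ^ 2 ≤ c ^ 2 := by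
        rw [← sq_abs, ← sq_abs c]
        exact pow_le_pow_left₀ (abs_nonneg _) hk' 2
      have hcb : c ^ 2 ≤ |b' * c| := by
        rw [abs_mul, ← sq_abs c, sq]
        apply mul_le_mul_of_nonneg_right _ (abs_nonneg c)
        rw [Int.abs_eq_natAbs, Int.abs_eq_natAbs]
        omega
      have hneg : b' * c ≤ 0 := by nlinarith [sq_nonneg (2 * a' - 1)]
      rw [abs_of_nonpos hneg] at hcb
      have hc1 : c ^ 2 ≤ 1 := by linarith
      have hc2 : c = 1 ∨ c = -1 := by
        have h5 : c ≤ 1 := by nlinarith
        have h6 : -1 ≤ c := by nlinarith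
        omega
      have hsv : (2 * a' - 1) ^ 2 = 1 := by
        have h5 : (2 * a' - 1) ^ 2 ≤ 1 := by linarith
        have h6 : (2 * a' - 1) ^ 2 ≠ 0 := pow_ne_zero 2 (by omega)
        have h7 := sq_nonneg (2 * a' - 1)
        omega
      have hbc4 : b' * c = -1 := by rw [hsv] at h4; linarith
      have ha' : a' = 0 ∨ a' = 1 := by
        have h5 : (2 * a' - 1 - 1) * (2 * a' - 1 + 1) = 0 := by linear_combination hsv
        rcases mul_eq_zero.mp h5 with h | h <;> omega
      rcases hc2 with rfl | rfl
      · obtain rfl : b' = -1 := by linarith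
        right
        rcases ha' with rfl | rfl
        · apply sl_conjS
          simpa using hbase'
        · simpa using hbase'
      · obtain rfl : b' = 1 := by linarith
        left
        rcases ha' with rfl | rfl
        · simpa using hbase
        · apply sl_conjS
          simpa using hbase
  refine ⟨fun M hdet htr => ?_, fun M hdet htr => ?_⟩
  · rw [Matrix.det_fin_two] at hdet
    rw [Matrix.trace_fin_two] at htr
    obtain ⟨u, hu⟩ := key3 _ (M 0 0) (M 0 1) (M 1 0) (M 1 1) le_rfl hdet htr
    rw [← Matrix.eta_fin_two M] at hu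
    exact ⟨u, hu⟩
  · rw [Matrix.det_fin_two] at hdet
    rw [Matrix.trace_fin_two] at htr
    have h := key1 _ (M 0 0) (M 0 1) (M 1 0) (M 1 1) le_rfl hdet htr
    rw [← Matrix.eta_fin_two M] at h
    rcases h with ⟨u, hu⟩ | ⟨u, hu⟩
    · exact ⟨u, Or.inl hu⟩
    · exact ⟨u, Or.inr hu⟩

end Pool.Agent.KB3
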