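import Pool.Agent.KB3.Mov

/-!
# Closures of braidoids: the short sector
-/

set_option autoImplicit false

namespace Pool.Agent.KB3

/-- the standard word with exponent sum `k` -/
def sho_can (k : ℤ) : List Bool := List.replicate k.natAbs (decide (0 < k))

theorem sho_ex1_append (u v : List Bool) : ex1 (u ++ v) = ex1 u + ex1 v := by
  unfold ex1
  rw [List.map_append, List.sum_append]

theorem sho_ex1_cons (ε : Bool) (w : List Bool) : ex1 (ε :: w) = sg ε + ex1 w := by
  unfold ex1
  rw [List.map_cons, List.sum_cons]

theorem sho_sh_append (u v : List Bool) : sh (u ++ v) = sh u ++ sh v := by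
  unfold sh
  rw [List.map_append]

theorem sho_up_append (a : Bool) (u v : List Bool) : up a (u ++ v) = up a u ++ up a v := by
  unfold up
  rw [List.map_append]

theorem sho_can_step (k : ℤ) (ε : Bool) :
    (ε :: sho_can k = sho_can (sg ε + k)) ∨
      (sho_can k = (!ε) :: sho_can (sg ε + k)) := by
  unfold sho_can
  rcases lt_trichotomy k 0 with hk | rfl | hk
  · cases ε
    · left
      have e1 : (sg false + k).natAbs = k.natAbs + 1 := by unfold sg; simp; omega
      have e2 : decide (0 < k) = false := by simp; omega
      have e3 : decide (0 < sg false + k) = false := by unfold sg; simp; omega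
      rw [e1, e2, e3, List.replicate_succ]
    · right
      have e1 : k.natAbs = (sg true + k).natAbs + 1 := by unfold sg; simp; omega
      have e2 : decide (0 < k) = false := by simp; omega
      have e3 : decide (0 < sg true + k) = false := by unfold sg; simp; omega
      rw [e1, e2, e3, List.replicate_succ]
      rfl
  · left
    cases ε <;> simp [sg]
  · cases ε
    · right
      have e1 : k.natAbs = (sg false + k).natAbs + 1 := by unfold sg; simp; omega
      have e2 : decide (0 < k) = true := by simp; omega
      rw [e1, e2, List.replicate_succ]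
      by_cases h1 : k = 1
      · subst h1
        simp [sg]
      · have e3 : decide (0 < sg false + k) = true := by unfold sg; simp; omega
        rw [e3]
        rfl
    · left
      have e1 : (sg true + k).natAbs = k.natAbs + 1 := by unfold sg; simp; omega
      have e2 : decide (0 < k) = true := by simp; omega
      have e3 : decide (0 < sg true + k) = true := by unfold sg; simp; omega
      rw [e1, e2, e3, List.replicate_succ]

/-- Words with the same exponent sum are related by cancellations. -/
theorem sho_words (R : List Bool → List Bool → Prop) (hr : ∀ w, R w w)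
    (hs : ∀ w w', R w w' → R w' w) (ht : ∀ w w' w'', R w w' → R w' w'' → R w w'')
    (hc : ∀ u v ε, R (u ++ ε :: (!ε) :: v) (u ++ v)) {w w' : List Bool}
    (h : ex1 w = ex1 w') : R w w' := by
  have key : ∀ w u v : List Bool, R (u ++ w ++ v) (u ++ sho_can (ex1 w) ++ v) := by
    intro w
    induction w with
    | nil =>
      intro u v
      have : sho_can (ex1 []) = [] := rfl
      rw [this]
      exact hr _
    | cons ε w ih =>
      intro u v
      have h1 := ih (u ++ [ε]) v
      have e1 : u ++ ε :: w ++ v = u ++ [ε] ++ w ++ v := by simp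
      rw [e1, sho_ex1_cons]
      refine ht _ _ _ h1 ?_
      rcases sho_can_step (ex1 w) ε with h2 | h2
      · have e2 : u ++ [ε] ++ sho_can (ex1 w) ++ v = u ++ sho_can (sg ε + ex1 w) ++ v := by
          rw [← h2]
          simp
        rw [e2]
        exact hr _
      · have e2 : u ++ [ε] ++ sho_can (ex1 w) ++ v =
            u ++ ε :: (!ε) :: (sho_can (sg ε + ex1 w) ++ v) := by
          rw [h2]
          simp
        rw [e2]
        have h3 := hc u (sho_can (sg ε + ex1 w) ++ v) ε
        have e3 : u ++ sho_can (sg ε + ex1 w) ++ v = u ++ (sho_can (sg ε + ex1 w) ++ v) := by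
          simp
        rw [e3]
        exact h3
  have h1 := key w [] []
  have h2 := key w' [] []
  simp only [List.nil_append, List.append_nil] at h1 h2
  rw [h] at h1
  exact ht _ _ _ h1 (hs _ _ h2)

private theorem sho_one (i j : ℕ) (hi : i ≤ 2) (hj : j ≤ 2) (u : W) (w w' : List Bool)
    (h : ex1 w = ex1 w') : Isotopic (dia i u j w) (dia i u j w') := by
  refine sho_words (fun w w' => Isotopic (dia i u j w) (dia i u j w'))
    (fun w => mov_refl _) (fun w w' => mov_symm) (fun w w' w'' => mov_trans) ?_ h
  intro p q ε
  refine mov_step (mov_valid hi hj _ _) (mov_valid hi hj _ _) ?_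
  have h1 := Move.cancelShort 2 i j (sh p) (sh q) (nat u) 0 ε
  have e1 : dia i u j (p ++ ε :: (!ε) :: q) =
      ⟨2, i, nat u, j, sh p ++ (0, ε) :: (0, !ε) :: sh q⟩ := by
    unfold dia
    rw [sho_sh_append]
    rfl
  have e2 : dia i u j (p ++ q) = ⟨2, i, nat u, j, sh p ++ sh q⟩ := by
    unfold dia
    rw [sho_sh_append]
  rw [e1, e2]
  exact h1

private theorem sho_two (i j : ℕ) (hi : i ≤ 1) (hj : j ≤ 1) (w w' : List Bool)
    (h : ex1 w = ex1 w') : Isotopic (dia1 i w j) (dia1 i w' j) := by
  refine sho_words (fun w w' => Isotopic (dia1 i w j) (dia1 i w' j))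
    (fun w => mov_refl _) (fun w w' => mov_symm) (fun w w' w'' => mov_trans) ?_ h
  intro p q ε
  refine mov_step (mov_valid1 hi hj _) (mov_valid1 hi hj _) ?_
  have h1 := Move.cancelLong 1 i j (sh p) (sh q) [] 0 ε
  have e1 : dia1 i (p ++ ε :: (!ε) :: q) j =
      ⟨1, i, sh p ++ (0, ε) :: (0, !ε) :: sh q, j, []⟩ := by
    unfold dia1
    rw [sho_sh_append]
    rfl
  have e2 : dia1 i (p ++ q) j = ⟨1, i, sh p ++ sh q, j, []⟩ := by
    unfold dia1
    rw [sho_sh_append]
  rw [e1, e2]
  exact h1

/-- letters of the short sector pass the tail -/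
theorem sho_tail {i : ℕ} {a : Bool} (hi : i ≤ 2) (h0 : skip i 0 = if a then 1 else 0)
    (h1 : skip i 1 = (if a then 1 else 0) + 1) {j : ℕ} (hj : j ≤ 2) (w : List Bool) :
    ∀ u : W, Isotopic (dia i u j w) (dia i (up a w ++ u) j []) := by
  induction w using List.reverseRecOn with
  | nil => intro u; exact mov_refl _
  | append_singleton w ε ih =>
    intro u
    have h2 : Isotopic (dia i u j (w ++ [ε])) (dia i ((a, ε) :: u) j w) := by
      refine mov_symm (mov_step (mov_valid hi hj _ _) (mov_valid hi hj _ _) ?_)
      have h3 := Move.tailPass 2 i j (nat u) (sh w) 0 (if a then 1 else 0) ε h0 h1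
      have e1 : dia i u j (w ++ [ε]) = ⟨2, i, nat u, j, sh w ++ [(0, ε)]⟩ := by
        unfold dia
        rw [sho_sh_append]
        rfl
      rw [e1]
      exact h3
    refine mov_trans h2 ?_
    have h3 := ih ((a, ε) :: u)
    have e2 : up a (w ++ [ε]) ++ u = up a w ++ (a, ε) :: u := by
      rw [sho_up_append]
      simp [up]
    rw [e2]
    exact h3

/-- letters of the short sector pass the head -/
theorem sho_head {j : ℕ} {a : Bool} (hj : j ≤ 2) (h0 : skip j 0 = if a then 1 else 0)
    (h1 : skip j 1 = (if a then 1 else 0) + 1) {i : ℕ} (hi : i ≤ 2) (w : List Bool) :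
    ∀ u : W, Isotopic (dia i u j w) (dia i (u ++ up a w) j []) := by
  induction w with
  | nil =>
    intro u
    have : u ++ up a [] = u := by simp [up]
    rw [this]
    exact mov_refl _
  | cons ε w ih =>
    intro u
    have h2 : Isotopic (dia i u j (ε :: w)) (dia i (u ++ [(a, ε)]) j w) := by
      refine mov_symm (mov_step (mov_valid hi hj _ _) (mov_valid hi hj _ _) ?_)
      have h3 := Move.headPass 2 i j (nat u) (sh w) 0 (if a then 1 else 0) ε h0 h1
      have e1 : dia i (u ++ [(a, ε)]) j w =
          ⟨2, i, nat u ++ [((if a then 1 else 0), ε)], j, sh w⟩ := by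
        unfold dia
        rw [mov_nat_append]
        rfl
      rw [e1]
      exact h3
    refine mov_trans h2 ?_
    have h3 := ih (u ++ [(a, ε)])
    have e2 : u ++ up a (ε :: w) = u ++ [(a, ε)] ++ up a w := by
      simp [up]
    rw [e2]
    exact h3

theorem thm_Sho : St_Sho := by
  refine ⟨fun i j u w w' hi hj h => sho_one i j hi hj u w w' h,
    fun i j w w' hi hj h => sho_two i j hi hj w w' h, fun j u w hj => ⟨?_, ?_⟩,
    fun i u w hi => ⟨?_, ?_⟩⟩
  · exact sho_tail (a := true) (by norm_num) (by simp [skip]) (by simp [skip]) hj w u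
  · exact sho_tail (a := false) le_rfl (by simp [skip]) (by simp [skip]) hj w u
  · exact sho_head (a := true) (by norm_num) (by simp [skip]) (by simp [skip]) hi w u
  · exact sho_head (a := false) le_rfl (by simp [skip]) (by simp [skip]) hi w u

end Pool.Agent.KB3
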