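import Pool.Agent.KB3.St

/-!
# Closures of braidoids: the bracket on three strands
-/

set_option autoImplicit false

namespace Pool.Agent.KB3

open Matrix

/-- left multiplication by a turnback: number of new circles and index of the result -/
private def sum_step (a : Bool) (r : ℕ × Fin 5) : ℕ × Fin 5 :=
  if a then
    (r.1 + (![0, 0, 1, 0, 1] : Fin 5 → ℕ) r.2, (![2, 4, 2, 2, 4] : Fin 5 → Fin 5) r.2)
  else
    (r.1 + (![0, 1, 0, 1, 0] : Fin 5 → ℕ) r.2, (![1, 1, 3, 3, 1] : Fin 5 → Fin 5) r.2)

private def sum_red : (u : W) → (Fin (nat u).length → Bool) → ℕ × Fin 5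
  | [], _ => (0, 0)
  | (a, ε) :: u, s =>
    if ε = s (0 : Fin ((nat u).length + 1)) then
      sum_red u (fun t => s (Fin.succ t : Fin ((nat u).length + 1)))
    else sum_step a (sum_red u (fun t => s (Fin.succ t : Fin ((nat u).length + 1))))

private def sum_red1 : (w : List Bool) → (Fin (sh w).length → Bool) → ℕ × Bool
  | [], _ => (0, false)
  | ε :: w, s =>
    if ε = s (0 : Fin ((sh w).length + 1)) then
      sum_red1 w (fun t => s (Fin.succ t : Fin ((sh w).length + 1)))
    else
      ((sum_red1 w (fun t => s (Fin.succ t : Fin ((sh w).length + 1)))).1 +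
        (if (sum_red1 w (fun t => s (Fin.succ t : Fin ((sh w).length + 1)))).2 then 1 else 0), true)

private theorem sum_red_cons (a ε : Bool) (u : W) (s : Fin (nat ((a, ε) :: u)).length → Bool) :
    sum_red ((a, ε) :: u) s = if ε = s (0 : Fin ((nat u).length + 1)) then
      sum_red u (fun t => s (Fin.succ t : Fin ((nat u).length + 1)))
    else sum_step a (sum_red u (fun t => s (Fin.succ t : Fin ((nat u).length + 1)))) := rfl

private theorem sum_red1_cons (ε : Bool) (w : List Bool) (s : Fin (sh (ε :: w)).length → Bool) :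
    sum_red1 (ε :: w) s = if ε = s (0 : Fin ((sh w).length + 1)) then
      sum_red1 w (fun t => s (Fin.succ t : Fin ((sh w).length + 1)))
    else
      ((sum_red1 w (fun t => s (Fin.succ t : Fin ((sh w).length + 1)))).1 +
        (if (sum_red1 w (fun t => s (Fin.succ t : Fin ((sh w).length + 1)))).2 then 1 else 0),
        true) := rfl

private theorem sum_Um (h : St_Tab) (a : Bool) (b : Fin 5) :
    UU a * Bm b = 2 ^ (sum_step a (0, b)).1 • Bm (sum_step a (0, b)).2 := by
  obtain ⟨-, h2, h3, -⟩ := h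
  have h2f := h2 false
  have h2t := h2 true
  have h3f := h3 false
  have h3t := h3 true
  simp only [Bool.not_false, Bool.not_true] at h3f h3t
  cases a <;> fin_cases b
  · simp [Bm, sum_step]
  · simp [Bm, sum_step, h2f]
  · simp [Bm, sum_step]
  · simp [Bm, sum_step, ← Matrix.mul_assoc, h2f]
  · simp [Bm, sum_step, ← Matrix.mul_assoc, h3f]
  · simp [Bm, sum_step]
  · simp [Bm, sum_step]
  · simp [Bm, sum_step, h2t]
  · simp [Bm, sum_step, ← Matrix.mul_assoc, h3t]
  · simp [Bm, sum_step, ← Matrix.mul_assoc, h2t]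

private theorem sum_prod (h : St_Tab) : ∀ (u : W) (s : Fin (nat u).length → Bool),
    (List.ofFn fun t => slab 3 ((nat u).get t).1 (smooth ((nat u).get t).2 (s t))).prod =
      2 ^ (sum_red u s).1 • Bm (sum_red u s).2
  | [], s => by
    simp [nat, sum_red, Bm]
  | (a, ε) :: u, s => by
    have ih := sum_prod h u (fun t => s (Fin.succ t : Fin ((nat u).length + 1)))
    have e1 : (List.ofFn fun t : Fin (nat ((a, ε) :: u)).length =>
        slab 3 ((nat ((a, ε) :: u)).get t).1 (smooth ((nat ((a, ε) :: u)).get t).2 (s t))) =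
        slab 3 (if a then 1 else 0) (smooth ε (s (0 : Fin ((nat u).length + 1)))) ::
          (List.ofFn fun t : Fin (nat u).length => slab 3 ((nat u).get t).1
            (smooth ((nat u).get t).2 (s (Fin.succ t : Fin ((nat u).length + 1))))) := by
      exact List.ofFn_succ
    rw [e1, List.prod_cons, ih, sum_red_cons]
    unfold smooth
    by_cases hs : ε = s (0 : Fin ((nat u).length + 1))
    · rw [if_pos hs, if_pos hs]
      have hv : slab 3 (if a then 1 else 0) .vertical = 1 := by
        cases a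
        · exact h.1.1
        · exact h.1.2.1
      rw [hv, one_mul]
    · rw [if_neg hs, if_neg hs]
      have hu : slab 3 (if a then 1 else 0) .horizontal = UU a := rfl
      rw [hu, mul_smul_comm, sum_Um h, smul_smul, ← pow_add]
      cases a <;> simp [sum_step]

private theorem sum_prod1 (h : St_Tab) : ∀ (w : List Bool) (s : Fin (sh w).length → Bool),
    (List.ofFn fun t => slab 2 ((sh w).get t).1 (smooth ((sh w).get t).2 (s t))).prod =
      2 ^ (sum_red1 w s).1 • (if (sum_red1 w s).2 then slab 2 0 .horizontal else 1)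
  | [], s => by
    simp [sh, sum_red1]
  | ε :: w, s => by
    have ih := sum_prod1 h w (fun t => s (Fin.succ t : Fin ((sh w).length + 1)))
    have e1 : (List.ofFn fun t : Fin (sh (ε :: w)).length =>
        slab 2 ((sh (ε :: w)).get t).1 (smooth ((sh (ε :: w)).get t).2 (s t))) =
        slab 2 0 (smooth ε (s (0 : Fin ((sh w).length + 1)))) ::
          (List.ofFn fun t : Fin (sh w).length => slab 2 ((sh w).get t).1
            (smooth ((sh w).get t).2 (s (Fin.succ t : Fin ((sh w).length + 1))))) := by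
      exact List.ofFn_succ
    rw [e1, List.prod_cons, ih, sum_red1_cons]
    unfold smooth
    by_cases hs : ε = s (0 : Fin ((sh w).length + 1))
    · rw [if_pos hs, if_pos hs, h.1.2.2, one_mul]
    · rw [if_neg hs, if_neg hs, mul_smul_comm]
      have h4 := h.2.2.2.1
      cases (sum_red1 w fun t => s (Fin.succ t : Fin ((sh w).length + 1))).2
      · simp
      · simp only [if_true]
        rw [h4, smul_smul, pow_succ]

/-- the number of components of a state -/
private theorem sum_comps (h1 : St_Tra) (h2 : St_Tab) (i j : ℕ) (hi : i ≤ 2) (hj : j ≤ 2) (u : W)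
    (w : List Bool) (s : State (dia i u j w)) :
    comps (dia i u j w) s.joins = (sum_red u s.1).1 + (sum_red1 w s.2).1 +
      (if (sum_red1 w s.2).2 then e1 i j (sum_red u s.1).2 else e0 i j (sum_red u s.1).2) + 1 := by
  obtain ⟨i', rfl⟩ : ∃ i' : Fin 3, (i' : ℕ) = i := ⟨⟨i, by omega⟩, rfl⟩
  obtain ⟨j', rfl⟩ : ∃ j' : Fin 3, (j' : ℕ) = j := ⟨⟨j, by omega⟩, rfl⟩
  have h3 : 2 ^ comps (dia i' u j' w) s.joins = Matrix.trace
      ((List.ofFn fun t => slab 3 ((nat u).get t).1 (smooth ((nat u).get t).2 (s.1 t))).prod *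
        glue 2 j' * (List.ofFn fun t => slab 2 ((sh w).get t).1
          (smooth ((sh w).get t).2 (s.2 t))).prod * (glue 2 i')ᵀ) :=
    h1 (dia i' u j' w) s.joins
  rw [sum_prod h2 u s.1, sum_prod1 h2 w s.2] at h3
  have e5 := h2.2.2.2.2.1 i' j' (sum_red u s.1).2
  have e6 := h2.2.2.2.2.2.1 i' j' (sum_red u s.1).2
  simp only [Matrix.smul_mul, Matrix.mul_smul, Matrix.trace_smul, smul_smul, smul_eq_mul] at h3
  apply Nat.pow_right_injective (le_refl 2)
  show 2 ^ _ = 2 ^ _
  rw [h3]
  cases (sum_red1 w s.2).2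
  · simp only [Bool.false_eq_true, if_false, Matrix.mul_one]
    rw [e5]
    ring
  · simp only [if_true]
    rw [e6]
    ring

private theorem sum_Lm (A : ℂ) (a : Bool) (v φ : Fin 5 → ℂ) :
    ∑ b, Lm A a v b * φ b =
      ∑ b, v b * (dd A ^ (sum_step a (0, b)).1 * φ (sum_step a (0, b)).2) := by
  cases a
  · simp only [Fin.sum_univ_five, Lm, sum_step, Bool.false_eq_true, if_false]
    simp
    ring
  · simp only [Fin.sum_univ_five, Lm, sum_step, if_true]
    simp
    ring

private theorem sum_step_eq (a : Bool) (r : ℕ × Fin 5) :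
    sum_step a r = (r.1 + (sum_step a (0, r.2)).1, (sum_step a (0, r.2)).2) := by
  cases a <;> simp [sum_step]

private theorem sum_long (A : ℂ) (hA : A ≠ 0) : ∀ (u : W) (φ : Fin 5 → ℂ),
    ∑ s : Fin (nat u).length → Bool, A ^ (∑ t, sg (s t)) *
      (dd A ^ (sum_red u s).1 * φ (sum_red u s).2) = ∑ b, vec A u b * φ b
  | [], φ => by
    show ∑ s : Fin 0 → Bool, A ^ (∑ t : Fin 0, sg (s t)) * (dd A ^ (0 : ℕ) * φ 0) = _
    simp [vec, Fin.sum_univ_five]
  | (a, ε) :: u, φ => by
    have ih1 := sum_long A hA u φ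
    have ih2 := sum_long A hA u
      (fun b => dd A ^ (sum_step a (0, b)).1 * φ (sum_step a (0, b)).2)
    show ∑ s : Fin ((nat u).length + 1) → Bool, A ^ (∑ t : Fin ((nat u).length + 1), sg (s t)) *
        (dd A ^ (if ε = s 0 then sum_red u (fun t => s t.succ) else
          sum_step a (sum_red u (fun t => s t.succ))).1 *
        φ (if ε = s 0 then sum_red u (fun t => s t.succ) else
          sum_step a (sum_red u (fun t => s t.succ))).2) = _
    rw [← (Fin.consEquiv fun _ => Bool).sum_comp, Fintype.sum_prod_type]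
    have e1 : ∀ (s0 : Bool) (s' : Fin (nat u).length → Bool),
        ∑ t : Fin ((nat u).length + 1), sg (Fin.cons (α := fun _ => Bool) s0 s' t) =
          sg s0 + ∑ t, sg (s' t) := by
      intro s0 s'
      rw [Fin.sum_univ_succ]
      simp
    simp only [Fin.consEquiv_apply, Fin.cons_zero, Fin.cons_succ, e1]
    have e2 : ∀ s0 : Bool, ∑ s' : Fin (nat u).length → Bool, A ^ (sg s0 + ∑ t, sg (s' t)) *
        (dd A ^ (if ε = s0 then sum_red u (fun t => s' t) else
          sum_step a (sum_red u (fun t => s' t))).1 *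
        φ (if ε = s0 then sum_red u (fun t => s' t) else
          sum_step a (sum_red u (fun t => s' t))).2) =
        if ε = s0 then A ^ sg s0 * ∑ b, vec A u b * φ b
        else A ^ sg s0 * ∑ b, Lm A a (vec A u) b * φ b := by
      intro s0
      split_ifs with h
      · rw [← ih1, Finset.mul_sum]
        refine Finset.sum_congr rfl fun s' _ => ?_
        rw [zpow_add₀ hA]
        ring
      · rw [sum_Lm, ← ih2, Finset.mul_sum]
        refine Finset.sum_congr rfl fun s' _ => ?_
        rw [zpow_add₀ hA, sum_step_eq a (sum_red u fun t => s' t), pow_add]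
        ring
    rw [Finset.sum_congr rfl fun s0 _ => e2 s0, Fintype.sum_bool]
    have e3 : ∀ b, vec A ((a, ε) :: u) b = A ^ sg ε * vec A u b +
      A ^ (-sg ε) * Lm A a (vec A u) b := fun b => rfl
    simp only [e3, add_mul, Finset.sum_add_distrib, mul_assoc, ← Finset.mul_sum]
    cases ε
    · simp [sg, add_comm]
    · simp [sg]

private theorem sum_short (A : ℂ) (hA : A ≠ 0) : ∀ (w : List Bool) (φ : Bool → ℂ),
    ∑ s : Fin (sh w).length → Bool, A ^ (∑ t, sg (s t)) *
      (dd A ^ (sum_red1 w s).1 * φ (sum_red1 w s).2) = A ^ ex1 w * φ false + cc A w * φ true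
  | [], φ => by
    show ∑ s : Fin 0 → Bool, A ^ (∑ t : Fin 0, sg (s t)) * (dd A ^ (0 : ℕ) * φ false) = _
    simp [ex1, cc]
  | ε :: w, φ => by
    have ih1 := sum_short A hA w φ
    have ih2 := sum_short A hA w
      (fun b => dd A ^ (if b then 1 else 0) * φ true)
    show ∑ s : Fin ((sh w).length + 1) → Bool, A ^ (∑ t : Fin ((sh w).length + 1), sg (s t)) *
        (dd A ^ (if ε = s 0 then sum_red1 w (fun t => s t.succ) else
          ((sum_red1 w (fun t => s t.succ)).1 +
            (if (sum_red1 w (fun t => s t.succ)).2 then 1 else 0), true)).1 *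
        φ (if ε = s 0 then sum_red1 w (fun t => s t.succ) else
          ((sum_red1 w (fun t => s t.succ)).1 +
            (if (sum_red1 w (fun t => s t.succ)).2 then 1 else 0), true)).2) = _
    rw [← (Fin.consEquiv fun _ => Bool).sum_comp, Fintype.sum_prod_type]
    have e1 : ∀ (s0 : Bool) (s' : Fin (sh w).length → Bool),
        ∑ t : Fin ((sh w).length + 1), sg (Fin.cons (α := fun _ => Bool) s0 s' t) =
          sg s0 + ∑ t, sg (s' t) := by
      intro s0 s'
      rw [Fin.sum_univ_succ]
      simp
    simp only [Fin.consEquiv_apply, Fin.cons_zero, Fin.cons_succ, e1]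
    have e2 : ∀ s0 : Bool, ∑ s' : Fin (sh w).length → Bool, A ^ (sg s0 + ∑ t, sg (s' t)) *
        (dd A ^ (if ε = s0 then sum_red1 w (fun t => s' t) else
          ((sum_red1 w (fun t => s' t)).1 +
            (if (sum_red1 w (fun t => s' t)).2 then 1 else 0), true)).1 *
        φ (if ε = s0 then sum_red1 w (fun t => s' t) else
          ((sum_red1 w (fun t => s' t)).1 +
            (if (sum_red1 w (fun t => s' t)).2 then 1 else 0), true)).2) =
        if ε = s0 then A ^ sg s0 * (A ^ ex1 w * φ false + cc A w * φ true)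
        else A ^ sg s0 * (A ^ ex1 w * φ true + cc A w * (dd A * φ true)) := by
      intro s0
      split_ifs with h
      · rw [← ih1, Finset.mul_sum]
        refine Finset.sum_congr rfl fun s' _ => ?_
        rw [zpow_add₀ hA]
        ring
      · have ih3 : ∑ s : Fin (sh w).length → Bool, A ^ (∑ t, sg (s t)) *
            (dd A ^ (sum_red1 w s).1 * (dd A ^ (if (sum_red1 w s).2 then 1 else 0) * φ true)) =
            A ^ ex1 w * φ true + cc A w * (dd A * φ true) := by
          rw [ih2]
          simp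
        rw [← ih3, Finset.mul_sum]
        refine Finset.sum_congr rfl fun s' _ => ?_
        rw [zpow_add₀ hA, pow_add]
        ring
    rw [Finset.sum_congr rfl fun s0 _ => e2 s0, Fintype.sum_bool]
    have e3 : cc A (ε :: w) = A ^ sg ε * cc A w + A ^ (-sg ε) * (A ^ ex1 w + dd A * cc A w) := rfl
    have e4 : A ^ ex1 (ε :: w) = A ^ sg ε * A ^ ex1 w := by
      have : ex1 (ε :: w) = sg ε + ex1 w := by simp [ex1]
      rw [this, zpow_add₀ hA]
    rw [e3, e4]
    cases ε
    · simp [sg]
      ring
    · simp [sg]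
      ring

theorem thm_Sum (h1 : St_Tra) (h2 : St_Tab) : St_Sum := by
  intro i j hi hj u w A
  have hA : (A : ℂ) ≠ 0 := A.ne_zero
  have hev : ∀ n : ℤ, evl A (LaurentPolynomial.T n) = (A : ℂ) ^ n := by
    intro n
    unfold evl
    rw [LaurentPolynomial.eval₂_T]
    simp
  have h3 : evl A (bracket (dia i u j w)) = ∑ s : State (dia i u j w),
      (A : ℂ) ^ (∑ t, sg (s.1 t) + ∑ t, sg (s.2 t)) *
        dd A ^ (comps (dia i u j w) s.joins - 1) := by
    have hd : evl A (-LaurentPolynomial.T 2 - LaurentPolynomial.T (-2)) = dd A := by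
      have := hev 2
      have h4 := hev (-2)
      unfold evl at *
      rw [map_sub, map_neg, this, h4]
      unfold dd
      rw [_root_.zpow_neg]
      rfl
    unfold bracket
    have hmap : ∀ p, evl A p = LaurentPolynomial.eval₂ (Int.castRingHom ℂ) A p := fun p => rfl
    rw [hmap, map_sum]
    refine Finset.sum_congr rfl fun s _ => ?_
    rw [map_mul, map_pow, ← hmap, ← hmap, hev, hd]
  rw [h3]
  have h4 : ∀ s : State (dia i u j w), (A : ℂ) ^ (∑ t, sg (s.1 t) + ∑ t, sg (s.2 t)) *
        dd A ^ (comps (dia i u j w) s.joins - 1) =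
      (A : ℂ) ^ (∑ t, sg (s.2 t)) * (dd A ^ (sum_red1 w s.2).1 *
        ((A : ℂ) ^ (∑ t, sg (s.1 t)) * (dd A ^ (sum_red u s.1).1 *
          dd A ^ (if (sum_red1 w s.2).2 then e1 i j (sum_red u s.1).2
            else e0 i j (sum_red u s.1).2)))) := by
    intro s
    rw [sum_comps h1 h2 i j hi hj u w s, Nat.add_sub_cancel, pow_add, pow_add, zpow_add₀ hA]
    ring
  rw [Finset.sum_congr rfl fun s _ => h4 s]
  have h5 : ∑ s : State (dia i u j w), (A : ℂ) ^ (∑ t, sg (s.2 t)) *
        (dd A ^ (sum_red1 w s.2).1 *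
        ((A : ℂ) ^ (∑ t, sg (s.1 t)) * (dd A ^ (sum_red u s.1).1 *
          dd A ^ (if (sum_red1 w s.2).2 then e1 i j (sum_red u s.1).2
            else e0 i j (sum_red u s.1).2)))) =
      ∑ s2 : Fin (sh w).length → Bool, ∑ s1 : Fin (nat u).length → Bool,
        (A : ℂ) ^ (∑ t, sg (s2 t)) * (dd A ^ (sum_red1 w s2).1 *
        ((A : ℂ) ^ (∑ t, sg (s1 t)) * (dd A ^ (sum_red u s1).1 *
          dd A ^ (if (sum_red1 w s2).2 then e1 i j (sum_red u s1).2
            else e0 i j (sum_red u s1).2)))) := by
    rw [Finset.sum_comm]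
    exact Fintype.sum_prod_type _
  rw [h5]
  have h6 : ∀ s2 : Fin (sh w).length → Bool, ∑ s1 : Fin (nat u).length → Bool,
        (A : ℂ) ^ (∑ t, sg (s2 t)) * (dd A ^ (sum_red1 w s2).1 *
        ((A : ℂ) ^ (∑ t, sg (s1 t)) * (dd A ^ (sum_red u s1).1 *
          dd A ^ (if (sum_red1 w s2).2 then e1 i j (sum_red u s1).2
            else e0 i j (sum_red u s1).2)))) =
      (A : ℂ) ^ (∑ t, sg (s2 t)) * (dd A ^ (sum_red1 w s2).1 *
        (fun c : Bool => if c then F1 i j A (vec A u) else F0 i j A (vec A u))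
          (sum_red1 w s2).2) := by
    intro s2
    rw [← Finset.mul_sum, ← Finset.mul_sum]
    congr 2
    cases (sum_red1 w s2).2
    · exact sum_long A hA u (fun b => dd A ^ e0 i j b)
    · exact sum_long A hA u (fun b => dd A ^ e1 i j b)
  rw [Finset.sum_congr rfl fun s _ => h6 s]
  refine (sum_short A hA w (fun c : Bool => if c then F1 i j A (vec A u) else
    F0 i j A (vec A u))).trans ?_
  simp

end Pool.Agent.KB3
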