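import Pool.Agent.KB3.St

/-!
# The bracket of a diagram on two strands
-/

set_option autoImplicit false

namespace Pool.Agent.KB3

open Matrix

private abbrev Mt : Type := Matrix (Fin 2 → Bool) (Fin 2 → Bool) ℕ

/-- the sum over the states of a list of letters -/
private noncomputable def sumSt (A : ℂ) (L : List Letter) (Φ : Mt → ℂ) : ℂ :=
  ∑ s : Fin L.length → Bool, A ^ (∑ t, sg (s t)) *
    Φ (List.ofFn fun t => slab 2 (L.get t).1 (smooth (L.get t).2 (s t))).prod

private theorem sumSt_nil (A : ℂ) (Φ : Mt → ℂ) : sumSt A [] Φ = Φ 1 := by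
  unfold sumSt
  simp

private theorem sumSt_cons (A : ℂ) (hA : A ≠ 0) (l : Letter) (L : List Letter) (Φ : Mt → ℂ) :
    sumSt A (l :: L) Φ = ∑ b : Bool, A ^ sg b *
      sumSt A L (fun M => Φ (slab 2 l.1 (smooth l.2 b) * M)) := by
  unfold sumSt
  change ∑ s : Fin (L.length + 1) → Bool, A ^ (∑ t : Fin (L.length + 1), sg (s t)) *
    Φ (List.ofFn fun t : Fin (L.length + 1) => slab 2 ((l :: L).get t).1
      (smooth ((l :: L).get t).2 (s t))).prod = _
  rw [← (Fin.consEquiv (n := L.length) (fun _ => Bool)).sum_comp, Fintype.sum_prod_type]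
  apply Finset.sum_congr rfl
  intro b _
  rw [Finset.mul_sum]
  apply Finset.sum_congr rfl
  intro s _
  have h1 : ∑ t : Fin (L.length + 1),
      sg ((Fin.consEquiv (n := L.length) (fun _ => Bool)) (b, s) t) =
      sg b + ∑ t, sg (s t) := by
    rw [Fin.sum_univ_succ]
    rfl
  have h2 : (List.ofFn fun t : Fin (L.length + 1) => slab 2 ((l :: L).get t).1
      (smooth ((l :: L).get t).2 ((Fin.consEquiv (n := L.length) (fun _ => Bool)) (b, s) t))).prod =
      slab 2 l.1 (smooth l.2 b) *
        (List.ofFn fun t => slab 2 (L.get t).1 (smooth (L.get t).2 (s t))).prod := by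
    rw [List.ofFn_succ, List.prod_cons]
    rfl
  have h3 : A ^ (∑ t : Fin (l :: L).length,
      sg ((Fin.consEquiv (n := L.length) (fun _ => Bool)) (b, s) t)) =
      A ^ sg b * A ^ ∑ t, sg (s t) := by
    rw [← zpow_add₀ hA]
    exact congrArg (fun z => A ^ z) h1
  calc _ = A ^ (∑ t : Fin (l :: L).length,
      sg ((Fin.consEquiv (n := L.length) (fun _ => Bool)) (b, s) t)) *
        Φ ((List.ofFn fun t : Fin (L.length + 1) => slab 2 ((l :: L).get t).1
      (smooth ((l :: L).get t).2
        ((Fin.consEquiv (n := L.length) (fun _ => Bool)) (b, s) t))).prod) := rfl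
    _ = _ := by rw [h3, h2, mul_assoc]

private noncomputable def hh : Mt := slab 2 0 .horizontal

private theorem sum_val (A : ℂ) (hA : A ≠ 0) (hv : slab 2 0 .vertical = 1)
    (hh2 : hh * hh = 2 • hh) (w : List Bool) :
    ∀ (Φ : Mt → ℂ) (a b : ℂ), Φ 1 = a → (∀ l : ℕ, Φ (2 ^ l • hh) = dd A ^ l * b) →
      sumSt A (sh w) Φ = A ^ ex1 w * a + cc A w * b := by
  induction w with
  | nil =>
    intro Φ a b h1 h2
    have : sh [] = [] := rfl
    rw [this, sumSt_nil, h1]
    simp [ex1, cc]
  | cons ε w ih =>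
    intro Φ a b h1 h2
    have h3 : sh (ε :: w) = (0, ε) :: sh w := rfl
    rw [h3, sumSt_cons A hA]
    have hvert : sumSt A (sh w) (fun M => Φ (slab 2 0 .vertical * M)) =
        A ^ ex1 w * a + cc A w * b := by
      apply ih
      · rw [hv, one_mul, h1]
      · intro l
        rw [hv, one_mul, h2]
    have hhor : sumSt A (sh w) (fun M => Φ (slab 2 0 .horizontal * M)) =
        A ^ ex1 w * b + cc A w * (dd A * b) := by
      apply ih
      · have := h2 0
        rw [pow_zero, one_smul, pow_zero, one_mul] at this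
        rw [mul_one]
        exact this
      · intro l
        have h4 : slab 2 0 .horizontal * (2 ^ l • hh) = 2 ^ (l + 1) • hh := by
          rw [Matrix.mul_smul]
          change 2 ^ l • (hh * hh) = _
          rw [hh2, smul_smul, pow_succ]
        rw [h4, h2]
        ring
    have hex : ex1 (ε :: w) = sg ε + ex1 w := by simp [ex1]
    have hcc : cc A (ε :: w) = A ^ sg ε * cc A w + A ^ (-sg ε) * (A ^ ex1 w + dd A * cc A w) := rfl
    rw [hex, hcc, zpow_add₀ hA, Fintype.sum_bool]
    cases ε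
    · have e1 : smooth (0, false).2 true = .horizontal := rfl
      have e2 : smooth (0, false).2 false = .vertical := rfl
      have e3 : sg true = -sg false := rfl
      rw [e1, e2, e3]
      simp only [hvert, hhor]
      ring
    · have e1 : smooth (0, true).2 true = .vertical := rfl
      have e2 : smooth (0, true).2 false = .horizontal := rfl
      have e3 : sg false = -sg true := rfl
      rw [e1, e2, e3]
      simp only [hvert, hhor]
      ring

theorem thm_Sum1 (h1 : St_Tra) (h2 : St_Tab) : St_Sum1 := by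
  intro i j hi hj w A
  obtain ⟨⟨-, -, hv⟩, -, -, hhh, -, -, ht0, ht1⟩ := h2
  have hA : (A : ℂ) ≠ 0 := A.ne_zero
  have hi' : i < 2 := by omega
  have hj' : j < 2 := by omega
  set Φ : Mt → ℂ := fun M => dd (A : ℂ) ^
    (Nat.log 2 (Matrix.trace (M * glue 1 j * (glue 1 i)ᵀ)) - 1) with hΦ
  have hsum := sum_val (A : ℂ) hA hv hhh w Φ (if i = j then dd A else 1) 1 (by
    rw [hΦ]
    simp only [Matrix.one_mul]
    have h3 := ht0 ⟨i, hi'⟩ ⟨j, hj'⟩
    simp only at h3
    rw [h3, Nat.log_pow (by norm_num)]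
    by_cases hij : i = j
    · simp [hij]
    · simp [hij]) (by
    intro l
    rw [hΦ]
    simp only
    have h3 := ht1 ⟨i, hi'⟩ ⟨j, hj'⟩
    simp only at h3
    have h4 : Matrix.trace (2 ^ l • hh * glue 1 j * (glue 1 i)ᵀ) = 2 ^ (l + 1) := by
      rw [Matrix.smul_mul, Matrix.smul_mul, Matrix.trace_smul]
      unfold hh
      rw [h3, smul_eq_mul, pow_succ]
    rw [h4, Nat.log_pow (by norm_num), Nat.add_sub_cancel, mul_one])
  rw [mul_one] at hsum
  rw [← hsum]
  unfold bracket evl sumSt
  rw [map_sum, Fintype.sum_prod_type]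
  apply Finset.sum_congr rfl
  intro s _
  have : Unique (Fin (dia1 i w j).short.length → Bool) :=
    inferInstanceAs (Unique (Fin 0 → Bool))
  rw [Fintype.sum_unique]
  obtain ⟨s0, hs0⟩ : ∃ s0, s0 = this.default := ⟨_, rfl⟩
  rw [← hs0]
  have hc := h1 (dia1 i w j) (State.joins (s, s0))
  have hc2 : (List.ofFn fun t => slab (dia1 i w j).n ((dia1 i w j).short.get t).1
      ((State.joins (s, s0)).2 t)).prod = 1 := rfl
  rw [hc2, Matrix.mul_one] at hc
  have hc3 : comps (dia1 i w j) (State.joins (s, s0)) = Nat.log 2 (Matrix.trace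
      ((List.ofFn fun t => slab 2 ((sh w).get t).1 (smooth ((sh w).get t).2 (s t))).prod *
        glue 1 j * (glue 1 i)ᵀ)) := by
    have h4 := congrArg (Nat.log 2) hc
    rw [Nat.log_pow (by norm_num)] at h4
    exact h4
  rw [map_mul, map_pow, LaurentPolynomial.eval₂_T]
  have h5 : (LaurentPolynomial.eval₂ (Int.castRingHom ℂ) A)
      (-LaurentPolynomial.T 2 - LaurentPolynomial.T (-2)) = dd A := by
    rw [map_sub, map_neg, LaurentPolynomial.eval₂_T, LaurentPolynomial.eval₂_T]
    unfold dd
    simp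
  rw [h5]
  change ((A ^ (∑ t, sg (s t) + ∑ t, sg (s0 t)) : ℂˣ) : ℂ) *
    dd A ^ (comps (dia1 i w j) (State.joins (s, s0)) - 1) = _
  rw [hc3]
  have h6 : ∑ t : Fin (dia1 i w j).short.length, sg (s0 t) = 0 := by
    change ∑ t : Fin 0, _ = _
    exact Fin.sum_univ_zero _
  rw [h6, add_zero, Units.val_zpow_eq_zpow_val]
  rfl

end Pool.Agent.KB3
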