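import Pool.Agent.KB3.St

/-!
# Closures of braidoids on three strands: module T1, two strands
-/

set_option autoImplicit false

namespace Pool.Agent.KB3

theorem thm_T1 (h0 : St_Kap) : St_T1 := by
  obtain ⟨h1, -, h3, -⟩ := h0
  intro w
  obtain ⟨A, hA⟩ := IsAlgClosed.exists_pow_nat_eq (-1 : ℂ) (n := 4) (by norm_num)
  obtain ⟨k, hk⟩ : ∃ k : ℤ, k = ex1 w := ⟨_, rfl⟩
  rw [← hk]
  have hne : ∀ B : ℂ, B ^ 4 = -1 → B ≠ 0 := by
    rintro B hB rfl
    norm_num at hB
  have hcc : ∀ B : ℂ, B ^ 4 = -1 → cc B w = - (B ^ k * B ^ 2 * k) := by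
    intro B hB
    rw [h1 B (-1) (hne B hB) (by rw [hB]; norm_num) w, h3, ← hk]
    ring
  have hpow : ∀ B : ℂ, B ≠ 0 → (-B ^ 3) ^ k = B ^ k * ((-1) ^ k * (B ^ 2) ^ k) := by
    intro B hB
    rw [show -B ^ 3 = B * (-1 * B ^ 2) by ring, mul_zpow, mul_zpow]
  constructor
  · intro h
    have hA0 := hne A hA
    have e1 := h A hA0
    have hdd : dd A = 0 := by
      rw [dd]
      field_simp
      linear_combination -hA
    rw [hcc A hA, hdd, hpow A hA0] at e1
    have hx : A ^ k ≠ 0 := zpow_ne_zero k hA0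
    have e2 : A ^ 2 * (k : ℂ) = - ((-1) ^ k * (A ^ 2) ^ k) := by
      apply mul_left_cancel₀ hx
      linear_combination -e1
    have hnorm : ‖A‖ = 1 := by
      have e3 : ‖A‖ ^ 4 = 1 := by
        rw [← norm_pow, hA, norm_neg, norm_one]
      exact (pow_eq_one_iff_of_nonneg (norm_nonneg A) (by norm_num)).1 e3
    have e4 := congrArg (fun z : ℂ => ‖z‖) e2
    simp only [norm_mul, norm_neg, norm_zpow, norm_pow, norm_one, hnorm, one_pow, one_zpow,
      one_mul, mul_one] at e4
    rw [Complex.norm_intCast] at e4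
    have e5 : |k| = 1 := by exact_mod_cast e4
    rcases abs_eq (zero_le_one) |>.1 e5 with h6 | h6
    · exact Or.inl h6
    · exact Or.inr h6
  · intro h
    have key : ∀ B : ℂ, B ^ 4 = -1 → 1 - B ^ 2 * (k : ℂ) = (-1) ^ k * (B ^ 2) ^ k := by
      intro B hB
      have hB0 := hne B hB
      have e1 := h B hB0
      rw [hcc B hB, hpow B hB0] at e1
      apply mul_left_cancel₀ (zpow_ne_zero k hB0)
      linear_combination e1
    have hI : (Complex.I * A) ^ 4 = -1 := by
      rw [mul_pow, Complex.I_pow_four, one_mul, hA]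
    have k1 := key A hA
    have k2 := key (Complex.I * A) hI
    have hI2 : (Complex.I * A) ^ 2 = -1 * A ^ 2 := by
      rw [mul_pow, Complex.I_sq]
    rw [hI2, mul_zpow, ← mul_assoc, ← mul_zpow, neg_mul_neg, one_mul, one_zpow, one_mul] at k2
    have hA2 : A ^ 2 ≠ 0 := pow_ne_zero 2 (hne A hA)
    rcases Int.even_or_odd k with hev | hodd
    · rw [hev.neg_one_zpow, one_mul] at k1
      have e1 : A ^ 2 * (k : ℂ) = 0 := by linear_combination (1 / 2 : ℂ) * (k2 - k1)
      rcases mul_eq_zero.1 e1 with e2 | e2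
      · exact absurd e2 hA2
      · exact_mod_cast e2
    · rw [hodd.neg_one_zpow] at k1
      exfalso
      have e1 : (2 : ℂ) = 0 := by linear_combination k1 + k2
      norm_num at e1

end Pool.Agent.KB3
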