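import Pool.Agent.KB3.St

/-!
# KB3, module TA: closures with the ends at the positions 0 and 2
-/

set_option autoImplicit false

namespace Pool.Agent.KB3

private theorem ta_first (h1 : St_Bur) (u : W)
    (H : ∀ A : ℂ, A ≠ 0 → F0 0 2 A (vec A u) = (-A ^ 3) ^ ex u) (t A : ℂ) (hA : A ≠ 0)
    (ht : t * A ^ 4 = 1) :
    ((1 + t + t ^ 2) - t * ((1 + t) * Psi t u 0 1 + Psi t u 0 0 - 1)) +
      A ^ 2 * ((1 + t + t ^ 2) * Psi t u 1 0 -
        t * ((1 + t) * (Psi t u 0 0 - 1) + t * Psi t u 0 1)) =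
      (1 + t + t ^ 2) * ((-1) ^ ex u * (A ^ 2) ^ ex u) := by
  obtain ⟨b0, b1, b2, b3, b4⟩ := h1 A t hA ht u
  have hF := H A hA
  have e1 : F0 0 2 A (vec A u) = vec A u 0 + vec A u 1 + vec A u 2 + vec A u 3 +
      vec A u 4 * dd A := by
    unfold F0
    rw [Fin.sum_univ_five]
    simp [e0]
  have e2 : (-A ^ 3 : ℂ) ^ ex u = (-1) ^ ex u * (A ^ 2) ^ ex u * A ^ ex u := by
    rw [← mul_zpow, ← mul_zpow]
    congr 1
    ring
  have e3 : dd A = -A ^ 2 - A ^ 2 * t := by
    unfold dd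
    have : (A ^ 2)⁻¹ = A ^ 2 * t := by
      rw [inv_eq_iff_eq_inv, eq_comm, inv_eq_iff_eq_inv]
      rw [eq_comm, inv_eq_of_mul_eq_one_right]
      linear_combination ht
    rw [this]
  rw [e1, e2, e3] at hF
  have hAa : A ^ ex u ≠ 0 := zpow_ne_zero _ hA
  apply mul_left_cancel₀ hAa
  linear_combination (1 + t + t ^ 2) * hF - (1 + t + t ^ 2) * b0 - b1 - b2 - b3 +
    (A ^ 2 + A ^ 2 * t) * b4

private theorem ta_both (h1 : St_Bur) (u : W)
    (H : ∀ A : ℂ, A ≠ 0 → F0 0 2 A (vec A u) = (-A ^ 3) ^ ex u) (t A : ℂ) (hA : A ≠ 0)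
    (ht : t * A ^ 4 = 1) :
    ((1 + t + t ^ 2) - t * ((1 + t) * Psi t u 0 1 + Psi t u 0 0 - 1)) -
      A ^ 2 * ((1 + t + t ^ 2) * Psi t u 1 0 -
        t * ((1 + t) * (Psi t u 0 0 - 1) + t * Psi t u 0 1)) =
      (1 + t + t ^ 2) * (A ^ 2) ^ ex u := by
  have hI : Complex.I ^ 2 = -1 := Complex.I_sq
  have h2 := ta_first h1 u H t (Complex.I * A) (mul_ne_zero Complex.I_ne_zero hA) (by
    linear_combination ht + t * A ^ 4 * (Complex.I ^ 2 - 1) * hI)
  have e1 : (Complex.I * A) ^ 2 = (-1) * A ^ 2 := by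
    linear_combination A ^ 2 * hI
  have e2 : ((-1 : ℂ) * A ^ 2) ^ ex u = (-1) ^ ex u * (A ^ 2) ^ ex u := mul_zpow _ _ _
  have e3 : (-1 : ℂ) ^ ex u * (-1) ^ ex u = 1 := by
    rw [← mul_zpow]
    norm_num
  rw [e1, e2] at h2
  linear_combination h2 + (1 + t + t ^ 2) * (A ^ 2) ^ ex u * e3

private theorem ta_powx {M : Type} [Monoid M] (F : B3 →* M) (g : ℤ → M) (h0 : g 0 = 1)
    (hs : ∀ n : ℤ, g (n + 1) = g n * F xx) (hp : ∀ n : ℤ, g (n - 1) = g n * F xx⁻¹) (m : ℤ) :
    F (xx ^ m) = g m := by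
  induction m using Int.induction_on with
  | zero => rw [zpow_zero, map_one, h0]
  | succ n ih => rw [zpow_add_one, map_mul, ih, hs]
  | pred n ih => rw [zpow_sub_one, map_mul, ih, hp]

private theorem ta_powy {M : Type} [Monoid M] (F : B3 →* M) (g : ℤ → M) (h0 : g 0 = 1)
    (hs : ∀ n : ℤ, g (n + 1) = g n * F yy) (hp : ∀ n : ℤ, g (n - 1) = g n * F yy⁻¹) (m : ℤ) :
    F (yy ^ m) = g m := by
  induction m using Int.induction_on with
  | zero => rw [zpow_zero, map_one, h0]
  | succ n ih => rw [zpow_add_one, map_mul, ih, hs]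
  | pred n ih => rw [zpow_sub_one, map_mul, ih, hp]

private theorem ta_rowx (F : B3 →* Matrix (Fin 2) (Fin 2) ℂ)
    (hx : F xx = !![-2, 1; 0, 1]) (hx' : F xx⁻¹ = !![-(2 : ℂ)⁻¹, (2 : ℂ)⁻¹; 0, 1]) (m : ℤ) :
    F (xx ^ m) 0 0 + 3 * F (xx ^ m) 0 1 = 1 := by
  induction m using Int.induction_on with
  | zero => rw [zpow_zero, map_one]; simp
  | succ n ih =>
    rw [zpow_add_one, map_mul, hx]
    simp only [Matrix.mul_apply, Fin.sum_univ_two, Matrix.of_apply, Matrix.cons_val', Matrix.cons_val_zero,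
      Matrix.cons_val_one, Matrix.cons_val_fin_one]
    linear_combination ih
  | pred n ih =>
    rw [zpow_sub_one, map_mul, hx']
    simp only [Matrix.mul_apply, Fin.sum_univ_two, Matrix.of_apply, Matrix.cons_val', Matrix.cons_val_zero,
      Matrix.cons_val_one, Matrix.cons_val_fin_one]
    linear_combination ih

private theorem ta_rowy (F : B3 →* Matrix (Fin 2) (Fin 2) ℂ)
    (hy : F yy = !![1, 0; 2, -2]) (hy' : F yy⁻¹ = !![1, 0; 1, -(2 : ℂ)⁻¹]) (m : ℤ) :
    F (yy ^ m) 0 0 = 1 ∧ F (yy ^ m) 0 1 = 0 := by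
  induction m using Int.induction_on with
  | zero => rw [zpow_zero, map_one]; simp
  | succ n ih =>
    rw [zpow_add_one, map_mul, hy]
    simp only [Matrix.mul_apply, Fin.sum_univ_two, Matrix.of_apply, Matrix.cons_val', Matrix.cons_val_zero,
      Matrix.cons_val_one, Matrix.cons_val_fin_one]
    rw [ih.1, ih.2]
    constructor <;> ring
  | pred n ih =>
    rw [zpow_sub_one, map_mul, hy']
    simp only [Matrix.mul_apply, Fin.sum_univ_two, Matrix.of_apply, Matrix.cons_val', Matrix.cons_val_zero,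
      Matrix.cons_val_one, Matrix.cons_val_fin_one]
    rw [ih.1, ih.2]
    constructor <;> ring

private theorem ta_pow8 (l : ℤ) (h : (9 : ℂ) - 2 * 8 ^ l = 7 * (8 ^ l)⁻¹) : l = 0 := by
  have h8 : ((8 : ℝ) ^ l) ≠ 0 := zpow_ne_zero _ (by norm_num)
  have h1 : (9 : ℝ) - 2 * 8 ^ l = 7 * (8 ^ l)⁻¹ := by
    have e : (8 : ℂ) ^ l = (((8 : ℝ) ^ l : ℝ) : ℂ) := by push_cast; rfl
    rw [e] at h
    exact_mod_cast h
  have h2 : ((8 : ℝ) ^ l - 1) * (2 * 8 ^ l - 7) = 0 := by
    field_simp at h1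
    linear_combination -h1
  rcases mul_eq_zero.1 h2 with h3 | h3
  · have h4 : (8 : ℝ) ^ l = 8 ^ (0 : ℤ) := by rw [zpow_zero]; linarith
    exact zpow_right_injective₀ (by norm_num) (by norm_num) h4
  · exfalso
    rcases lt_trichotomy l 0 with hl | hl | hl
    · have : (8 : ℝ) ^ l < 8 ^ (0 : ℤ) := zpow_lt_zpow_right₀ (by norm_num) hl
      rw [zpow_zero] at this
      linarith
    · rw [hl, zpow_zero] at h3
      norm_num at h3
    · have : (8 : ℝ) ^ (1 : ℤ) ≤ 8 ^ l := zpow_le_zpow_right₀ (by norm_num) (by omega)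
      rw [zpow_one] at this
      linarith

theorem thm_TA (h1 : St_Bur) (h2 : St_Int) (h3 : St_Hom) (h4 : St_Ker) : St_TA := by
  intro u H
  obtain ⟨hcast, hdet, -⟩ := h2
  obtain ⟨hF, ⟨G, hG, -⟩, E, hE, hEz⟩ := h3
  obtain ⟨A, hA4⟩ := IsAlgClosed.exists_pow_nat_eq (-1 : ℂ) (n := 4) (by norm_num)
  have hA0 : A ≠ 0 := by
    rintro rfl
    norm_num at hA4
  have hA2 : A ^ 2 ≠ 0 := pow_ne_zero 2 hA0
  have k1 := ta_first h1 u H (-1) A hA0 (by linear_combination -hA4)
  have k2 := ta_both h1 u H (-1) A hA0 (by linear_combination -hA4)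
  rw [hcast u] at k1 k2
  simp only [Matrix.map_apply] at k1 k2
  have hd := hdet u
  rw [Matrix.det_fin_two] at hd
  set P := psi u 0 0 with hP
  set Q := psi u 0 1 with hQ
  set R := psi u 1 0 with hR
  set S := psi u 1 1 with hS
  rcases Int.even_or_odd' (ex u) with ⟨b, hb | hb⟩
  · -- even exponent sum
    have e1 : (A ^ 2) ^ ex u = (-1 : ℂ) ^ b := by
      rw [hb, _root_.zpow_mul, zpow_ofNat, ← pow_mul, hA4]
    have e2 : (-1 : ℂ) ^ ex u = 1 := by
      rw [hb, _root_.zpow_mul]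
      norm_num
    rw [e1, e2] at k1
    rw [e1] at k2
    have e3 : (P : ℂ) = (-1) ^ b := by
      linear_combination (1 / 2) * k1 + (1 / 2) * k2
    have e4 : A ^ 2 * ((R : ℂ) - Q) = 0 := by
      linear_combination (1 / 2) * k1 - (1 / 2) * k2
    have e5 : R = Q := by
      have := (mul_eq_zero.1 e4).resolve_left hA2
      exact_mod_cast sub_eq_zero.1 this
    have e6 : P = 1 ∨ P = -1 := by
      rcases Int.even_or_odd b with hb' | hb'
      · left
        rw [hb'.neg_one_zpow] at e3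
        exact_mod_cast e3
      · right
        rw [hb'.neg_one_zpow] at e3
        exact_mod_cast e3
    set m := P * Q with hm
    obtain ⟨v, hv⟩ := cl_surj (yy ^ (-m) * xx ^ m)
    have hGx : G xx = !![1, 1; 0, 1] := by
      rw [xx, hG]
      simp [psi, gen1]
    have hGx' : G xx⁻¹ = !![1, -1; 0, 1] := by
      rw [← cl_x', hG]
      simp [psi, gen1]
    have hGy : G yy = !![1, 0; -1, 1] := by
      rw [yy, hG]
      simp [psi, gen1]
    have hGy' : G yy⁻¹ = !![1, 0; 1, 1] := by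
      rw [← cl_y', hG]
      simp [psi, gen1]
    have hxm : ∀ n : ℤ, G (xx ^ n) = !![1, n; 0, 1] := by
      intro n
      refine ta_powx G (fun n => !![1, n; 0, 1]) ?_ ?_ ?_ n
      · rw [Matrix.one_fin_two]
      · intro n
        rw [hGx, Matrix.mul_fin_two]
        simp [add_comm]
      · intro n
        rw [hGx', Matrix.mul_fin_two]
        simp
        ring
    have hym : ∀ n : ℤ, G (yy ^ n) = !![1, 0; -n, 1] := by
      intro n
      refine ta_powy G (fun n => !![1, 0; -n, 1]) ?_ ?_ ?_ n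
      · rw [neg_zero, Matrix.one_fin_two]
      · intro n
        rw [hGy, Matrix.mul_fin_two]
        simp
        ring
      · intro n
        rw [hGy', Matrix.mul_fin_two]
        simp
        ring
    have hpv : psi v = !![1, m; m, m * m + 1] := by
      rw [← hG, hv, map_mul, hxm, hym, Matrix.mul_fin_two]
      simp
    have hpu : psi u = !![P, Q; R, S] := by
      rw [hP, hQ, hR, hS]
      exact Matrix.eta_fin_two _
    have hPP : P * P = 1 := by
      rcases e6 with h | h <;> rw [h] <;> norm_num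
    have hSv : S = P * (1 + Q * Q) := by
      rw [e5] at hd
      linear_combination P * hd - S * hPP
    have hker : psi u = psi v ∨ psi u = -psi v := by
      rw [hpv, hpu]
      rcases e6 with h | h
      · left
        rw [hSv, e5, hm, h]
        congr 1
        ring_nf
      · right
        rw [hSv, e5, hm, h]
        ext i j
        fin_cases i <;> fin_cases j <;> simp
        ring
    obtain ⟨l, hl⟩ := h4 u v hker
    have hexv : ex v = 0 := by
      have h5 := hE v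
      rw [hv, map_mul, map_zpow, map_zpow] at h5
      have hx1 : (E xx).toAdd = 1 := by
        rw [xx, hE]
        simp [ex, sg]
      have hy1 : (E yy).toAdd = 1 := by
        rw [yy, hE]
        simp [ex, sg]
      rw [toAdd_mul, toAdd_zpow, toAdd_zpow, hx1, hy1] at h5
      simp at h5
      exact h5.symm
    have hexu : ex u = 6 * l := by
      have h5 := hE u
      rw [hl, map_mul, toAdd_mul, hE, hEz, hexv, zero_add] at h5
      exact h5.symm
    -- evaluation at t = 2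
    obtain ⟨B, hB4⟩ := IsAlgClosed.exists_pow_nat_eq (1 / 2 : ℂ) (n := 4) (by norm_num)
    have hB0 : B ≠ 0 := by
      rintro rfl
      norm_num at hB4
    have k3 := ta_first h1 u H 2 B hB0 (by rw [hB4]; norm_num)
    have k4 := ta_both h1 u H 2 B hB0 (by rw [hB4]; norm_num)
    have e7 : (-1 : ℂ) ^ ex u = 1 := e2
    have e8 : (B ^ 2) ^ ex u = ((8 : ℂ) ^ l)⁻¹ := by
      rw [hexu, _root_.zpow_mul, ← inv_zpow]
      congr 1
      have h6 : (6 : ℤ) = ((6 : ℕ) : ℤ) := rfl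
      rw [h6, zpow_natCast]
      calc (B ^ 2) ^ 6 = (B ^ 4) ^ 3 := by ring
        _ = 8⁻¹ := by rw [hB4]; norm_num
    obtain ⟨F, hFu, hFz⟩ := hF 2 (by norm_num)
    have hFx : F xx = !![-2, 1; 0, 1] := by
      rw [xx, hFu]
      simp [Psi, gen]
    have hFx' : F xx⁻¹ = !![-(2 : ℂ)⁻¹, (2 : ℂ)⁻¹; 0, 1] := by
      rw [← cl_x', hFu]
      simp [Psi, gen]
    have hFy : F yy = !![1, 0; 2, -2] := by
      rw [yy, hFu]
      simp [Psi, gen]
    have hFy' : F yy⁻¹ = !![1, 0; 1, -(2 : ℂ)⁻¹] := by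
      rw [← cl_y', hFu]
      simp [Psi, gen]
    have h8 : ((2 : ℂ) ^ 3) ^ l = 8 ^ l := by norm_num
    have hrow : Psi 2 u 0 0 + 3 * Psi 2 u 0 1 = 8 ^ l := by
      rw [← hFu, hl, map_mul, hFz, hv, map_mul, Matrix.mul_smul, Matrix.mul_one]
      have hy := ta_rowy F hFy hFy' (-m)
      have hx := ta_rowx F hFx hFx' m
      rw [Matrix.smul_apply, Matrix.smul_apply, Matrix.mul_apply, Matrix.mul_apply,
        Fin.sum_univ_two, Fin.sum_univ_two, hy.1, hy.2, smul_eq_mul, smul_eq_mul, h8]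
      linear_combination (8 : ℂ) ^ l * hx
    rw [e7, e8] at k3
    rw [e8] at k4
    have h9 : (9 : ℂ) - 2 * 8 ^ l = 7 * (8 ^ l)⁻¹ := by
      linear_combination (1 / 2) * k3 + (1 / 2) * k4 + 2 * hrow
    have hl0 := ta_pow8 l h9
    refine ⟨m, ?_⟩
    rw [hl, hl0, zpow_zero, mul_one, hv]
  · -- odd exponent sum
    exfalso
    have e1 : (A ^ 2) ^ ex u = A ^ 2 * (-1 : ℂ) ^ b := by
      rw [hb, zpow_add₀ hA2, zpow_one, _root_.zpow_mul, zpow_ofNat, ← pow_mul, hA4, mul_comm]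
    have e2 : (-1 : ℂ) ^ ex u = -1 := by
      rw [hb, zpow_add₀ (by norm_num), zpow_one, _root_.zpow_mul]
      norm_num
    rw [e1, e2] at k1
    rw [e1] at k2
    have e3 : (P : ℂ) = 0 := by
      linear_combination (1 / 2) * k1 + (1 / 2) * k2
    have e4 : A ^ 2 * (((R : ℂ) - Q) + (-1) ^ b) = 0 := by
      linear_combination (1 / 2) * k1 - (1 / 2) * k2
    have e5 := (mul_eq_zero.1 e4).resolve_left hA2
    have hP0 : P = 0 := by exact_mod_cast e3
    rw [hP0, zero_mul, zero_sub] at hd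
    have e6 : R - Q = 1 ∨ R - Q = -1 := by
      rcases Int.even_or_odd b with hb' | hb'
      · right
        rw [hb'.neg_one_zpow] at e5
        have : ((R - Q + 1 : ℤ) : ℂ) = 0 := by push_cast; exact e5
        have := Int.cast_eq_zero.1 this
        omega
      · left
        rw [hb'.neg_one_zpow] at e5
        have : ((R - Q + -1 : ℤ) : ℂ) = 0 := by push_cast; exact e5
        have := Int.cast_eq_zero.1 this
        omega
    have hQR : Q * R = -1 := by linarith
    rcases Int.mul_eq_neg_one_iff_eq_one_or_neg_one.1 hQR with ⟨h, h'⟩ | ⟨h, h'⟩ <;>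
      rcases e6 with h6 | h6 <;> rw [h, h'] at h6 <;> norm_num at h6

end Pool.Agent.KB3
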