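import Pool.Agent.KB3.St

/-!
# The equation for the ends at `0` and `1`
-/

set_option autoImplicit false

namespace Pool.Agent.KB3

open Matrix

/-- the two equations obtained from `A` and `i A` -/
private theorem tb_eqs (h1 : St_Bur) (u : W)
    (h : ∀ A : ℂ, A ≠ 0 → F0 0 1 A (vec A u) = (-A ^ 3) ^ ex u) (A t : ℂ) (hA : A ≠ 0)
    (ht : t * A ^ 4 = 1) :
    ((-1 : ℂ) ^ ex u) * (1 + t + t ^ 2) * A ^ (2 * ex u) =
      ((1 + t + t ^ 2) * (Psi t u 0 0 - 1) - ((1 + t) * Psi t u 1 0 + t * (Psi t u 1 1 - 1))) -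
        A ^ 2 * (t * ((1 + t) * (Psi t u 1 1 - 1) + Psi t u 1 0) + (1 + t) * (1 + t + t ^ 2)) := by
  obtain ⟨e0', e1', e2', e3', e4'⟩ := h1 A t hA ht u
  have hF : F0 0 1 A (vec A u) = vec A u 0 * dd A + vec A u 1 * dd A + vec A u 2 + vec A u 3 +
      vec A u 4 := by
    unfold F0 e0
    simp [Fin.sum_univ_five]
  have hh := h A hA
  rw [hF] at hh
  have hd : dd A = -A ^ 2 * (1 + t) := by
    unfold dd
    have : (A ^ 2)⁻¹ = A ^ 2 * t := by
      field_simp
      linear_combination -ht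
    rw [this]; ring
  have hp : (-A ^ 3) ^ ex u = (-1 : ℂ) ^ ex u * A ^ (2 * ex u) * A ^ ex u := by
    have : (-A ^ 3) = (-1 : ℂ) * (A ^ (2 : ℤ) * A ^ (1 : ℤ)) := by
      rw [← zpow_add₀ hA]
      norm_num
    rw [this, mul_zpow, mul_zpow, ← _root_.zpow_mul, ← _root_.zpow_mul, one_mul, mul_assoc]
  rw [hp] at hh
  have hz : A ^ ex u ≠ 0 := zpow_ne_zero _ hA
  apply mul_right_cancel₀ hz
  rw [hd] at hh
  rw [e0'] at hh
  have k : (1 + t + t ^ 2) * ((-1 : ℂ) ^ ex u * A ^ (2 * ex u) * A ^ ex u) =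
      (1 + t + t ^ 2) * (A ^ ex u * (-A ^ 2 * (1 + t))) +
        ((1 + t + t ^ 2) * vec A u 1) * (-A ^ 2 * (1 + t)) +
        (1 + t + t ^ 2) * vec A u 2 + (1 + t + t ^ 2) * vec A u 3 +
        (1 + t + t ^ 2) * vec A u 4 := by
    rw [← hh]; ring
  rw [e1', e2', e3', e4'] at k
  linear_combination k + (A ^ ex u * (1 + t) * ((1 + t) * (Psi t u 0 0 - 1) + t * Psi t u 0 1)) * ht

/-- a homomorphism on powers of `xx` for `t = -1` -/
private theorem tb_pow1 (F : B3 →* Matrix (Fin 2) (Fin 2) ℤ) (hF : ∀ u, F (cl u) = psi u) (c : ℤ) :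
    F (xx ^ c) = !![1, c; 0, 1] := by
  have hx : F xx = !![1, 1; 0, 1] := by
    unfold xx; rw [hF]; simp [psi, gen1]
  have hx' : F xx⁻¹ = !![1, -1; 0, 1] := by
    rw [← cl_x', hF]; simp [psi, gen1]
  induction c using Int.induction_on with
  | zero => rw [zpow_zero, map_one]; exact Matrix.one_fin_two
  | succ n ih =>
    rw [_root_.zpow_add_one, map_mul, ih, hx]
    ext i j
    fin_cases i <;> fin_cases j <;> simp [Matrix.mul_apply, Fin.sum_univ_two] <;> ring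
  | pred n ih =>
    rw [_root_.zpow_sub_one, map_mul, ih, hx']
    ext i j
    fin_cases i <;> fin_cases j <;> simp [Matrix.mul_apply, Fin.sum_univ_two] <;> ring

private theorem tb_conj1 (F : B3 →* Matrix (Fin 2) (Fin 2) ℤ) (hF : ∀ u, F (cl u) = psi u)
    (c η : ℤ) (hη : η = 1 ∨ η = -1) :
    F (xx ^ c * yy ^ η * xx ^ (-c)) = !![1 - c * η, c ^ 2 * η; -η, 1 + c * η] := by
  have hy : F (yy ^ η) = !![1, 0; -η, 1] := by
    rcases hη with rfl | rfl
    · rw [zpow_one]; unfold yy; rw [hF]; simp [psi, gen1]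
    · rw [_root_.zpow_neg_one, ← cl_y', hF]; simp [psi, gen1]
  rw [map_mul, map_mul, tb_pow1 F hF, tb_pow1 F hF, hy]
  ext i j
  fin_cases i <;> fin_cases j <;> simp [Matrix.mul_apply, Fin.sum_univ_two] <;> ring

/-- a homomorphism on powers of `xx` for `t = 2` -/
private theorem tb_pow2 (F : B3 →* Matrix (Fin 2) (Fin 2) ℂ) (hF : ∀ u, F (cl u) = Psi 2 u)
    (c : ℤ) : F (xx ^ c) = !![(-2) ^ c, (1 - (-2) ^ c) / 3; 0, 1] := by
  have hx : F xx = !![-2, 1; 0, 1] := by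
    unfold xx; rw [hF]; simp [Psi, gen]
  have hx' : F xx⁻¹ = !![-2⁻¹, 2⁻¹; 0, 1] := by
    rw [← cl_x', hF]; simp [Psi, gen]
  have h2 : (-2 : ℂ) ≠ 0 := by norm_num
  induction c using Int.induction_on with
  | zero =>
    rw [zpow_zero, map_one, Matrix.one_fin_two]
    simp
  | succ n ih =>
    rw [_root_.zpow_add_one, map_mul, ih, hx, zpow_add_one₀ h2]
    ext i j
    fin_cases i <;> fin_cases j <;> simp [Matrix.mul_apply, Fin.sum_univ_two] <;> ring
  | pred n ih =>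
    rw [_root_.zpow_sub_one, map_mul, ih, hx', zpow_sub_one₀ h2]
    ext i j
    fin_cases i <;> fin_cases j <;> simp [Matrix.mul_apply, Fin.sum_univ_two] <;> ring

private theorem tb_conj2 (F : B3 →* Matrix (Fin 2) (Fin 2) ℂ) (hF : ∀ u, F (cl u) = Psi 2 u)
    (c η : ℤ) (hη : η = 1 ∨ η = -1) :
    7 * F (xx ^ c * yy ^ η * xx ^ (-c)) 0 0 - 3 * F (xx ^ c * yy ^ η * xx ^ (-c)) 1 0 -
      2 * F (xx ^ c * yy ^ η * xx ^ (-c)) 1 1 = 5 := by
  have h2 : (-2 : ℂ) ^ c ≠ 0 := zpow_ne_zero _ (by norm_num)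
  rw [map_mul, map_mul, tb_pow2 F hF, tb_pow2 F hF, _root_.zpow_neg]
  rcases hη with rfl | rfl
  · have hy : F (yy ^ (1 : ℤ)) = !![1, 0; 2, -2] := by
      rw [zpow_one]; unfold yy; rw [hF]; simp [Psi, gen]
    rw [hy]
    simp [Matrix.mul_apply, Fin.sum_univ_two]
    field_simp
    ring
  · have hy : F (yy ^ (-1 : ℤ)) = !![1, 0; 1, -2⁻¹] := by
      rw [_root_.zpow_neg_one, ← cl_y', hF]; simp [Psi, gen]
    rw [hy]
    simp [Matrix.mul_apply, Fin.sum_univ_two]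
    field_simp
    ring

theorem thm_TB (h1 : St_Bur) (h2 : St_Int) (h3 : St_Hom) (h4 : St_Ker) : St_TB := by
  intro u h
  obtain ⟨i1, i2, -⟩ := h2
  obtain ⟨hom1, ⟨G, hG, -⟩, -⟩ := h3
  obtain ⟨F, hF, hFz⟩ := hom1 2 (by norm_num)
  -- the parity of the exponent sum
  obtain ⟨A, hA⟩ := IsAlgClosed.exists_pow_nat_eq (-1 : ℂ) (n := 4) (by norm_num)
  have hA0 : A ≠ 0 := by
    rintro rfl
    norm_num at hA
  have hI : Complex.I * A ≠ 0 := mul_ne_zero Complex.I_ne_zero hA0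
  have hIA : (Complex.I * A) ^ 4 = -1 := by rw [mul_pow, Complex.I_pow_four, hA, one_mul]
  have E1 := tb_eqs h1 u h A (-1) hA0 (by rw [hA]; norm_num)
  have E2 := tb_eqs h1 u h (Complex.I * A) (-1) hI (by rw [hIA]; norm_num)
  rw [i1 u] at E1 E2
  simp only [Matrix.map_apply] at E1 E2
  have hdet := i2 u
  rw [Matrix.det_fin_two] at hdet
  have hI2 : (Complex.I * A) ^ 2 = -A ^ 2 := by rw [mul_pow, Complex.I_sq]; ring
  rw [hI2] at E2
  have key : ∀ (B : ℂ), B ≠ 0 → B ^ 4 = -1 → ∀ b : ℤ, B ^ (4 * b) = (-1) ^ b := by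
    intro B hB hB4 b
    have : B ^ (4 * b) = (B ^ (4 : ℤ)) ^ b := by rw [← _root_.zpow_mul]
    rw [this]
    have h5 : B ^ (4 : ℤ) = B ^ 4 := by norm_cast
    rw [h5, hB4]
  have hsq : ∀ b : ℤ, ((-1 : ℂ) ^ b) = 1 ∨ ((-1 : ℂ) ^ b) = -1 := by
    intro b
    rcases Int.even_or_odd b with hb | hb
    · left; exact hb.neg_one_zpow
    · right; exact hb.neg_one_zpow
  rcases Int.even_or_odd' (ex u) with ⟨b, hb | hb⟩
  · exfalso
    have hev : Even (ex u) := ⟨b, by rw [hb]; ring⟩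
    rw [hev.neg_one_zpow, hb, show 2 * (2 * b) = 4 * b by ring] at E1 E2
    rw [key A hA0 hA b] at E1
    rw [key (Complex.I * A) hI hIA b] at E2
    have hR : A ^ 2 * (psi u 1 0 : ℂ) = 0 := by
      linear_combination (E2 - E1) / 2
    have hR0 : psi u 1 0 = 0 := by
      rcases mul_eq_zero.1 hR with h5 | h5
      · exact absurd h5 (pow_ne_zero _ hA0)
      · exact_mod_cast h5
    have hT : ((-1 : ℂ) ^ b) = (psi u 0 0 : ℂ) + (psi u 1 1 : ℂ) - 2 := by
      linear_combination (E1 + E2) / 2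
    rw [hR0, mul_zero, sub_zero] at hdet
    rcases Int.eq_one_or_neg_one_of_mul_eq_one' hdet with ⟨h5, h6⟩ | ⟨h5, h6⟩
    · rw [h5, h6] at hT
      rcases hsq b with h7 | h7 <;> rw [h7] at hT <;> norm_num at hT
    · rw [h5, h6] at hT
      rcases hsq b with h7 | h7 <;> rw [h7] at hT <;> norm_num at hT
  · have hod : Odd (ex u) := ⟨b, hb⟩
    have ha : ∀ B : ℂ, B ≠ 0 → B ^ 4 = -1 → B ^ (2 * ex u) = (-1) ^ b * B ^ 2 := by
      intro B hB hB4
      rw [hb, show 2 * (2 * b + 1) = 4 * b + 2 by ring, zpow_add₀ hB, key B hB hB4 b]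
      norm_cast
    rw [hod.neg_one_zpow] at E1 E2
    rw [ha A hA0 hA] at E1
    rw [ha (Complex.I * A) hI hIA, hI2] at E2
    have hT : (psi u 0 0 : ℂ) + (psi u 1 1 : ℂ) - 2 = 0 := by
      linear_combination -(E1 + E2) / 2
    have hT' : psi u 1 1 = 2 - psi u 0 0 := by
      have : (psi u 0 0 : ℂ) + (psi u 1 1 : ℂ) - 2 = ((psi u 0 0 + psi u 1 1 - 2 : ℤ) : ℂ) := by
        push_cast; ring
      rw [this] at hT
      have h5 : psi u 0 0 + psi u 1 1 - 2 = 0 := by exact_mod_cast hT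
      omega
    have hR : (psi u 1 0 : ℂ) = -(-1 : ℂ) ^ b := by
      have h5 : A ^ 2 * ((psi u 1 0 : ℂ) + (-1 : ℂ) ^ b) = 0 := by
        linear_combination (E2 - E1) / 2
      rcases mul_eq_zero.1 h5 with h6 | h6
      · exact absurd h6 (pow_ne_zero _ hA0)
      · linear_combination h6
    obtain ⟨η, hη, hR'⟩ : ∃ η : ℤ, (η = 1 ∨ η = -1) ∧ psi u 1 0 = -η := by
      rcases hsq b with h7 | h7
      · refine ⟨1, Or.inl rfl, ?_⟩
        rw [h7] at hR
        have : ((psi u 1 0 : ℤ) : ℂ) = ((-1 : ℤ) : ℂ) := by rw [hR]; norm_num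
        exact_mod_cast this
      · refine ⟨-1, Or.inr rfl, ?_⟩
        rw [h7] at hR
        have : ((psi u 1 0 : ℤ) : ℂ) = ((1 : ℤ) : ℂ) := by rw [hR]; norm_num
        rw [neg_neg]
        exact_mod_cast this
    have hηη : η * η = 1 := by rcases hη with rfl | rfl <;> norm_num
    refine ⟨η * (1 - psi u 0 0), η, hη, ?_⟩
    set c : ℤ := η * (1 - psi u 0 0) with hc
    obtain ⟨v, hv⟩ := cl_surj (xx ^ c * yy ^ η * xx ^ (-c))
    have hpsi : psi u = psi v := by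
      rw [← hG v, hv, tb_conj1 G hG c η hη]
      rw [hT', hR'] at hdet
      have e00 : psi u 0 0 = 1 - c * η := by
        rw [hc]; linear_combination (1 - psi u 0 0) * hηη
      have e11 : psi u 1 1 = 1 + c * η := by
        rw [hT', hc]; linear_combination -(1 - psi u 0 0) * hηη
      have e01 : psi u 0 1 = c ^ 2 * η := by
        rw [hc]
        linear_combination η * hdet - psi u 0 1 * hηη - η * (1 - psi u 0 0) ^ 2 * (hηη)
      ext i j
      fin_cases i <;> fin_cases j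
      · exact e00
      · exact e01
      · exact hR'
      · exact e11
    obtain ⟨l, hl⟩ := h4 u v (Or.inl hpsi)
    -- the equation at `t = 2`
    obtain ⟨B, hB⟩ := IsAlgClosed.exists_pow_nat_eq (1 / 2 : ℂ) (n := 4) (by norm_num)
    have hB0 : B ≠ 0 := by
      rintro rfl
      norm_num at hB
    have hIB : Complex.I * B ≠ 0 := mul_ne_zero Complex.I_ne_zero hB0
    have hIB4 : (Complex.I * B) ^ 4 = 1 / 2 := by rw [mul_pow, Complex.I_pow_four, hB, one_mul]
    have D1 := tb_eqs h1 u h B 2 hB0 (by rw [hB]; norm_num)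
    have D2 := tb_eqs h1 u h (Complex.I * B) 2 hIB (by rw [hIB4]; norm_num)
    have hIB2 : (Complex.I * B) ^ 2 = -B ^ 2 := by rw [mul_pow, Complex.I_sq]; ring
    have hIBu : (Complex.I * B) ^ (2 * ex u) = -B ^ (2 * ex u) := by
      have h5 : ∀ z : ℂ, z ^ (2 * ex u) = (z ^ 2) ^ ex u := by
        intro z
        rw [_root_.zpow_mul]
        norm_cast
      rw [h5, h5, hIB2, neg_eq_neg_one_mul, mul_zpow, hod.neg_one_zpow]
      ring
    rw [hIB2, hIBu] at D2
    have hphi : 7 * Psi 2 u 0 0 - 3 * Psi 2 u 1 0 - 2 * Psi 2 u 1 1 = 5 := by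
      linear_combination -(D1 + D2) / 2
    have hPu : Psi 2 u = ((2 : ℂ) ^ 3) ^ l • F (cl v) := by
      rw [← hF u, hl, map_mul, hFz]
      simp
    have hc2 := tb_conj2 F hF c η hη
    rw [← hv] at hc2
    rw [hPu] at hphi
    simp only [Matrix.smul_apply, smul_eq_mul] at hphi
    have h8 : ((2 : ℂ) ^ 3) ^ l = 1 := by
      linear_combination (1 / 5) * hphi - (1 / 5) * ((2 : ℂ) ^ 3) ^ l * hc2
    have hl0 : l = 0 := by
      have h9 : ((8 : ℝ)) ^ l = 1 := by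
        have : (((8 : ℝ) ^ l : ℝ) : ℂ) = ((1 : ℝ) : ℂ) := by
          push_cast
          rw [← h8]
          norm_num
        exact_mod_cast this
      by_contra hne
      rcases lt_or_gt_of_ne hne with h10 | h10
      · exact absurd h9 (zpow_lt_one_of_neg₀ (by norm_num) h10).ne
      · exact absurd h9 (one_lt_zpow₀ (by norm_num) h10).ne'
    rw [hl, hl0, zpow_zero, mul_one, hv]

end Pool.Agent.KB3
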