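import Pool.Agent.KB3.St

/-! KB3 module TC: both ends at `1`. -/

set_option autoImplicit false

namespace Pool.Agent.KB3

open Matrix

private theorem tc_F0 (A : ℂ) (v : Fin 5 → ℂ) :
    F0 1 1 A v = dd A ^ 2 * v 0 + dd A * v 1 + dd A * v 2 + v 3 + v 4 := by
  have h : e0 1 1 = ![2, 1, 1, 0, 0] := rfl
  unfold F0
  rw [h]
  simp [Fin.sum_univ_succ]
  ring

private theorem tc_F1 (A : ℂ) (v : Fin 5 → ℂ) :
    F1 1 1 A v = dd A * v 0 + v 1 + v 2 + v 3 + v 4 := by
  have h : e1 1 1 = ![1, 0, 0, 0, 0] := rfl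
  unfold F1
  rw [h]
  simp [Fin.sum_univ_succ]
  ring

private theorem tc_dd (A t : ℂ) (hA : A ≠ 0) (ht : t * A ^ 4 = 1) :
    dd A = -A ^ 2 * (1 + t) := by
  unfold dd
  have h : (A ^ 2)⁻¹ = t * A ^ 2 := by
    rw [inv_eq_iff_eq_inv, eq_comm, inv_eq_of_mul_eq_one_right]
    linear_combination ht
  rw [h]
  ring

/-- the numerator of `x + x'` -/
private def tcX (t P Q R S : ℂ) : ℂ := -t * ((1 + t) * Q + P - 1) - ((1 + t) * R + t * (S - 1))

/-- the numerator of `y + y'` -/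
private def tcY (t P Q R S : ℂ) : ℂ :=
  -t * ((1 + t) * (P - 1) + t * Q) - t * ((1 + t) * (S - 1) + R)

/-- the main identity, for indeterminates -/
private theorem tc_alg (A t κ a k v1 v2 v3 v4 P Q R S : ℂ) (ht : t * A ^ 4 = 1)
    (hv1 : (1 + t + t ^ 2) * v1 = -a * A ^ 2 * t * ((1 + t) * (P - 1) + t * Q))
    (hv2 : (1 + t + t ^ 2) * v2 = -a * A ^ 2 * t * ((1 + t) * (S - 1) + R))
    (hv3 : (1 + t + t ^ 2) * v3 = -a * t * ((1 + t) * Q + P - 1))
    (hv4 : (1 + t + t ^ 2) * v4 = -a * ((1 + t) * R + t * (S - 1))) :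
    (1 + t + t ^ 2) * (k * ((-A ^ 2 * (1 + t)) ^ 2 * a + (-A ^ 2 * (1 + t)) * v1 +
      (-A ^ 2 * (1 + t)) * v2 + v3 + v4) + k * A ^ 2 * t * κ *
        ((-A ^ 2 * (1 + t)) * a + v1 + v2 + v3 + v4)) =
    k * a * (((1 + t + t ^ 2) * (P + S + t + A ^ 4) +
      κ * (tcY t P Q R S - (1 + t + t ^ 2) * (1 + t))) + A ^ 2 * (t * κ * tcX t P Q R S)) := by
  unfold tcX tcY
  linear_combination (k * (-A ^ 2 * (1 + t)) + k * A ^ 2 * t * κ) * hv1 +
    (k * (-A ^ 2 * (1 + t)) + k * A ^ 2 * t * κ) * hv2 + (k + k * A ^ 2 * t * κ) * hv3 +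
    (k + k * A ^ 2 * t * κ) * hv4 +
    (k * a * ((1 + t + t ^ 2) * (2 + t) +
      (1 + t) * (((1 + t) * (P - 1) + t * Q) + ((1 + t) * (S - 1) + R)) -
      (1 + t) * κ * (1 + t + t ^ 2) -
      t * κ * (((1 + t) * (P - 1) + t * Q) + ((1 + t) * (S - 1) + R)))) * ht

/-- the equation for one value of `A` -/
private theorem tc_one (h0 : St_Kap) (h1 : St_Bur) (u : W) (w : List Bool)
    (h : ∀ A : ℂ, A ≠ 0 → A ^ ex1 w * F0 1 1 A (vec A u) + cc A w * F1 1 1 A (vec A u) =
      (-A ^ 3) ^ (ex u + ex1 w)) (A t : ℂ) (hA : A ≠ 0) (ht : t * A ^ 4 = 1) :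
    ((1 + t + t ^ 2) * (Psi t u 0 0 + Psi t u 1 1 + t + A ^ 4) +
      kap t w * (tcY t (Psi t u 0 0) (Psi t u 0 1) (Psi t u 1 0) (Psi t u 1 1) -
        (1 + t + t ^ 2) * (1 + t))) +
      A ^ 2 * (t * kap t w * tcX t (Psi t u 0 0) (Psi t u 0 1) (Psi t u 1 0) (Psi t u 1 1)) =
    (1 + t + t ^ 2) * (-A ^ 2) ^ (ex u + ex1 w) := by
  obtain ⟨b0, b1, b2, b3, b4⟩ := h1 A t hA ht u
  have hc := h0.1 A t hA ht w
  have h2 := h A hA
  rw [tc_F0, tc_F1, hc, tc_dd A t hA ht, b0] at h2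
  have hE : A ^ (ex u + ex1 w) ≠ 0 := zpow_ne_zero _ hA
  have h3 := tc_alg A t (kap t w) (A ^ ex u) (A ^ ex1 w) (vec A u 1) (vec A u 2) (vec A u 3)
    (vec A u 4) (Psi t u 0 0) (Psi t u 0 1) (Psi t u 1 0) (Psi t u 1 1) ht b1 b2 b3 b4
  rw [h2] at h3
  have h4 : (-A ^ 3) ^ (ex u + ex1 w) = A ^ (ex u + ex1 w) * (-A ^ 2) ^ (ex u + ex1 w) := by
    rw [← mul_zpow]
    congr 1
    ring
  have h5 : A ^ ex1 w * A ^ ex u = A ^ (ex u + ex1 w) := by
    rw [← zpow_add₀ hA, add_comm]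
  rw [h4, h5] at h3
  refine mul_left_cancel₀ hE ?_
  rw [← h3]
  ring

/-- the two equations -/
private theorem tc_two (h0 : St_Kap) (h1 : St_Bur) (u : W) (w : List Bool)
    (h : ∀ A : ℂ, A ≠ 0 → A ^ ex1 w * F0 1 1 A (vec A u) + cc A w * F1 1 1 A (vec A u) =
      (-A ^ 3) ^ (ex u + ex1 w)) (A t : ℂ) (hA : A ≠ 0) (ht : t * A ^ 4 = 1) :
    2 * ((1 + t + t ^ 2) * (Psi t u 0 0 + Psi t u 1 1 + t + A ^ 4) +
      kap t w * (tcY t (Psi t u 0 0) (Psi t u 0 1) (Psi t u 1 0) (Psi t u 1 1) -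
        (1 + t + t ^ 2) * (1 + t))) =
      (1 + t + t ^ 2) * ((-A ^ 2) ^ (ex u + ex1 w) + (A ^ 2) ^ (ex u + ex1 w)) ∧
    2 * (A ^ 2 * (t * kap t w * tcX t (Psi t u 0 0) (Psi t u 0 1) (Psi t u 1 0)
      (Psi t u 1 1))) =
      (1 + t + t ^ 2) * ((-A ^ 2) ^ (ex u + ex1 w) - (A ^ 2) ^ (ex u + ex1 w)) := by
  have e1 := tc_one h0 h1 u w h A t hA ht
  have hI : Complex.I * A ≠ 0 := mul_ne_zero Complex.I_ne_zero hA
  have hI2 : (Complex.I * A) ^ 2 = -A ^ 2 := by
    rw [mul_pow, Complex.I_sq]; ring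
  have hI4 : (Complex.I * A) ^ 4 = A ^ 4 := by
    have : (Complex.I * A) ^ 4 = ((Complex.I * A) ^ 2) ^ 2 := by ring
    rw [this, hI2]; ring
  have e2 := tc_one h0 h1 u w h (Complex.I * A) t hI (by rw [hI4]; exact ht)
  rw [hI2, hI4, neg_neg] at e2
  constructor
  · linear_combination e1 + e2
  · linear_combination e1 - e2

/-- a product of two consecutive integers -/
private theorem tc_consec (q : ℤ) : 0 ≤ q * (q + 1) ∧ 0 ≤ q * (q - 1) := by
  constructor
  · rcases le_or_gt 0 q with h | h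
    · positivity
    · have : q + 1 ≤ 0 := h
      exact mul_nonneg_of_nonpos_of_nonpos h.le this
  · rcases le_or_gt q 0 with h | h
    · exact mul_nonneg_of_nonpos_of_nonpos h (by omega)
    · exact mul_nonneg h.le (by omega)

/-- the integral equations, odd case -/
private theorem tc_odd (p q r s k : ℤ) (hdet : p * s - q * r = 1)
    (h1 : k * (p + s - 2) = 1 ∨ k * (p + s - 2) = -1) (h2 : p + s - 2 + k * (r - q) = 0) :
    False := by
  have hk : (k = 1 ∧ (p + s - 2 = 1 ∨ p + s - 2 = -1)) ∨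
      (k = -1 ∧ (p + s - 2 = 1 ∨ p + s - 2 = -1)) := by
    rcases h1 with h | h
    · rcases Int.mul_eq_one_iff_eq_one_or_neg_one.mp h with ⟨a, b⟩ | ⟨a, b⟩
      · exact Or.inl ⟨a, Or.inl b⟩
      · exact Or.inr ⟨a, Or.inr b⟩
    · rcases Int.mul_eq_neg_one_iff_eq_one_or_neg_one.mp h with ⟨a, b⟩ | ⟨a, b⟩
      · exact Or.inl ⟨a, Or.inr b⟩
      · exact Or.inr ⟨a, Or.inl b⟩
  have hsq : (r - q) ^ 2 = 1 := by
    rcases hk with ⟨a, b | b⟩ | ⟨a, b | b⟩
    · rw [a, b] at h2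
      have : r - q = -1 := by linarith
      rw [this]; norm_num
    · rw [a, b] at h2
      have : r - q = 1 := by linarith
      rw [this]; norm_num
    · rw [a, b] at h2
      have : r - q = 1 := by linarith
      rw [this]; norm_num
    · rw [a, b] at h2
      have : r - q = -1 := by linarith
      rw [this]; norm_num
  have hid : (p - s) ^ 2 + (q + r) ^ 2 = (p + s) ^ 2 - 3 := by
    linear_combination hsq - 4 * hdet
  have hps : p + s = 3 ∨ p + s = 1 := by
    rcases hk with ⟨-, b | b⟩ | ⟨-, b | b⟩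
    · exact Or.inl (by linarith)
    · exact Or.inr (by linarith)
    · exact Or.inl (by linarith)
    · exact Or.inr (by linarith)
  rcases hps with b | b
  · rw [b] at hid
    have h6 : (p - s) ^ 2 + (q + r) ^ 2 = 6 := by linarith
    have hx : (p - s) ^ 2 ≤ 6 := by nlinarith [sq_nonneg (q + r)]
    have hy : (q + r) ^ 2 ≤ 6 := by nlinarith [sq_nonneg (p - s)]
    generalize p - s = x at h6 hx hy
    generalize q + r = y at h6 hx hy
    have hx1 : x ≤ 2 := by nlinarith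
    have hx2 : -2 ≤ x := by nlinarith
    have hy1 : y ≤ 2 := by nlinarith
    have hy2 : -2 ≤ y := by nlinarith
    interval_cases x <;> interval_cases y <;> omega
  · rw [b] at hid
    nlinarith [sq_nonneg (p - s), sq_nonneg (q + r)]

/-- the integral equations, even case -/
private theorem tc_even (p q r s k : ℤ) (hk0 : k ≠ 0) (hdet : p * s - q * r = 1)
    (h1 : k * (p + s - 2) = 0) (h2 : p + s - 2 + k * (r - q) = 1 ∨
      p + s - 2 + k * (r - q) = -1) :
    (k = 1 ∨ k = -1) ∧ p = 1 ∧ s = 1 ∧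
      ((q = 1 ∧ r = 0) ∨ (q = -1 ∧ r = 0) ∨ (q = 0 ∧ r = 1) ∨ (q = 0 ∧ r = -1)) := by
  have h3 : p + s - 2 = 0 := by
    rcases mul_eq_zero.mp h1 with h | h
    · exact absurd h hk0
    · exact h
  rw [h3, zero_add] at h2
  have hk : (k = 1 ∨ k = -1) ∧ (r - q = 1 ∨ r - q = -1) := by
    rcases h2 with h | h
    · rcases Int.mul_eq_one_iff_eq_one_or_neg_one.mp h with ⟨a, b⟩ | ⟨a, b⟩
      · exact ⟨Or.inl a, Or.inl b⟩
      · exact ⟨Or.inr a, Or.inr b⟩
    · rcases Int.mul_eq_neg_one_iff_eq_one_or_neg_one.mp h with ⟨a, b⟩ | ⟨a, b⟩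
      · exact ⟨Or.inl a, Or.inr b⟩
      · exact ⟨Or.inr a, Or.inl b⟩
  have hs : s = 2 - p := by linarith
  subst hs
  have hqr : (p - 1) ^ 2 + q * r = 0 := by linear_combination -hdet
  obtain ⟨c1, c2⟩ := tc_consec q
  refine ⟨hk.1, ?_⟩
  rcases hk.2 with b | b
  · have hr : r = q + 1 := by linarith
    subst hr
    have hp : (p - 1) ^ 2 = 0 := by nlinarith [sq_nonneg (p - 1)]
    have hp1 : p = 1 := by
      have := pow_eq_zero_iff (two_ne_zero) |>.mp hp
      linarith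
    have hq : q * (q + 1) = 0 := by rw [hp, zero_add] at hqr; exact hqr
    refine ⟨hp1, by linarith, ?_⟩
    rcases mul_eq_zero.mp hq with h | h
    · right; right; left; exact ⟨h, by linarith⟩
    · right; left; exact ⟨by linarith, h⟩
  · have hr : r = q - 1 := by linarith
    subst hr
    have hp : (p - 1) ^ 2 = 0 := by nlinarith [sq_nonneg (p - 1)]
    have hp1 : p = 1 := by
      have := pow_eq_zero_iff (two_ne_zero) |>.mp hp
      linarith
    have hq : q * (q - 1) = 0 := by rw [hp, zero_add] at hqr; exact hqr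
    refine ⟨hp1, by linarith, ?_⟩
    rcases mul_eq_zero.mp hq with h | h
    · right; right; right; exact ⟨h, by linarith⟩
    · left; exact ⟨by linarith, h⟩

/-- the letters -/
private theorem tc_letter (l : Bool × Bool) : gen 2 l 0 0 + gen 2 l 1 1 +
    3 * (gen 2 l 0 1 + gen 2 l 1 0 / 2) = 2 := by
  obtain ⟨a, ε⟩ := l
  cases a <;> cases ε <;> simp [gen] <;> norm_num

theorem thm_TC (h0 : St_Kap) (h1 : St_Bur) (h2 : St_Int) (h3 : St_Hom) (h4 : St_Ker) :
    St_TC := by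
  intro u w hk0 h
  set k : ℤ := ex1 w with hk
  -- t = -1
  obtain ⟨A, hA2⟩ := IsAlgClosed.exists_pow_nat_eq Complex.I (n := 2) two_pos
  have hA : A ≠ 0 := by
    intro h; rw [h, zero_pow two_ne_zero] at hA2; exact Complex.I_ne_zero hA2.symm
  have hA4 : A ^ 4 = -1 := by
    have : A ^ 4 = (A ^ 2) ^ 2 := by ring
    rw [this, hA2, Complex.I_sq]
  have ht : (-1 : ℂ) * A ^ 4 = 1 := by rw [hA4]; ring
  obtain ⟨f1, f2⟩ := tc_two h0 h1 u w h A (-1) hA ht
  rw [h2.1 u, h0.2.2.1 w, hA4, hA2, ← hk] at f1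
  rw [h2.1 u, h0.2.2.1 w, hA2, ← hk] at f2
  simp only [Matrix.map_apply, tcX, tcY] at f1 f2
  have hdet := h2.2.1 u
  rw [Matrix.det_fin_two] at hdet
  set p : ℤ := psi u 0 0 with hp
  set q : ℤ := psi u 0 1 with hq
  set r : ℤ := psi u 1 0 with hr
  set s : ℤ := psi u 1 1 with hs
  have g1 : 2 * ((p + s - 2 + k * (r - q) : ℤ) : ℂ) =
      (-Complex.I) ^ (ex u + k) + Complex.I ^ (ex u + k) := by
    push_cast
    linear_combination f1
  have g2 : 2 * (Complex.I * (-(k * (p + s - 2)) : ℤ)) =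
      (-Complex.I) ^ (ex u + k) - Complex.I ^ (ex u + k) := by
    push_cast
    linear_combination f2
  rcases Int.even_or_odd' (ex u + k) with ⟨m, hm | hm⟩
  · -- even
    have z1 : (-Complex.I) ^ (ex u + k) = (-1) ^ m := by
      rw [hm, _root_.zpow_mul]
      congr 1
      rw [zpow_ofNat, neg_sq, Complex.I_sq]
    have z2 : Complex.I ^ (ex u + k) = (-1) ^ m := by
      rw [hm, _root_.zpow_mul]
      congr 1
      rw [zpow_ofNat, Complex.I_sq]
    rw [z1, z2] at g1 g2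
    rw [sub_self] at g2
    have g3 : k * (p + s - 2) = 0 := by
      have : Complex.I * (-(k * (p + s - 2)) : ℤ) = 0 := by linear_combination g2 / 2
      rcases mul_eq_zero.mp this with h | h
      · exact absurd h Complex.I_ne_zero
      · have h' : -(k * (p + s - 2)) = 0 := by exact_mod_cast h
        linarith
    have g4 : p + s - 2 + k * (r - q) = 1 ∨ p + s - 2 + k * (r - q) = -1 := by
      rcases Int.even_or_odd m with hm | hm
      · rw [hm.neg_one_zpow] at g1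
        left
        have : ((p + s - 2 + k * (r - q) : ℤ) : ℂ) = ((1 : ℤ) : ℂ) := by
          push_cast at g1 ⊢
          linear_combination g1 / 2
        exact_mod_cast this
      · rw [hm.neg_one_zpow] at g1
        right
        have : ((p + s - 2 + k * (r - q) : ℤ) : ℂ) = ((-1 : ℤ) : ℂ) := by
          push_cast at g1 ⊢
          linear_combination g1 / 2
        exact_mod_cast this
    obtain ⟨k1, hp1, hs1, hqr⟩ := tc_even p q r s k hk0 hdet g3 g4
    refine ⟨k1, ?_⟩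
    -- t = 2
    obtain ⟨B, hB4⟩ := IsAlgClosed.exists_pow_nat_eq (1 / 2 : ℂ) (n := 4) (by norm_num)
    have hB : B ≠ 0 := by
      intro h; rw [h, zero_pow (by norm_num)] at hB4; norm_num at hB4
    obtain ⟨-, f3⟩ := tc_two h0 h1 u w h B 2 hB (by rw [hB4]; norm_num)
    rw [← hk] at f3
    have z3 : (-B ^ 2) ^ (ex u + k) = (B ^ 2) ^ (ex u + k) := by
      rw [hm, _root_.zpow_mul, _root_.zpow_mul]
      congr 1
      rw [zpow_ofNat, zpow_ofNat, neg_sq]
    rw [z3, sub_self, mul_zero] at f3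
    have hkap : kap 2 w ≠ 0 := by
      have e := h0.2.1 2 two_ne_zero w
      rw [← hk] at e
      intro h
      rw [h, mul_zero] at e
      rcases k1 with h | h
      · rw [h] at e; norm_num at e
      · rw [h] at e; norm_num at e
    have f4 : tcX 2 (Psi 2 u 0 0) (Psi 2 u 0 1) (Psi 2 u 1 0) (Psi 2 u 1 1) = 0 := by
      have hne : (2 : ℂ) * (B ^ 2 * (2 * kap 2 w)) ≠ 0 :=
        mul_ne_zero two_ne_zero (mul_ne_zero (pow_ne_zero _ hB) (mul_ne_zero two_ne_zero hkap))
      refine (mul_eq_zero.mp ?_).resolve_left hne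
      linear_combination f3
    have f5 : Psi 2 u 0 0 + Psi 2 u 1 1 + 3 * (Psi 2 u 0 1 + Psi 2 u 1 0 / 2) = 2 := by
      unfold tcX at f4
      linear_combination -f4 / 2
    obtain ⟨F, hF1, hF2⟩ := h3.1 2 two_ne_zero
    have key : ∀ l : Bool × Bool, psi u = psi [l] → cl u = cl [l] := by
      intro l hl
      obtain ⟨n, hn⟩ := h4 u [l] (Or.inl hl)
      have e1 := congrArg F hn
      rw [map_mul, hF1, hF1, hF2] at e1
      have e2 : Psi 2 [l] = gen 2 l := by simp [Psi]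
      rw [e2] at e1
      have e3 : ∀ i j, Psi 2 u i j = ((2 : ℂ) ^ 3) ^ n * gen 2 l i j := by
        intro i j
        rw [e1, Matrix.mul_smul, Matrix.mul_one, Matrix.smul_apply, smul_eq_mul]
      rw [e3, e3, e3, e3] at f5
      have e4 := tc_letter l
      have e5 : ((2 : ℂ) ^ 3) ^ n = 1 := by
        linear_combination f5 / 2 - ((2 : ℂ) ^ 3) ^ n / 2 * e4
      have e6 : n = 0 := by
        have e7 : ((8 : ℝ)) ^ n = 1 := by
          have : ((8 : ℂ)) ^ n = 1 := by
            have h8 : (2 : ℂ) ^ 3 = 8 := by norm_num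
            rw [h8] at e5; exact e5
          apply Complex.ofReal_injective
          push_cast
          exact this
        by_contra hne
        rcases lt_or_gt_of_ne hne with h | h
        · have := zpow_lt_one_of_neg₀ (show (1 : ℝ) < 8 by norm_num) h
          linarith
        · have := one_lt_zpow₀ (show (1 : ℝ) < 8 by norm_num) h
          linarith
      rw [hn, e6, zpow_zero, mul_one]
    have hpsi : psi u = !![p, q; r, s] := by
      rw [hp, hq, hr, hs]
      exact Matrix.eta_fin_two _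
    rw [hp1, hs1] at hpsi
    rcases hqr with ⟨a, b⟩ | ⟨a, b⟩ | ⟨a, b⟩ | ⟨a, b⟩
    · refine ⟨1, Or.inl rfl, Or.inl ?_⟩
      rw [key (false, true) (by rw [hpsi, a, b]; simp [psi, gen1]), zpow_one]
      rfl
    · refine ⟨-1, Or.inr rfl, Or.inl ?_⟩
      rw [key (false, false) (by rw [hpsi, a, b]; simp [psi, gen1]), cl_x', _root_.zpow_neg_one]
    · refine ⟨-1, Or.inr rfl, Or.inr ?_⟩
      rw [key (true, false) (by rw [hpsi, a, b]; simp [psi, gen1]), cl_y', _root_.zpow_neg_one]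
    · refine ⟨1, Or.inl rfl, Or.inr ?_⟩
      rw [key (true, true) (by rw [hpsi, a, b]; simp [psi, gen1]), zpow_one]
      rfl
  · -- odd
    exfalso
    have z1 : (-Complex.I) ^ (ex u + k) = -Complex.I * (-1) ^ m := by
      rw [hm, zpow_add₀ (neg_ne_zero.mpr Complex.I_ne_zero), _root_.zpow_one, _root_.zpow_mul, mul_comm]
      congr 2
      rw [zpow_ofNat, neg_sq, Complex.I_sq]
    have z2 : Complex.I ^ (ex u + k) = Complex.I * (-1) ^ m := by
      rw [hm, zpow_add₀ Complex.I_ne_zero, _root_.zpow_one, _root_.zpow_mul, mul_comm]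
      congr 2
      rw [zpow_ofNat, Complex.I_sq]
    rw [z1, z2] at g1 g2
    have g3 : p + s - 2 + k * (r - q) = 0 := by
      have : ((p + s - 2 + k * (r - q) : ℤ) : ℂ) = ((0 : ℤ) : ℂ) := by
        push_cast at g1 ⊢
        linear_combination g1 / 2
      exact_mod_cast this
    have g4 : ((k * (p + s - 2) : ℤ) : ℂ) = (-1) ^ m := by
      refine mul_left_cancel₀ Complex.I_ne_zero ?_
      push_cast at g2 ⊢
      linear_combination -g2 / 2
    have g5 : k * (p + s - 2) = 1 ∨ k * (p + s - 2) = -1 := by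
      rcases Int.even_or_odd m with hm | hm
      · rw [hm.neg_one_zpow] at g4
        left
        exact_mod_cast g4
      · rw [hm.neg_one_zpow] at g4
        right
        exact_mod_cast g4
    exact tc_odd p q r s k hdet g5 g3

end Pool.Agent.KB3
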