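import Pool.Agent.KB3.St

/-!
# Closures of braidoids on at most three strands: the finite tables
-/

set_option autoImplicit false
set_option maxRecDepth 20000

namespace Pool.Agent.KB3

open Matrix

private theorem tab_if {p q : Prop} {i : Decidable p} {j : Decidable q} (h : p ↔ q) :
    @ite ℕ p i 1 0 = @ite ℕ q j 1 0 := by
  by_cases hp : p
  · rw [if_pos hp, if_pos (h.1 hp)]
  · rw [if_neg hp, if_neg fun hq => hp (h.2 hq)]

private theorem tab_inv {a : ℕ} {c : Join} {q q' : Bool × ℕ} (h : Arc a c q q') :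
    (q.1 = false ∧ q'.1 = true ∧ q.2 = q'.2 ∧ (q.2 = a ∨ q.2 = a + 1 → c = .vertical)) ∨
      (c = .horizontal ∧ q.1 = q'.1 ∧ q.2 = a ∧ q'.2 = a + 1) ∨ c = .cross := by
  cases h with
  | other p h h' =>
    exact Or.inl ⟨rfl, rfl, rfl, fun h'' => by rcases h'' with h'' | h'' <;> contradiction⟩
  | up => exact Or.inr (Or.inr rfl)
  | down => exact Or.inr (Or.inr rfl)
  | left => exact Or.inl ⟨rfl, rfl, rfl, fun _ => rfl⟩
  | right => exact Or.inl ⟨rfl, rfl, rfl, fun _ => rfl⟩
  | turn b => exact Or.inr (Or.inl ⟨rfl, rfl, rfl, rfl⟩)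

private theorem tab_vert (k a : ℕ) : slab k a .vertical = 1 := by
  ext x y
  unfold slab
  rw [Matrix.one_apply]
  refine tab_if ?_
  constructor
  · intro h
    funext p
    have h1 : Arc a .vertical (false, (p : ℕ)) (true, (p : ℕ)) := by
      by_cases h2 : (p : ℕ) = a
      · rw [h2]
        exact Arc.left
      · by_cases h3 : (p : ℕ) = a + 1
        · rw [h3]
          exact Arc.right
        · exact Arc.other _ _ h2 h3
    exact h false true p p h1
  · rintro rfl b b' p p' h
    rcases tab_inv h with ⟨h1, h2, h3, -⟩ | ⟨h1, -⟩ | h1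
    · have h4 : p = p' := Fin.ext h3
      rw [h4]
      split_ifs <;> rfl
    · cases h1
    · cases h1

/-- explicit form of the first turnback -/
def tabE0 : Matrix (Fin 3 → Bool) (Fin 3 → Bool) ℕ := fun x y =>
  if x 0 = x 1 ∧ y 0 = y 1 ∧ x 2 = y 2 then 1 else 0

/-- explicit form of the second turnback -/
def tabE1 : Matrix (Fin 3 → Bool) (Fin 3 → Bool) ℕ := fun x y =>
  if x 1 = x 2 ∧ y 1 = y 2 ∧ x 0 = y 0 then 1 else 0

/-- explicit form of the first product -/
def tabE01 : Matrix (Fin 3 → Bool) (Fin 3 → Bool) ℕ := fun x y =>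
  if x 0 = x 1 ∧ y 1 = y 2 ∧ x 2 = y 0 then 1 else 0

/-- explicit form of the second product -/
def tabE10 : Matrix (Fin 3 → Bool) (Fin 3 → Bool) ℕ := fun x y =>
  if x 1 = x 2 ∧ y 0 = y 1 ∧ x 0 = y 2 then 1 else 0

/-- explicit form of the turnback on two strands -/
def tabS : Matrix (Fin 2 → Bool) (Fin 2 → Bool) ℕ := fun x y =>
  if x 0 = x 1 ∧ y 0 = y 1 then 1 else 0

/-- computable form of the passages -/
def tabG (k h : ℕ) : Matrix (Fin (k + 1) → Bool) (Fin k → Bool) ℕ := fun x y =>
  if ∀ (p : Fin k) (p' : Fin (k + 1)), (p' : ℕ) = skip h p → x p' = y p then 1 else 0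

private theorem tab_glue (k h : ℕ) : glue k h = tabG k h := by
  ext x y
  unfold glue tabG
  exact tab_if Iff.rfl

private theorem tab_E0 : slab 3 0 .horizontal = tabE0 := by
  ext x y
  unfold slab tabE0
  refine tab_if ?_
  constructor
  · intro h
    exact ⟨h false false 0 1 (Arc.turn false), h true true 0 1 (Arc.turn true),
      h false true 2 2 (Arc.other _ 2 (by decide) (by decide))⟩
  · rintro ⟨h1, h2, h3⟩ b b' p p' h
    rcases tab_inv h with ⟨e1, e2, e3, e4⟩ | ⟨-, e1, e2, e3⟩ | e
    · simp only at e1 e2 e3 e4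
      subst e1 e2
      obtain rfl : p = p' := Fin.ext e3
      have e5 : p = 2 := by
        rcases p with ⟨p, hp⟩
        have h5 : p ≠ 0 := fun h5 => by cases e4 (Or.inl h5)
        have h6 : p ≠ 0 + 1 := fun h6 => by cases e4 (Or.inr h6)
        exact Fin.ext (by show p = 2; omega)
      subst e5
      exact h3
    · simp only at e1 e2 e3
      subst e1
      obtain rfl : p = 0 := Fin.ext e2
      obtain rfl : p' = 1 := Fin.ext e3
      cases b
      · exact h1
      · exact h2
    · cases e

private theorem tab_E1 : slab 3 1 .horizontal = tabE1 := by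
  ext x y
  unfold slab tabE1
  refine tab_if ?_
  constructor
  · intro h
    exact ⟨h false false 1 2 (Arc.turn false), h true true 1 2 (Arc.turn true),
      h false true 0 0 (Arc.other _ 0 (by decide) (by decide))⟩
  · rintro ⟨h1, h2, h3⟩ b b' p p' h
    rcases tab_inv h with ⟨e1, e2, e3, e4⟩ | ⟨-, e1, e2, e3⟩ | e
    · simp only at e1 e2 e3 e4
      subst e1 e2
      obtain rfl : p = p' := Fin.ext e3
      have e5 : p = 0 := by
        rcases p with ⟨p, hp⟩
        have h5 : p ≠ 1 := fun h5 => by cases e4 (Or.inl h5)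
        have h6 : p ≠ 1 + 1 := fun h6 => by cases e4 (Or.inr h6)
        exact Fin.ext (by show p = 0; omega)
      subst e5
      exact h3
    · simp only at e1 e2 e3
      subst e1
      obtain rfl : p = 1 := Fin.ext e2
      obtain rfl : p' = 2 := Fin.ext e3
      cases b
      · exact h1
      · exact h2
    · cases e

private theorem tab_S : slab 2 0 .horizontal = tabS := by
  ext x y
  unfold slab tabS
  refine tab_if ?_
  constructor
  · intro h
    exact ⟨h false false 0 1 (Arc.turn false), h true true 0 1 (Arc.turn true)⟩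
  · rintro ⟨h1, h2⟩ b b' p p' h
    rcases tab_inv h with ⟨e1, e2, e3, e4⟩ | ⟨-, e1, e2, e3⟩ | e
    · simp only at e1 e2 e3 e4
      exfalso
      rcases p with ⟨p, hp⟩
      have h5 : p ≠ 0 := fun h5 => by cases e4 (Or.inl h5)
      have h6 : p ≠ 0 + 1 := fun h6 => by cases e4 (Or.inr h6)
      omega
    · simp only at e1 e2 e3
      subst e1
      obtain rfl : p = 0 := Fin.ext e2
      obtain rfl : p' = 1 := Fin.ext e3
      cases b
      · exact h1
      · exact h2
    · cases e

/-- explicit form of the basis -/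
def tabB : Fin 5 → Matrix (Fin 3 → Bool) (Fin 3 → Bool) ℕ :=
  ![1, tabE0, tabE1, tabE01, tabE10]

private theorem tab_01 : tabE0 * tabE1 = tabE01 := by decide +kernel

private theorem tab_10 : tabE1 * tabE0 = tabE10 := by decide +kernel

private theorem tab_UU0 : UU false = tabE0 := tab_E0

private theorem tab_UU1 : UU true = tabE1 := tab_E1

private theorem tab_Bm : Bm = tabB := by
  unfold Bm tabB
  rw [tab_UU0, tab_UU1, tab_01, tab_10]

private theorem tab_5 : ∀ i j : Fin 3, ∀ b, Matrix.trace (tabB b * tabG 2 j * (tabG 2 i)ᵀ) =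
    2 ^ (e0 i j b + 1) := by decide +kernel

private theorem tab_6 : ∀ i j : Fin 3, ∀ b, Matrix.trace (tabB b * tabG 2 j * tabS *
    (tabG 2 i)ᵀ) = 2 ^ (e1 i j b + 1) := by decide +kernel

theorem thm_Tab : St_Tab := by
  refine ⟨⟨tab_vert 3 0, tab_vert 3 1, tab_vert 2 0⟩, ?_, ?_, ?_, ?_, ?_, ?_, ?_⟩
  · intro a
    cases a
    · rw [tab_UU0]
      decide +kernel
    · rw [tab_UU1]
      decide +kernel
  · intro a
    cases a
    · rw [Bool.not_false, tab_UU0, tab_UU1, tab_01]
      decide +kernel
    · rw [Bool.not_true, tab_UU0, tab_UU1, tab_10]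
      decide +kernel
  · rw [tab_S]
    decide +kernel
  · intro i j b
    rw [tab_Bm, tab_glue, tab_glue]
    exact tab_5 i j b
  · intro i j b
    rw [tab_Bm, tab_glue, tab_glue, tab_S]
    exact tab_6 i j b
  · intro i j
    rw [tab_glue, tab_glue]
    revert i j
    decide +kernel
  · intro i j
    rw [tab_glue, tab_glue, tab_S]
    revert i j
    decide +kernel

end Pool.Agent.KB3
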