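import Pool.Agent.KB3.St

set_option autoImplicit false

namespace Pool.Agent.KB3

open Matrix

/-- sum over paths -/
private theorem tra_path {ι : Type} [Fintype ι] [DecidableEq ι] : ∀ (l : ℕ)
    (M : Fin l → Matrix ι ι ℕ) (φ : ι → ι → ℕ),
    ∑ x : Fin (l + 1) → ι, (∏ t, M t (x t.castSucc) (x t.succ)) * φ (x 0) (x (Fin.last l)) =
      ∑ i, ∑ j, (List.ofFn M).prod i j * φ i j := by
  intro l
  induction l with
  | zero =>
    intro M φ
    rw [← Fintype.sum_equiv (Equiv.funUnique (Fin 1) ι).symm (fun i => φ i i)]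
    · refine Finset.sum_congr rfl fun i _ => ?_
      simp [Matrix.one_apply]
    · intro i
      simp
  | succ l ih =>
    intro M φ
    rw [← Fintype.sum_equiv (Fin.consEquiv (fun _ => ι))
      (fun p : ι × (Fin (l + 1) → ι) => (∏ t : Fin l, M t.succ (p.2 t.castSucc) (p.2 t.succ)) *
        (M 0 p.1 (p.2 0) * φ p.1 (p.2 (Fin.last l)))), Fintype.sum_prod_type]
    · refine Finset.sum_congr rfl fun i _ => ?_
      rw [ih (fun t => M t.succ) (fun a b => M 0 i a * φ i b)]
      rw [Finset.sum_comm]
      refine Finset.sum_congr rfl fun j _ => ?_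
      rw [List.ofFn_succ, List.prod_cons, Matrix.mul_apply, Finset.sum_mul]
      refine Finset.sum_congr rfl fun a _ => ?_
      ring
    · rintro ⟨i, x⟩
      have h0 : (Fin.consEquiv (fun _ => ι)) (i, x) = (Fin.cons i x : Fin (l + 2) → ι) := rfl
      rw [h0, Fin.prod_univ_succ]
      have h1 : (Fin.cons i x : Fin (l + 2) → ι) (Fin.last (l + 1)) = x (Fin.last l) := by
        rw [← Fin.succ_last, Fin.cons_succ]
      have h2 : ∀ t : Fin l, (Fin.cons i x : Fin (l + 2) → ι) (t.succ).castSucc = x t.castSucc := by
        intro t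
        rw [← Fin.succ_castSucc, Fin.cons_succ]
      simp only [h1, h2, Fin.cons_succ, Fin.castSucc_zero, Fin.cons_zero]
      ring

/-- the closure of two sectors -/
private theorem tra_two {ι κ : Type} [Fintype ι] [DecidableEq ι] [Fintype κ] [DecidableEq κ]
    (l l' : ℕ) (M : Fin l → Matrix ι ι ℕ) (N : Fin l' → Matrix κ κ ℕ) (G H : Matrix ι κ ℕ) :
    ∑ x : Fin (l + 1) → ι, ∑ y : Fin (l' + 1) → κ,
      (∏ t, M t (x t.castSucc) (x t.succ)) * (∏ t, N t (y t.castSucc) (y t.succ)) *
        (G (x (Fin.last l)) (y 0) * H (x 0) (y (Fin.last l'))) =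
      Matrix.trace ((List.ofFn M).prod * G * (List.ofFn N).prod * Hᵀ) := by
  have h1 : ∀ x : Fin (l + 1) → ι, ∑ y : Fin (l' + 1) → κ,
      (∏ t, M t (x t.castSucc) (x t.succ)) * (∏ t, N t (y t.castSucc) (y t.succ)) *
        (G (x (Fin.last l)) (y 0) * H (x 0) (y (Fin.last l'))) =
      (∏ t, M t (x t.castSucc) (x t.succ)) *
        ∑ k, ∑ m, (List.ofFn N).prod k m * (G (x (Fin.last l)) k * H (x 0) m) := by
    intro x
    rw [← tra_path l' N (fun k m => G (x (Fin.last l)) k * H (x 0) m), Finset.mul_sum]
    refine Finset.sum_congr rfl fun y _ => ?_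
    ring
  rw [Finset.sum_congr rfl fun x _ => h1 x,
    tra_path l M (fun i j => ∑ k, ∑ m, (List.ofFn N).prod k m * (G j k * H i m))]
  unfold Matrix.trace
  refine Finset.sum_congr rfl fun i _ => ?_
  rw [Matrix.diag_apply, Matrix.mul_apply]
  have h2 : ∀ m, ((List.ofFn M).prod * G * (List.ofFn N).prod) i m * Hᵀ m i =
      ∑ j, ∑ k, (List.ofFn M).prod i j * ((List.ofFn N).prod k m * (G j k * H i m)) := by
    intro m
    rw [Matrix.mul_assoc, Matrix.mul_apply, Finset.sum_mul]
    refine Finset.sum_congr rfl fun j _ => ?_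
    rw [Matrix.mul_apply, Finset.mul_sum, Finset.sum_mul]
    refine Finset.sum_congr rfl fun k _ => ?_
    rw [Matrix.transpose_apply]
    ring
  rw [Finset.sum_congr rfl fun m _ => h2 m, Finset.sum_comm]
  refine Finset.sum_congr rfl fun j _ => ?_
  rw [Finset.sum_comm, Finset.mul_sum]
  refine Finset.sum_congr rfl fun k _ => ?_
  rw [Finset.mul_sum]

open Classical in
/-- a condition on two summands -/
private theorem tra_card {X Y : Type} [Fintype X] [Fintype Y] (P : X × Y → Prop) :
    Nat.card {z : X × Y // P z} = ∑ x, ∑ y, if P (x, y) then 1 else 0 := by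
  rw [Nat.card_eq_fintype_card, Fintype.card_subtype, Finset.card_filter, Fintype.sum_prod_type]

private theorem tra_and (a b c d : Prop) [Decidable a] [Decidable b] [Decidable c] [Decidable d]
    [Decidable (a ∧ b ∧ c ∧ d)] :
    (if a ∧ b ∧ c ∧ d then (1 : ℕ) else 0) =
      (if a then 1 else 0) * (if b then 1 else 0) * ((if c then 1 else 0) *
        (if d then 1 else 0)) := by
  by_cases ha : a
  · by_cases hb : b
    · by_cases hc : c
      · by_cases hd : d
        · simp [ha, hb, hc, hd]
        · simp [ha, hb, hc, hd]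
      · simp [ha, hb, hc]
    · simp [ha, hb]
  · simp [ha]

private theorem tra_prod {l : ℕ} (Q : Fin l → Prop) [∀ t, Decidable (Q t)]
    [Decidable (∀ t, Q t)] : (∏ t, if Q t then (1 : ℕ) else 0) = if ∀ t, Q t then 1 else 0 := by
  rw [Finset.prod_boole]
  simp

theorem thm_Tra (h : St_Col) : St_Tra := by
  classical
  intro D c
  rw [← tra_two]
  have h1 := h (Pt D) (Joined D c)
  unfold comps
  rw [← h1]
  -- colourings as pairs of functions
  have e : {f : Pt D → Bool // ∀ x y, Joined D c x y → f x = f y} ≃
      {z : (Fin (D.long.length + 1) → Fin (D.n + 1) → Bool) ×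
        (Fin (D.short.length + 1) → Fin D.n → Bool) //
        (∀ t, ∀ (b b' : Bool) (p p' : Fin (D.n + 1)), Arc (D.long.get t).1 (c.1 t) (b, p) (b', p') →
          (if b then z.1 t.succ p else z.1 t.castSucc p) =
            (if b' then z.1 t.succ p' else z.1 t.castSucc p')) ∧
        (∀ t, ∀ (b b' : Bool) (p p' : Fin D.n), Arc (D.short.get t).1 (c.2 t) (b, p) (b', p') →
          (if b then z.2 t.succ p else z.2 t.castSucc p) =
            (if b' then z.2 t.succ p' else z.2 t.castSucc p')) ∧
        (∀ (p : Fin D.n) (p' : Fin (D.n + 1)), (p' : ℕ) = skip D.head p →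
          z.1 (Fin.last _) p' = z.2 0 p) ∧
        (∀ (p : Fin D.n) (p' : Fin (D.n + 1)), (p' : ℕ) = skip D.tail p →
          z.1 0 p' = z.2 (Fin.last _) p)} :=
    { toFun := fun f => ⟨(fun t p => f.1 (.inl (t, p)), fun t p => f.1 (.inr (t, p))), by
        refine ⟨?_, ?_, ?_, ?_⟩
        · intro t b b' p p' ha
          have := f.2 _ _ (Joined.long t b b' p p' ha)
          cases b <;> cases b' <;> exact this
        · intro t b b' p p' ha
          have := f.2 _ _ (Joined.short t b b' p p' ha)
          cases b <;> cases b' <;> exact this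
        · intro p p' hp
          exact f.2 _ _ (Joined.head p p' hp)
        · intro p p' hp
          exact (f.2 _ _ (Joined.tail p p' hp)).symm⟩
      invFun := fun z => ⟨fun x => match x with
          | .inl (t, p) => z.1.1 t p
          | .inr (t, p) => z.1.2 t p, by
        rintro x y hxy
        cases hxy with
        | long t b b' p p' ha =>
          have := z.2.1 t b b' p p' ha
          cases b <;> cases b' <;> exact this
        | short t b b' p p' ha =>
          have := z.2.2.1 t b b' p p' ha
          cases b <;> cases b' <;> exact this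
        | head p p' hp => exact z.2.2.2.1 p p' hp
        | tail p p' hp => exact (z.2.2.2.2 p p' hp).symm⟩
      left_inv := by
        intro f
        apply Subtype.ext
        funext x
        rcases x with ⟨t, p⟩ | ⟨t, p⟩ <;> rfl
      right_inv := by
        intro z
        rfl }
  rw [Nat.card_congr e, tra_card]
  refine Finset.sum_congr rfl fun x _ => Finset.sum_congr rfl fun y _ => ?_
  rw [tra_and]
  congr 1
  · congr 1
    · unfold slab
      rw [tra_prod]
    · unfold slab
      rw [tra_prod]

end Pool.Agent.KB3
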