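import Pool.Agent.KB3.Asm
import Pool.Agent.KB3.Col
import Pool.Agent.KB3.Tra
import Pool.Agent.KB3.Tab
import Pool.Agent.KB3.Sum
import Pool.Agent.KB3.Sum1
import Pool.Agent.KB3.Nor
import Pool.Agent.KB3.Abs
import Pool.Agent.KB3.Flp
import Pool.Agent.KB3.Kap
import Pool.Agent.KB3.Bur
import Pool.Agent.KB3.Int
import Pool.Agent.KB3.Hom
import Pool.Agent.KB3.Ker
import Pool.Agent.KB3.SL
import Pool.Agent.KB3.TA
import Pool.Agent.KB3.TB
import Pool.Agent.KB3.TC
import Pool.Agent.KB3.TD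
import Pool.Agent.KB3.T1
import Pool.Agent.KB3.Mov
import Pool.Agent.KB3.Sho
import Pool.Agent.KB3.Red
import Pool.Agent.KB3.Pth

/-!
# Closures of braidoids on at most three strands: the theorem
-/

set_option autoImplicit false

namespace Pool.Agent.KB3

theorem main : St_Main :=
  thm_Asm thm_Nor (thm_Sum (thm_Tra thm_Col) thm_Tab) (thm_Sum1 (thm_Tra thm_Col) thm_Tab)
    thm_Abs thm_Flp thm_Kap (thm_TA thm_Bur thm_Int thm_Hom thm_Ker)
    (thm_TB thm_Bur thm_Int thm_Hom thm_Ker) (thm_TC thm_Kap thm_Bur thm_Int thm_Hom thm_Ker)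
    (thm_TD thm_Bur thm_Int thm_Hom thm_Ker thm_SL) (thm_T1 thm_Kap) thm_Sho
    (thm_Red thm_Mov thm_Sho) thm_Pth

end Pool.Agent.KB3
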