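import Pool.Agent.KB3.Alg

/-!
# Closures of braidoids on at most three strands: statements of the modules

Everything has been checked numerically (state sums against these formulas, `f = 1` against the
lists of words for all braids with up to 15 letters).
-/

set_option autoImplicit false

namespace Pool.Agent.KB3

open Matrix

/-! ## Counting components -/

/-- [Col] Proof. `f ↦ (Quot.lift f ...)` is a bijection with `Quot r → Bool` (`Quot r` is finite: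
`Quot.finite` or `Finite.of_surjective`), and `Nat.card (Y → Bool) = 2 ^ Nat.card Y`. -/
def St_Col : Prop := ∀ (X : Type) [Finite X] (r : X → X → Prop),
  Nat.card {f : X → Bool // ∀ x y, r x y → f x = f y} = 2 ^ Nat.card (Quot r)

open Classical in
/-- The matrix of a slab with the place `a` and the join `c` on `k` strands: the entry is `1` if the
colours `x` of the lower ends and `y` of the upper ends agree along the arcs of the slab. -/
noncomputable def slab (k a : ℕ) (c : Join) : Matrix (Fin k → Bool) (Fin k → Bool) ℕ := fun x y =>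
  if ∀ (b b' : Bool) (p p' : Fin k), Arc a c (b, p) (b', p') →
    (if b then y p else x p) = (if b' then y p' else x p') then 1 else 0

open Classical in
/-- The matrix of the passage from the long to the short sector at the head (position `h`). -/
noncomputable def glue (k h : ℕ) : Matrix (Fin (k + 1) → Bool) (Fin k → Bool) ℕ := fun x y =>
  if ∀ (p : Fin k) (p' : Fin (k + 1)), (p' : ℕ) = skip h p → x p' = y p then 1 else 0

/-- [Tra] Proof. By `St_Col` the left side is the number of functions `f : Pt D → Bool` which are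
constant along `Joined D c`; such an `f` is a pair of functions `Fin (l + 1) → Fin (n + 1) → Bool`,
`Fin (l' + 1) → Fin n → Bool`, and the condition is the product of the conditions of the slabs, of
the head and of the tail.  Lemma (induction on `l`): for matrices `M : Fin l → Matrix ι ι ℕ` and
`i j : ι`, `∑ x : Fin (l + 1) → ι, (if x 0 = i ∧ x (Fin.last l) = j then ∏ t, M t (x t.castSucc)
(x t.succ) else 0) = (List.ofFn M).prod i j`. -/
def St_Tra : Prop := ∀ (D : Braidoid) (c : Joins D), 2 ^ comps D c = Matrix.trace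
  ((List.ofFn fun t => slab (D.n + 1) (D.long.get t).1 (c.1 t)).prod * glue D.n D.head *
    (List.ofFn fun t => slab D.n (D.short.get t).1 (c.2 t)).prod * (glue D.n D.tail)ᵀ)

/-- the turnbacks -/
noncomputable def UU (a : Bool) : Matrix (Fin 3 → Bool) (Fin 3 → Bool) ℕ :=
  slab 3 (if a then 1 else 0) .horizontal

/-- the basis `1, U₀, U₁, U₀U₁, U₁U₀` -/
noncomputable def Bm : Fin 5 → Matrix (Fin 3 → Bool) (Fin 3 → Bool) ℕ :=
  ![1, UU false, UU true, UU false * UU true, UU true * UU false]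

/-- [Tab] Finite computations with matrices of size at most 8. Proof. First compute the entries:
`slab 3 0 .horizontal x y = if x 0 = x 1 ∧ y 0 = y 1 ∧ x 2 = y 2 then 1 else 0` and so on (case
analysis on `Arc`), then the products and traces (e.g. with `Fintype.sum` over functions
`Fin 3 → Bool`, `decide`, or an equivalence with `Bool × Bool × Bool` and `simp`). -/
def St_Tab : Prop :=
  (slab 3 0 .vertical = 1 ∧ slab 3 1 .vertical = 1 ∧ slab 2 0 .vertical = 1) ∧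
  (∀ a, UU a * UU a = 2 • UU a) ∧ (∀ a, UU a * UU (!a) * UU a = UU a) ∧
  slab 2 0 .horizontal * slab 2 0 .horizontal = 2 • slab 2 0 .horizontal ∧
  (∀ i j : Fin 3, ∀ b, Matrix.trace (Bm b * glue 2 j * (glue 2 i)ᵀ) = 2 ^ (e0 i j b + 1)) ∧
  (∀ i j : Fin 3, ∀ b, Matrix.trace (Bm b * glue 2 j * slab 2 0 .horizontal * (glue 2 i)ᵀ) =
    2 ^ (e1 i j b + 1)) ∧
  (∀ i j : Fin 2, Matrix.trace (glue 1 j * (glue 1 i)ᵀ) = 2 ^ ((if i = j then 1 else 0) + 1)) ∧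
  ∀ i j : Fin 2, Matrix.trace (slab 2 0 .horizontal * glue 1 j * (glue 1 i)ᵀ) = 2

/-- the functional of the closure with tail `i`, head `j` -/
noncomputable def F0 (i j : ℕ) (A : ℂ) (v : Fin 5 → ℂ) : ℂ := ∑ b, v b * dd A ^ e0 i j b

/-- the same with a turnback in the short sector -/
noncomputable def F1 (i j : ℕ) (A : ℂ) (v : Fin 5 → ℂ) : ℂ := ∑ b, v b * dd A ^ e1 i j b

/-- [Sum] the bracket of a diagram on three strands.
Proof. For a word `c : List (Bool × Bool)` of smoothings (place, horizontal?) one has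
`∏ (1 or UU a) = 2 ^ l • Bm b` for some `l` and `b` (induction on `c`, multiplying from the left:
`UU a * Bm b = 2 ^ l' • Bm b'` by `St_Tab`); so with `St_Tra` the number of components of a state is
`l + l' + e + 1` where `e = e0 i j b` or `e1 i j b` (`2 ^ m = 2 ^ m'` gives `m = m'`). Replace the
state sums over `Fin length → Bool` by recursive sums over lists (`Fin.consEquiv`,
`Fintype.sum_equiv`, `Fin.prod_univ_succ`), and compare with the recursion of `vec`, `cc`: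
the sum over the states of a word `u` of `A ^ σ * dd A ^ l * φ b` is `∑ b, vec A u b * φ b`
(induction on `u`, for all `φ`). The coefficients of `bracket` are integers, `evl A (T 1) = A`. -/
def St_Sum : Prop := ∀ (i j : ℕ), i ≤ 2 → j ≤ 2 → ∀ (u : W) (w : List Bool) (A : ℂˣ),
  evl A (bracket (dia i u j w)) =
    (A : ℂ) ^ ex1 w * F0 i j A (vec A u) + cc A w * F1 i j A (vec A u)

/-- [Sum1] the bracket of a diagram on two strands. Proof. As `St_Sum`, simpler. -/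
def St_Sum1 : Prop := ∀ (i j : ℕ), i ≤ 1 → j ≤ 1 → ∀ (w : List Bool) (A : ℂˣ),
  evl A (bracket (dia1 i w j)) = (A : ℂ) ^ ex1 w * (if i = j then dd A else 1) + cc A w

/-- [Nor] Proof. Evaluate: `evl A (normalized D) = (-1) ^ w * A ^ (-3 w) * evl A (bracket D)`. -/
def St_Nor : Prop := ∀ D : Braidoid, normalized D = 1 → ∀ A : ℂˣ,
  evl A (bracket D) = (-(A : ℂ) ^ 3) ^ writhe D

/-! ## Temperley-Lieb and Burau -/

/-- [Abs] letters of the short sector moved to the long sector (`i = 0` or `2`: to the bottom;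
`j = 0` or `2`: to the top).
Proof. (1) `F1 0 j A v = F0 0 j A (Lm A true v)`, `F1 2 j A v = F0 2 j A (Lm A false v)` for
`j ≤ 2` (`j = 0, 1, 2`, ring), `Lm A a (Lm A a v) = dd A • Lm A a v`, so by induction on `w`
`vec A (up a w ++ u) = A ^ ex1 w • vec A u + cc A w • Lm A a (vec A u)`; `F0` is linear.
(2) Right multiplication: `Rm` (`Rm A false v = ![0, v 0 + dd v 1 + v 3, 0, 0, v 2 + dd v 4]`,
`Rm A true v = ![0, 0, v 0 + dd v 2 + v 4, v 1 + dd v 3, 0]`) commutes with `Lm`, so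
`vec A (u ++ [(a, ε)]) = A ^ ε • vec A u + A ^ (-ε) • Rm A a (vec A u)` and
`vec A (u ++ up a w) = A ^ ex1 w • vec A u + cc A w • Rm A a (vec A u)`;
`F1 i 0 A v = F0 i 0 A (Rm A true v)`, `F1 i 2 A v = F0 i 2 A (Rm A false v)`. -/
def St_Abs : Prop := ∀ (A : ℂ), A ≠ 0 → ∀ (u : W) (w : List Bool),
  (∀ j ≤ 2, A ^ ex1 w * F0 0 j A (vec A u) + cc A w * F1 0 j A (vec A u) =
    F0 0 j A (vec A (up true w ++ u))) ∧
  (∀ j ≤ 2, A ^ ex1 w * F0 2 j A (vec A u) + cc A w * F1 2 j A (vec A u) =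
    F0 2 j A (vec A (up false w ++ u))) ∧
  (∀ i ≤ 2, A ^ ex1 w * F0 i 0 A (vec A u) + cc A w * F1 i 0 A (vec A u) =
    F0 i 0 A (vec A (u ++ up true w))) ∧
  (∀ i ≤ 2, A ^ ex1 w * F0 i 2 A (vec A u) + cc A w * F1 i 2 A (vec A u) =
    F0 i 2 A (vec A (u ++ up false w)))

/-- [Flp] the exchange of the positions `0` and `2`. Proof. `vec`: induction on `u`. `cl`: by
`exists_hom` there is a homomorphism `B3 → B3` with `cl u ↦ cl (flp u)`, which exchanges `xx` and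
`yy` and is an involution. -/
def St_Flp : Prop :=
  (∀ (A : ℂ) (u : W), vec A (flp u) =
    ![vec A u 0, vec A u 2, vec A u 1, vec A u 4, vec A u 3]) ∧
  (∀ u, ex (flp u) = ex u) ∧ (∀ u, flp (flp u) = u) ∧
  ∃ F : B3 →* B3, (∀ u, F (cl u) = cl (flp u)) ∧ F xx = yy ∧ F yy = xx

/-- [Kap] Proof. The first two parts: induction on `w`. `kap (-1) w = ex1 w`: induction. The last
part: `φ κ = 1 - t κ` and `κ ↦ (1 - κ) / t` are inverse to each other, so
`kap t w = (φ ^ ex1 w) 0` (`φ : Equiv.Perm ℂ`), or treat `t ≠ -1` and `t = -1` with the other parts. -/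
def St_Kap : Prop :=
  (∀ A t : ℂ, A ≠ 0 → t * A ^ 4 = 1 → ∀ w, cc A w = A ^ ex1 w * A ^ 2 * t * kap t w) ∧
  (∀ t : ℂ, t ≠ 0 → ∀ w, (1 + t) * kap t w = 1 - (-t) ^ ex1 w) ∧
  (∀ w, kap (-1) w = ex1 w) ∧
  ∀ t : ℂ, t ≠ 0 → ∀ w, ex1 w = 0 → kap t w = 0

/-- [Bur] Proof. Induction on `u`; write `A ^ (ex u + 1) = A ^ ex u * A` and so on, `t = A ^ (-4)`;
each step is a rational identity in `A`, `A ^ ex u` and the entries of `Psi t u`. -/
def St_Bur : Prop := ∀ (A t : ℂ), A ≠ 0 → t * A ^ 4 = 1 → ∀ u : W,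
  vec A u 0 = A ^ ex u ∧
  (1 + t + t ^ 2) * vec A u 1 =
    -A ^ ex u * A ^ 2 * t * ((1 + t) * (Psi t u 0 0 - 1) + t * Psi t u 0 1) ∧
  (1 + t + t ^ 2) * vec A u 2 =
    -A ^ ex u * A ^ 2 * t * ((1 + t) * (Psi t u 1 1 - 1) + Psi t u 1 0) ∧
  (1 + t + t ^ 2) * vec A u 3 = -A ^ ex u * t * ((1 + t) * Psi t u 0 1 + Psi t u 0 0 - 1) ∧
  (1 + t + t ^ 2) * vec A u 4 = -A ^ ex u * ((1 + t) * Psi t u 1 0 + t * (Psi t u 1 1 - 1))

/-- [Int] Proof. `List.prod` and `Matrix.det_mul`, `Matrix.map_mul`; `det (gen t (a, ε)) = (-t) ^ ε`.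
-/
def St_Int : Prop :=
  (∀ u, Psi (-1) u = (psi u).map (Int.cast : ℤ → ℂ)) ∧ (∀ u, (psi u).det = 1) ∧
  ∀ t : ℂ, t ≠ 0 → ∀ u, (Psi t u).det = (-t) ^ ex u

/-- [Hom] Proof. `exists_hom` three times. `Psi t` of the word of `zz` is `t ^ 3` times the unit
matrix, so the image of `zz ^ l` is as stated (`map_zpow` for units or induction on `l`). -/
def St_Hom : Prop :=
  (∀ t : ℂ, t ≠ 0 → ∃ F : B3 →* Matrix (Fin 2) (Fin 2) ℂ, (∀ u, F (cl u) = Psi t u) ∧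
    ∀ l : ℤ, F (zz ^ l) = ((t ^ 3) ^ l) • (1 : Matrix (Fin 2) (Fin 2) ℂ)) ∧
  (∃ F : B3 →* Matrix (Fin 2) (Fin 2) ℤ, (∀ u, F (cl u) = psi u) ∧
    ∀ l : ℤ, F (zz ^ l) = (((-1 : ℤˣ) ^ l : ℤˣ) : ℤ) • (1 : Matrix (Fin 2) (Fin 2) ℤ)) ∧
  ∃ E : B3 →* Multiplicative ℤ, (∀ u, (E (cl u)).toAdd = ex u) ∧
    ∀ l : ℤ, (E (zz ^ l)).toAdd = 6 * l

/-- [Ker] the kernel of the map to `PSL₂(ℤ)`.
Proof. In `B3` let `x = xx`, `y = yy`, `S = x y x`, `z = zz = S ^ 2`, `R = x`, `L = y⁻¹`. From the braid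
relation `S x = y S`, `S y = x S`, `z` is central, and
`R S L = S`, `L S R = S`, `R S R = z L`, `L S L = R` (`x S y⁻¹ = x x⁻¹ S`; `y⁻¹ S x = y⁻¹ y S`;
`x y = S x⁻¹`, so `x S x = x y S = S x⁻¹ S = S S y⁻¹`; `y⁻¹ S y⁻¹ = y⁻¹ x⁻¹ S = (x y)⁻¹ S = x S⁻¹ S`).
Every `g : B3` has the form `z ^ l * S ^ i * P * S ^ j` with `i, j ∈ {0, 1}` and `P` the product of a
list of letters `L`, `R`: the set of these elements contains `1` and is closed under multiplication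
from the right by `L`, `R` (if `j = 1` use the four rules for the last letter of `P`; if `P` is empty
it is clear), `S` and `z⁻¹`, which generate (`x⁻¹ = S L S z⁻¹`, `y = S R S z⁻¹`). `psi` of a
nonempty product `P` has nonnegative entries whose sum is at least `3`, and
`psi S = !![0, 1; -1, 0]`. So if `psi g = ± 1` (`psi` as a homomorphism on `B3`, `exists_hom`) then
`psi P = ± (psi S) ^ (-i - j)` and `P` is empty, `g = z ^ l * S ^ (i + j)` and `i + j` is even, as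
`psi S ≠ ± 1`. Apply this to `g = (cl v)⁻¹ * cl u`. -/
def St_Ker : Prop := ∀ u v : W, (psi u = psi v ∨ psi u = -psi v) →
  ∃ l : ℤ, cl u = cl v * zz ^ l

/-- [SL] conjugacy classes of trace `1` and `3`.
Proof. Strong induction on `|M 1 0|`. Conjugation by `psi (σ₀ ^ k) = !![1, k; 0, 1]`
changes `M 0 0` by a multiple of `M 1 0`, so one may assume `|2 M 0 0 - trace| ≤ |M 1 0|` (`M 1 0 ≠ 0`
since `a (tr - a) = 1` has no integral solution for `tr = 1, 3`); conjugation by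
`psi (σ₀ σ₁ σ₀) = !![0, 1; -1, 0]` replaces `(M 0 1, M 1 0)` by `(-M 1 0, -M 0 1)`. With `a = M 0 0`,
`4 M 0 1 * M 1 0 = tr ^ 2 - 4 - (2 a - tr) ^ 2`. If `|M 0 1| < |M 1 0|` use the induction
hypothesis. Otherwise `4 c ^ 2 ≤ |tr ^ 2 - 4 - (2 a - tr) ^ 2|`, `(2 a - tr) ^ 2 ≤ c ^ 2`, odd, which
forces `c = ± 1` and `2 a - tr = ± 1`: four matrices for each trace, each conjugate to one of the
standard ones by an explicit short word (`(-M).conj`...: `psi (σ₀ σ₁ σ₀)` and `psi (σ₀)`, ...). -/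
def St_SL : Prop :=
  (∀ M : Matrix (Fin 2) (Fin 2) ℤ, M.det = 1 → M.trace = 3 → ∃ u : W,
    M * psi u = psi u * psi [(true, false), (false, true)]) ∧
  ∀ M : Matrix (Fin 2) (Fin 2) ℤ, M.det = 1 → M.trace = 1 → ∃ u : W,
    M * psi u = psi u * psi [(false, true), (true, true)] ∨
    M * psi u = psi u * psi [(true, false), (false, false)]

/-! ## The equations `f = 1` -/

/-- [TA] ends at `0` and `2`.
Proof. Let `(P, Q; R, S) = Psi t u`, `D = 1 + t + t ^ 2`, `a = ex u`, `x = -t ((1 + t) Q + P - 1) / D`,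
`y = -t ((1 + t) (P - 1) + t Q) / D`. By `St_Bur`
`F0 0 2 A (vec A u) = v 0 + v 1 + v 2 + v 3 + dd v 4 = A ^ a (1 + x + A ^ 2 (R + y))`
(`v 2 + dd v 4 = A ^ (a + 2) R`), if `D ≠ 0`. So `(-1) ^ a A ^ (2 a) = 1 + x + A ^ 2 (R + y)`; the same
for `i A` (same `t`): `(-1) ^ a (i A) ^ (2 a) = A ^ (2 a) = 1 + x - A ^ 2 (R + y)`.
If `a` is even: `1 + x = A ^ (2 a)`, `R + y = 0`. At `t = -1` (`A = exp (π i / 4)`): `x = P - 1`,
`y = -Q`, so `P = η = ± 1`, `R = Q`, `S = η (1 + Q ^ 2)` (`St_Int`), that is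
`psi u = ± psi (σ₁ ^ (-m) σ₀ ^ m)`, `m = η Q`. By `St_Ker` `cl u = yy ^ (-m) xx ^ m zz ^ l`, `a = 6 l`. At
`t = 2` (`A = 2 ^ (-1/4)`): the first row of `Psi t (σ₁ ^ (-m) σ₀ ^ m)` is that of `gen (false,true) ^ m`,
which fixes the column `(1, 1 + t)`, so `P + (1 + t) Q = t ^ (3 l) = 8 ^ l` and
`1 + x = 1 - (2 / 7) (8 ^ l - 1) = A ^ (2 a) = 8 ^ (-l)`: `(8 ^ l - 1) (8 ^ (-l) - 2 / 7) = 0`, so `l = 0`.
If `a` is odd: `1 + x = 0`, `A ^ 2 (R + y) = -A ^ (2 a)`; at `t = -1`: `P = 0`, `R - Q = ± 1`,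
`-Q R = 1`: impossible for integers. -/
def St_TA : Prop := ∀ u : W,
  (∀ A : ℂ, A ≠ 0 → F0 0 2 A (vec A u) = (-A ^ 3) ^ ex u) → ∃ m : ℤ, cl u = yy ^ (-m) * xx ^ m

/-- [TB] ends at `0` and `1`.
Proof. Symbols as in `St_TA`, `x' = -((1 + t) R + t (S - 1)) / D`, `y' = -t ((1 + t) (S - 1) + R) / D`.
`F0 0 1 A (vec A u) = dd v 0 + dd v 1 + v 2 + v 3 + v 4 = A ^ a (P - 1 + x' + A ^ 2 (y' - 1 - t))`
(`dd v 1 + v 3 = A ^ a (P - 1)`). At `t = -1`: `x' = S - 1`, `y' = R`.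
`a` even: `y' = 1 + t`, `P - 1 + x' = A ^ (2 a)`; at `t = -1`: `R = 0`, `P + S = 2 ± 1`, `P S = 1`:
impossible. `a` odd: `P - 1 + x' = 0`, `A ^ 2 (y' - 1 - t) = -A ^ (2 a)`; at `t = -1`: `P + S = 2`,
`R = -η`, `η = ± 1`, so `psi u = !![1 - c η, c ^ 2 η; -η, 1 + c η] = psi (σ₀ ^ c σ₁ ^ η σ₀ ^ (-c))`
for `c = η (1 - P)`. By `St_Ker` `cl u = xx ^ c yy ^ η xx ^ (-c) zz ^ l`. Let
`φ(M) = D M₀₀ - (1 + t) M₁₀ - t M₁₁ = trace (K M)`, `K = !![D, -(1 + t); 0, -t]`; `K` commutes with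
`gen t (false, true)`, so `φ(Psi t (σ₀ ^ c σ₁ ^ η σ₀ ^ (-c))) = φ(gen t (true, ±)) = D - t = 1 + t ^ 2`.
At `t = 2` the equation `D (P - 1 + x') = 0` is `φ(Psi t u) = D - t`, and `φ(Psi t u) = 8 ^ l (D - t)`,
so `8 ^ l = 1`, `l = 0`. -/
def St_TB : Prop := ∀ u : W,
  (∀ A : ℂ, A ≠ 0 → F0 0 1 A (vec A u) = (-A ^ 3) ^ ex u) →
    ∃ c η : ℤ, (η = 1 ∨ η = -1) ∧ cl u = xx ^ c * yy ^ η * xx ^ (-c)

/-- [TC] both ends at `1`.
Proof. `k = ex1 w`. `cc A w = A ^ (k - 2) κ` with `κ = κ_t(w)`: `κ [] = 0`,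
`κ (true :: w) = 1 - t κ w`, `κ (false :: w) = (1 - κ w) / t`; so `(1 + t) κ = 1 - (-t) ^ k`, and `κ = k` for
`t = -1`. `F0 1 1 = dd ^ 2 v 0 + dd v 1 + dd v 2 + v 3 + v 4`, `F1 1 1 = dd v 0 + v 1 + v 2 + v 3 + v 4`; with
`E = ex u + k` the left side of the hypothesis is `A ^ E (α + A ^ 2 β)`,
`α = P + S + t + 1 / t + κ (y + y' - 1 - t)`, `β = t κ (x + x')`, where (symbols of `St_TA`, `St_TB`)
`x + x' = -t (P + S - 2 + (1 + t) (Q + R / t)) / D`, `y + y' = (1 + t) (x + x') + t Q + R`.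
Using `A` and `i A`: `E` even: `β = 0`, `α = A ^ (2 E)`; `E` odd: `α = 0`, `A ^ 2 β = -A ^ (2 E)`.
At `t = -1`: `x + x' = P + S - 2`, `y + y' = R - Q`.
`E` odd: `k (P + S - 2) = ± 1` and `P + S - 2 + k (R - Q) = 0` so `k = ± 1`, `P + S ∈ {1, 3}`,
`R - Q = ± 1`; with `P S - Q R = 1`: `(P + S) ^ 2 - 3 = (P - S) ^ 2 + (Q + R) ^ 2` is `-2` or `6`: impossible.
`E` even: `k ≠ 0`, so `P + S = 2`, and `α = k (R - Q) = ± 1`, so `k = ± 1`, `R - Q = ± 1`;
`-(P - 1) ^ 2 = Q R` and `Q (Q ± 1) ≥ 0` give `P = S = 1` and `Q = 0` or `R = 0`: `psi u` is `psi` of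
`σ₀ ^ η` or `σ₁ ^ η`. By `St_Ker` `cl u` is `xx ^ η zz ^ l` or `yy ^ η zz ^ l`. At `t = 2` `κ ≠ 0`, so
`x + x' = 0`: `P + S + (1 + t) (Q + R / t) = 2`, and the left side is `2 t ^ (3 l)` in all four cases
(`gen t` has left side `2`). So `l = 0`. -/
def St_TC : Prop := ∀ (u : W) (w : List Bool), ex1 w ≠ 0 →
  (∀ A : ℂ, A ≠ 0 → A ^ ex1 w * F0 1 1 A (vec A u) + cc A w * F1 1 1 A (vec A u) =
    (-A ^ 3) ^ (ex u + ex1 w)) →
  (ex1 w = 1 ∨ ex1 w = -1) ∧ ∃ η : ℤ, (η = 1 ∨ η = -1) ∧ (cl u = xx ^ η ∨ cl u = yy ^ η)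

/-- [TD] closed braids. Proof. `F0 0 0 = dd ^ 2 v 0 + dd v 1 + dd v 2 + v 3 + v 4
= A ^ a (P + S + t + 1 / t)`. With `A`, `i A`: `a` is even (otherwise `A ^ (2 a) = 0`), and
`P + S + t + 1 / t = A ^ (2 a)`. At `t = -1` the trace of `psi u` is `3` or `1`. By `St_SL`, `St_Ker`
`cl u = g h zz ^ l g⁻¹` with `h = yy⁻¹ xx` or `xx yy` or `yy⁻¹ xx⁻¹`. At `t = 2`, `r = 8 ^ l`, the trace of
`Psi t h` is `1 - t - 1 / t`, `-t`, `-1 / t`: `r (1 - c) + c = 1 / r` (`c = t + 1 / t = 5 / 2`), or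
`-t r + c = 1 / (t r)`, or `-r / t + c = t / r`; so `r = 1` (the other solutions `2 / 3`, `1 / 4`, `4` are
no powers of `8`), `l = 0`. (`A ^ (2 a) = t ^ (-a / 2)` and `a = 6 l`, `6 l + 2`, `6 l - 2`.) -/
def St_TD : Prop := ∀ u : W,
  (∀ A : ℂ, A ≠ 0 → F0 0 0 A (vec A u) = (-A ^ 3) ^ ex u) →
    ∃ g h : B3, (h = xx * yy ∨ h = yy⁻¹ * xx⁻¹ ∨ h = yy⁻¹ * xx) ∧ cl u = g * h * g⁻¹

/-- [T1] two strands. Proof. `k = ex1 w`, `cc A w = A ^ (k - 2) κ` as in `St_TC`. With `A`, `i A`,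
`t = -1`. `i = j`: `(-1) ^ k A ^ (2 k) = dd A + A ^ (-2) κ = A ^ 2 (-1 - t + t κ)`: `k` even impossible, `k` odd
gives `-κ = ± 1` at `t = -1`. `i ≠ j`: `(-1) ^ k A ^ (2 k) = 1 + A ^ 2 t κ`: `k` odd impossible (`1 = 0`), `k` even
gives `κ = 0`. -/
def St_T1 : Prop := ∀ w : List Bool,
  ((∀ A : ℂ, A ≠ 0 → A ^ ex1 w * dd A + cc A w = (-A ^ 3) ^ ex1 w) →
    ex1 w = 1 ∨ ex1 w = -1) ∧
  ((∀ A : ℂ, A ≠ 0 → A ^ ex1 w * 1 + cc A w = (-A ^ 3) ^ ex1 w) → ex1 w = 0)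

/-! ## The moves -/

/-- [Mov] equal braids give isotopic diagrams. Proof. `cl u = cl u'` is
`ConGen.Rel Rl u u'` (`Quotient.exact`); induction on it, for all contexts: if `ConGen.Rel Rl x y`
then `Isotopic ⟨2, i, nat (p ++ x ++ q), j, w⟩ ⟨2, i, nat (p ++ y ++ q), j, w⟩` for all `p`, `q`. Valid
holds since the letters of `nat u` are less than `2`. -/
def St_Mov : Prop := ∀ (i j : ℕ) (w : List Bool) (u u' : W), i ≤ 2 → j ≤ 2 →
  cl u = cl u' → Isotopic (dia i u j w) (dia i u' j w)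

/-- [Sho] the short sector. Proof. (1) Words on two strands with the same exponent sum are related by
cancellations: `(0, ε) (0, !ε)` (show that every `w` reduces to `replicate |ex1 w| (0 < ex1 w)`, also
inside the long sector of a diagram on two strands). (2) `tailPass`, `headPass`, induction on `w`
(`skip 0 0 = 1`, `skip 0 1 = 2`, `skip 2 0 = 0`, `skip 2 1 = 1`). -/
def St_Sho : Prop :=
  (∀ (i j : ℕ) (u : W) (w w' : List Bool), i ≤ 2 → j ≤ 2 → ex1 w = ex1 w' →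
    Isotopic (dia i u j w) (dia i u j w')) ∧
  (∀ (i j : ℕ) (w w' : List Bool), i ≤ 1 → j ≤ 1 → ex1 w = ex1 w' →
    Isotopic (dia1 i w j) (dia1 i w' j)) ∧
  (∀ (j : ℕ) (u : W) (w : List Bool), j ≤ 2 →
    Isotopic (dia 0 u j w) (dia 0 (up true w ++ u) j []) ∧
    Isotopic (dia 2 u j w) (dia 2 (up false w ++ u) j [])) ∧
  ∀ (i : ℕ) (u : W) (w : List Bool), i ≤ 2 →
    Isotopic (dia i u 0 w) (dia i (u ++ up true w) 0 []) ∧
    Isotopic (dia i u 2 w) (dia i (u ++ up false w) 2 [])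

/-- [Red] the final reductions. Proof. (Powers: `xx ^ c = cl (up false w)` for every `w` with
`ex1 w = c`, similarly `yy`.)
(A) `St_Mov` to `up true w' ++ up false w` with `ex1 w = m`, `ex1 w' = -m`, pass `w'` down (tail at `0`)
and `w` up (head at `2`) into the short sector (`St_Sho` backwards), cancel there. Similarly for `2, 0`.
(B) `St_Mov` to `up false w ++ (true, ε) :: up false w'`, `outerLong` (`n = 1`), cancel
(`St_Sho` (2)). Similarly with `innerLong` for `1, 2` and `2, 1`.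
(C) `St_Sho` (1) to `w = [ε]`; `cl u = xx ^ η`: `outerShort`, then `innerLong`; `cl u = yy ^ η`:
`innerShort`, then `outerLong`.
(D) choose words for `g`, `h`, `g⁻¹`; `cut` to `h g⁻¹ g` with both ends at `0`, `St_Mov` to the word
of `h`, whose two letters are at different places; `outerLong` twice.
(1) `St_Sho` (2) to one letter; `outerLong` (ends at `0`) or `innerLong` (ends at `1`). -/
def St_Red : Prop :=
  (∀ (u : W) (m : ℤ), cl u = yy ^ (-m) * xx ^ m → Isotopic (dia 0 u 2 []) ⟨2, 0, [], 2, []⟩) ∧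
  (∀ (u : W) (m : ℤ), cl u = xx ^ (-m) * yy ^ m → Isotopic (dia 2 u 0 []) ⟨2, 2, [], 0, []⟩) ∧
  (∀ (u : W) (c η : ℤ), (η = 1 ∨ η = -1) → cl u = xx ^ c * yy ^ η * xx ^ (-c) →
    Isotopic (dia 0 u 1 []) ⟨1, 0, [], 1, []⟩ ∧ Isotopic (dia 1 u 0 []) ⟨1, 1, [], 0, []⟩) ∧
  (∀ (u : W) (c η : ℤ), (η = 1 ∨ η = -1) → cl u = yy ^ c * xx ^ η * yy ^ (-c) →
    Isotopic (dia 1 u 2 []) ⟨1, 0, [], 1, []⟩ ∧ Isotopic (dia 2 u 1 []) ⟨1, 1, [], 0, []⟩) ∧
  (∀ (u : W) (w : List Bool) (η : ℤ), (ex1 w = 1 ∨ ex1 w = -1) → (η = 1 ∨ η = -1) →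
    (cl u = xx ^ η ∨ cl u = yy ^ η) → Isotopic (dia 1 u 1 w) ⟨0, 0, [], 0, []⟩) ∧
  (∀ (i : ℕ) (u : W) (g h : B3), i ≤ 2 → (h = xx * yy ∨ h = yy⁻¹ * xx⁻¹ ∨ h = yy⁻¹ * xx) →
    cl u = g * h * g⁻¹ → Isotopic (dia i u i []) ⟨0, 0, [], 0, []⟩) ∧
  (∀ (i : ℕ) (w : List Bool), i ≤ 1 → (ex1 w = 1 ∨ ex1 w = -1) →
    Isotopic (dia1 i w i) ⟨0, 0, [], 0, []⟩) ∧
  ∀ (i j : ℕ) (w : List Bool), i ≤ 1 → j ≤ 1 → ex1 w = 0 →
    Isotopic (dia1 i w j) ⟨1, i, [], j, []⟩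

/-- [Pth] the final diagrams are paths. Proof. All points are in one class: `Quot` has one element. -/
def St_Pth : Prop := IsPath ⟨0, 0, [], 0, []⟩ ∧ IsPath ⟨1, 0, [], 1, []⟩ ∧
  IsPath ⟨1, 1, [], 0, []⟩ ∧ IsPath ⟨2, 0, [], 2, []⟩ ∧ IsPath ⟨2, 2, [], 0, []⟩

/-- The theorem. -/
def St_Main : Prop := ∀ D : Braidoid, Valid D → D.n ≤ 2 → IsPath D → normalized D = 1 →
  ∃ D' : Braidoid, Valid D' ∧ D'.long = [] ∧ D'.short = [] ∧ IsPath D' ∧ Isotopic D D'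

end Pool.Agent.KB3
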