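import Pool.Agent.KB3.St

/-!
# Closures of braidoids on at most three strands: closed braids
-/

set_option autoImplicit false

namespace Pool.Agent.KB3


private theorem td_F (A : ℂ) (v : Fin 5 → ℂ) :
    F0 0 0 A v = dd A ^ 2 * v 0 + dd A * v 1 + dd A * v 2 + v 3 + v 4 := by
  unfold F0
  rw [Fin.sum_univ_five]
  simp [e0]
  ring

private theorem td_key (h1 : St_Bur) {u : W}
    (hu : ∀ A : ℂ, A ≠ 0 → F0 0 0 A (vec A u) = (-A ^ 3) ^ ex u) {A t : ℂ} (hA : A ≠ 0)
    (ht : t * A ^ 4 = 1) (hD : 1 + t + t ^ 2 ≠ 0) :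
    Psi t u 0 0 + Psi t u 1 1 + t + A ^ 4 = (-1) ^ ex u * (A ^ ex u) ^ 2 := by
  obtain ⟨b0, b1, b2, b3, b4⟩ := h1 A t hA ht u
  have h2 := hu A hA
  rw [td_F] at h2
  have hdd : dd A = -A ^ 2 * (1 + t) := by
    unfold dd
    have h3 : (A ^ 2)⁻¹ = t * A ^ 2 := by
      refine inv_eq_of_mul_eq_one_right ?_
      linear_combination ht
    rw [h3]
    ring
  have hX : A ^ ex u ≠ 0 := zpow_ne_zero _ hA
  have h3 : (-A ^ 3) ^ ex u = (-1) ^ ex u * (A ^ ex u) ^ 3 := by
    rw [neg_eq_neg_one_mul, mul_zpow]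
    congr 1
    rw [← zpow_natCast, ← zpow_natCast, ← zpow_mul, ← zpow_mul, mul_comm]
  rw [h3, hdd, b0] at h2
  set X := A ^ ex u with hXdef
  set E : ℂ := (-1) ^ ex u with hE
  have h4 : (1 + t + t ^ 2) * X * (Psi t u 0 0 + Psi t u 1 1 + t + A ^ 4) =
      (1 + t + t ^ 2) * X * (E * X ^ 2) := by
    linear_combination (1 + t + t ^ 2) * h2 + A ^ 2 * (1 + t) * b1 + A ^ 2 * (1 + t) * b2 - b3 - b4
      - ((1 + t + t ^ 2) * X * (2 + t) + (1 + t) * X * (((1 + t) * (Psi t u 0 0 - 1) +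
        t * Psi t u 0 1) + ((1 + t) * (Psi t u 1 1 - 1) + Psi t u 1 0))) * ht
  exact mul_left_cancel₀ (mul_ne_zero hD hX) h4

private theorem td_even (h1 : St_Bur) {u : W}
    (hu : ∀ A : ℂ, A ≠ 0 → F0 0 0 A (vec A u) = (-A ^ 3) ^ ex u) {A t : ℂ} (hA : A ≠ 0)
    (ht : t * A ^ 4 = 1) (hD : 1 + t + t ^ 2 ≠ 0) :
    Even (ex u) ∧ Psi t u 0 0 + Psi t u 1 1 + t + A ^ 4 = (A ^ ex u) ^ 2 := by
  have k1 := td_key h1 hu hA ht hD
  have hI : Complex.I ≠ 0 := Complex.I_ne_zero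
  have hA' : Complex.I * A ≠ 0 := mul_ne_zero hI hA
  have h4 : (Complex.I * A) ^ 4 = A ^ 4 := by
    rw [mul_pow, Complex.I_pow_four, one_mul]
  have k2 := td_key h1 hu hA' (by rw [h4]; exact ht) hD
  rw [h4, k1] at k2
  have hX : A ^ ex u ≠ 0 := zpow_ne_zero _ hA
  have hE : (-1 : ℂ) ^ ex u ≠ 0 := zpow_ne_zero _ (by norm_num)
  have h5 : ((Complex.I * A) ^ ex u) ^ 2 = (-1) ^ ex u * (A ^ ex u) ^ 2 := by
    rw [mul_zpow, mul_pow]
    congr 1
    rw [← zpow_natCast, ← zpow_mul, mul_comm, zpow_mul, zpow_natCast, Complex.I_sq]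
  rw [h5] at k2
  have h6 : (A ^ ex u) ^ 2 = (-1) ^ ex u * (A ^ ex u) ^ 2 := mul_left_cancel₀ hE k2
  have h7 : (-1 : ℂ) ^ ex u = 1 := by
    have h8 : ((-1 : ℂ) ^ ex u - 1) * (A ^ ex u) ^ 2 = 0 := by linear_combination -h6
    rcases mul_eq_zero.1 h8 with h9 | h9
    · exact sub_eq_zero.1 h9
    · exact absurd h9 (pow_ne_zero _ hX)
  refine ⟨?_, by rw [k1, h7, one_mul]⟩
  rcases Int.even_or_odd (ex u) with h8 | h8
  · exact h8
  · rw [h8.neg_one_zpow] at h7
    norm_num at h7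

private theorem td_pow8 (l : ℤ) (p q : ℕ) (h : (q : ℂ) * 8 ^ l = p) :
    (∃ n : ℕ, l = n ∧ q * 8 ^ n = p) ∨ ∃ n : ℕ, l = -(n + 1) ∧ q = p * (8 * 8 ^ n) := by
  rcases lt_or_ge l 0 with hl | hl
  · right
    obtain ⟨n, hn⟩ := Int.eq_ofNat_of_zero_le (show 0 ≤ -l - 1 by omega)
    refine ⟨n, by omega, ?_⟩
    have h2 : l = -((n + 1 : ℕ) : ℤ) := by
      push_cast
      omega
    rw [h2, zpow_neg, zpow_natCast] at h
    have h3 : (8 : ℂ) ^ (n + 1) ≠ 0 := pow_ne_zero _ (by norm_num)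
    have h4 : (q : ℂ) = p * (8 * 8 ^ n) := by
      field_simp at h
      rw [h]
      ring
    exact_mod_cast h4
  · left
    obtain ⟨n, hn⟩ := Int.eq_ofNat_of_zero_le hl
    refine ⟨n, by omega, ?_⟩
    rw [hn, zpow_natCast] at h
    exact_mod_cast h

private theorem td_fin {l : ℤ} {q p : ℕ} (h0 : (8 : ℂ) ^ l = 1 ∨ (q : ℂ) * 8 ^ l = p)
    (hqp : (q = 3 ∧ p = 2) ∨ (q = 4 ∧ p = 1) ∨ (q = 1 ∧ p = 4)) : l = 0 := by
  rcases h0 with h0 | h0
  · have h1 : ((1 : ℕ) : ℂ) * 8 ^ l = (1 : ℕ) := by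
      rw [h0]
      norm_num
    rcases td_pow8 l 1 1 h1 with ⟨n, hn, h2⟩ | ⟨n, hn, h2⟩
    · rcases n with _ | n
      · exact hn
      · rw [pow_succ] at h2
        omega
    · omega
  · exfalso
    rcases td_pow8 l p q h0 with ⟨n, hn, h2⟩ | ⟨n, hn, h2⟩
    · rcases hqp with ⟨rfl, rfl⟩ | ⟨rfl, rfl⟩ | ⟨rfl, rfl⟩
      · have : 0 < 8 ^ n := by positivity
        omega
      · have : 0 < 8 ^ n := by positivity
        omega
      · rcases n with _ | n
        · norm_num at h2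
        · rw [pow_succ] at h2
          omega
    · rcases hqp with ⟨rfl, rfl⟩ | ⟨rfl, rfl⟩ | ⟨rfl, rfl⟩
      · omega
      · omega
      · have : 0 < 8 ^ n := by positivity
        omega

private theorem td_cases (h1 : St_Bur) (h2 : St_Int) (h5 : St_SL) {u : W}
    (hu : ∀ A : ℂ, A ≠ 0 → F0 0 0 A (vec A u) = (-A ^ 3) ^ ex u) :
    ∃ v : W, ∃ hl : W, (hl = [(false, true), (true, true)] ∨
      hl = [(true, false), (false, false)] ∨ hl = [(true, false), (false, true)]) ∧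
      psi u * psi v = psi v * psi hl := by
  obtain ⟨A, hA4⟩ := IsAlgClosed.exists_pow_nat_eq (-1 : ℂ) (n := 4) (by norm_num)
  have hA : A ≠ 0 := by
    rintro rfl
    norm_num at hA4
  obtain ⟨⟨b, hb⟩, h6⟩ := td_even h1 hu hA (t := -1) (by rw [hA4]; norm_num) (by norm_num)
  have h7 : (A ^ ex u) ^ 2 = (-1) ^ b := by
    rw [← zpow_natCast, ← zpow_mul, hb, show (b + b) * ((2 : ℕ) : ℤ) = ((4 : ℕ) : ℤ) * b by
      push_cast; ring, zpow_mul, zpow_natCast, hA4]
  rw [h7, hA4, h2.1 u] at h6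
  have h8 : (psi u).trace = 3 ∨ (psi u).trace = 1 := by
    rw [Matrix.trace_fin_two]
    simp only [Matrix.map_apply] at h6
    rcases Int.even_or_odd b with h9 | h9
    · left
      rw [h9.neg_one_zpow] at h6
      have h10 : ((psi u 0 0 + psi u 1 1 : ℤ) : ℂ) = ((3 : ℤ) : ℂ) := by
        push_cast
        linear_combination h6
      exact_mod_cast h10
    · right
      rw [h9.neg_one_zpow] at h6
      have h10 : ((psi u 0 0 + psi u 1 1 : ℤ) : ℂ) = ((1 : ℤ) : ℂ) := by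
        push_cast
        linear_combination h6
      exact_mod_cast h10
  rcases h8 with h8 | h8
  · obtain ⟨v, hv⟩ := h5.1 (psi u) (h2.2.1 u) h8
    exact ⟨v, _, Or.inr (Or.inr rfl), hv⟩
  · obtain ⟨v, hv⟩ := h5.2 (psi u) (h2.2.1 u) h8
    rcases hv with hv | hv
    · exact ⟨v, _, Or.inl rfl, hv⟩
    · exact ⟨v, _, Or.inr (Or.inl rfl), hv⟩

private theorem td_psi_append (u v : W) : psi (u ++ v) = psi u * psi v := by
  unfold psi
  rw [List.map_append, List.prod_append]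

theorem thm_TD (h1 : St_Bur) (h2 : St_Int) (h3 : St_Hom) (h4 : St_Ker) (h5 : St_SL) :
    St_TD := by
  intro u hu
  obtain ⟨v, hl, hhl, hv⟩ := td_cases h1 h2 h5 hu
  obtain ⟨l, hlz⟩ := h4 (u ++ v) (v ++ hl) (Or.inl (by rw [td_psi_append, td_psi_append, hv]))
  rw [cl_append, cl_append] at hlz
  -- the exponent sum
  obtain ⟨E, hE1, hE2⟩ := h3.2.2
  have hex : ex u = ex hl + 6 * l := by
    have h6 := congrArg (fun g => (E g).toAdd) hlz
    simp only [map_mul, toAdd_mul, hE1, hE2] at h6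
    omega
  -- the trace at t = 2
  obtain ⟨F, hF1, hF2⟩ := h3.1 2 (by norm_num)
  have hcl : cl u = cl v * (cl hl * zz ^ l) * (cl v)⁻¹ := by
    rw [eq_mul_inv_iff_mul_eq, hlz, mul_assoc]
  have htr : (Psi 2 u).trace = 8 ^ l * (Psi 2 hl).trace := by
    rw [← hF1, hcl, map_mul, map_mul, map_mul, hF2, Matrix.trace_mul_comm, ← mul_assoc,
      ← map_mul, inv_mul_cancel, map_one, one_mul, hF1, Matrix.mul_smul, mul_one,
      Matrix.trace_smul, smul_eq_mul]
    norm_num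
  obtain ⟨A, hA4⟩ := IsAlgClosed.exists_pow_nat_eq ((2 : ℂ)⁻¹) (n := 4) (by norm_num)
  have hA : A ≠ 0 := by
    rintro rfl
    norm_num at hA4
  obtain ⟨⟨b, hb⟩, h6⟩ := td_even h1 hu hA (t := 2) (by rw [hA4]; norm_num) (by norm_num)
  have h7 : (A ^ ex u) ^ 2 = (2 ^ b)⁻¹ := by
    rw [← zpow_natCast, ← zpow_mul, hb, show (b + b) * ((2 : ℕ) : ℤ) = ((4 : ℕ) : ℤ) * b by
      push_cast; ring, zpow_mul, zpow_natCast, hA4, inv_zpow]
  rw [Matrix.trace_fin_two, Matrix.trace_fin_two] at htr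
  rw [htr, h7, hA4] at h6
  have h8 : (8 : ℂ) ^ l = 2 ^ (3 * l) := by
    rw [zpow_mul]
    norm_num
  have h80 : (8 : ℂ) ^ l ≠ 0 := zpow_ne_zero _ (by norm_num)
  have hl0 : l = 0 := by
    rcases hhl with rfl | rfl | rfl
    · have hb' : b = 3 * l + 1 := by
        have : ex [(false, true), (true, true)] = 2 := rfl
        omega
      rw [hb', zpow_add₀ (by norm_num : (2 : ℂ) ≠ 0), ← h8, zpow_one] at h6
      have h9 : Psi 2 [(false, true), (true, true)] 0 0 +
          Psi 2 [(false, true), (true, true)] 1 1 = -2 := by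
        simp [Psi, gen, Matrix.mul_apply, Fin.sum_univ_two]
      rw [h9] at h6
      refine td_fin (q := 4) (p := 1) ?_ (Or.inr (Or.inl ⟨rfl, rfl⟩))
      field_simp at h6
      have h10 : ((8 : ℂ) ^ l - 1) * (4 * 8 ^ l - 1) = 0 := by linear_combination -h6
      rcases mul_eq_zero.1 h10 with h11 | h11
      · exact Or.inl (sub_eq_zero.1 h11)
      · refine Or.inr ?_
        push_cast
        exact sub_eq_zero.1 h11
    · have hb' : b = 3 * l - 1 := by
        have : ex [(true, false), (false, false)] = -2 := rfl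
        omega
      rw [hb', zpow_sub₀ (by norm_num : (2 : ℂ) ≠ 0), ← h8, zpow_one] at h6
      have h9 : Psi 2 [(true, false), (false, false)] 0 0 +
          Psi 2 [(true, false), (false, false)] 1 1 = -2⁻¹ := by
        simp [Psi, gen, Matrix.mul_apply, Fin.sum_univ_two]
      rw [h9] at h6
      refine td_fin (q := 1) (p := 4) ?_ (Or.inr (Or.inr ⟨rfl, rfl⟩))
      field_simp at h6
      have h10 : ((8 : ℂ) ^ l - 1) * (8 ^ l - 4) = 0 := by linear_combination -h6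
      rcases mul_eq_zero.1 h10 with h11 | h11
      · exact Or.inl (sub_eq_zero.1 h11)
      · refine Or.inr ?_
        push_cast
        rw [one_mul]
        exact sub_eq_zero.1 h11
    · have hb' : b = 3 * l := by
        have : ex [(true, false), (false, true)] = 0 := rfl
        omega
      rw [hb', ← h8] at h6
      have h9 : Psi 2 [(true, false), (false, true)] 0 0 +
          Psi 2 [(true, false), (false, true)] 1 1 = -3 * 2⁻¹ := by
        simp [Psi, gen, Matrix.mul_apply, Fin.sum_univ_two]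
        norm_num
      rw [h9] at h6
      refine td_fin (q := 3) (p := 2) ?_ (Or.inl ⟨rfl, rfl⟩)
      field_simp at h6
      have h10 : ((8 : ℂ) ^ l - 1) * (3 * 8 ^ l - 2) = 0 := by linear_combination -h6
      rcases mul_eq_zero.1 h10 with h11 | h11
      · exact Or.inl (sub_eq_zero.1 h11)
      · refine Or.inr ?_
        push_cast
        exact sub_eq_zero.1 h11
  rw [hl0, zpow_zero, mul_one] at hcl
  refine ⟨cl v, cl hl, ?_, hcl⟩
  rcases hhl with rfl | rfl | rfl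
  · left
    exact cl_append [(false, true)] [(true, true)]
  · right
    left
    rw [← cl_x', ← cl_y']
    exact cl_append [(true, false)] [(false, false)]
  · right
    right
    rw [← cl_y']
    exact cl_append [(true, false)] [(false, true)]

end Pool.Agent.KB3
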